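import Pool.Agent.N770.SK.Ind

/-!
# Permutation characters
-/

set_option autoImplicit false

namespace Pool.Agent.N770.SK

variable {G : Type} [Group G]

open MulAction

/-- the permutation character of a finite `V`-set, extended by zero -/
noncomputable def pi (V : Subgroup G) (Y : Type) [MulAction V Y] (g : G) : ℂ :=
  open Classical in if h : g ∈ V then (Nat.card {y : Y // (⟨g, h⟩ : V) • y = y} : ℂ) else 0

/-- stabilizers as subgroups of `G` -/
def stab (V : Subgroup G) {Y : Type} [MulAction V Y] (y : Y) : Subgroup G :=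
  (stabilizer V y).map V.subtype

lemma stab_le (V : Subgroup G) {Y : Type} [MulAction V Y] (y : Y) : stab V y ≤ V := by
  rintro _ ⟨x, _, rfl⟩
  exact x.2

lemma mem_stab {V : Subgroup G} {Y : Type} [MulAction V Y] {y : Y} (x : V) :
    (x : G) ∈ stab V y ↔ x • y = y := by
  constructor
  · rintro ⟨z, hz, hzx⟩
    have : z = x := Subtype.ext hzx
    rw [← this]
    exact hz
  · intro h
    exact ⟨x, h, rfl⟩

/-- decomposition into orbits -/
lemma pi_mul (V : Subgroup G) (Y : Type) [MulAction V Y] [Fintype Y] [Fintype (orbitRel.Quotient V Y)]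
    (ψ : V →* ℂˣ) :
    pi V Y * lin V ψ = ∑ ω : orbitRel.Quotient V Y,
      Ind V (stab V ω.out) (lin (stab V ω.out) (res (stab_le V ω.out) ψ)) := by
  classical
  -- the cosets of the stabilizers are finite
  have hinj : ∀ (y : Y) (a b : V), a • y = b • y →
      (QuotientGroup.mk a : V ⧸ (stab V y).subgroupOf V) = QuotientGroup.mk b := by
    intro y a b h
    refine QuotientGroup.eq.2 ?_
    rw [Subgroup.mem_subgroupOf, mem_stab, mul_smul, ← h, inv_smul_smul]
  have hfin : ∀ y : Y, Finite (V ⧸ (stab V y).subgroupOf V) := by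
    intro y
    refine Finite.of_injective (fun q : V ⧸ (stab V y).subgroupOf V => q.out • y) ?_
    intro q q' h
    have h1 := hinj y _ _ h
    rwa [QuotientGroup.out_eq', QuotientGroup.out_eq'] at h1
  let _ : ∀ y : Y, Fintype (V ⧸ (stab V y).subgroupOf V) := fun y => Fintype.ofFinite _
  let f : (Σ ω : orbitRel.Quotient V Y, V ⧸ (stab V ω.out).subgroupOf V) → Y :=
    fun z => z.2.out • z.1.out
  have hf : Function.Bijective f := by
    constructor
    · rintro ⟨ω, q⟩ ⟨ω', q'⟩ h
      have h0 : q.out • ω.out = q'.out • ω'.out := h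
      have h1 : ω = ω' := by
        have h2 : (Quotient.mk'' (q.out • ω.out) : orbitRel.Quotient V Y) = Quotient.mk'' (q'.out • ω'.out) := by
          rw [h0]
        have h3 : ∀ (ω : orbitRel.Quotient V Y) (a : V), (Quotient.mk'' (a • ω.out) : orbitRel.Quotient V Y) = ω := by
          intro ω a
          conv_rhs => rw [← Quotient.out_eq' ω]
          exact Quotient.sound' (by rw [orbitRel_apply]; exact ⟨a, rfl⟩)
        rwa [h3, h3] at h2
      subst h1
      have h2 := hinj _ _ _ h0
      rw [QuotientGroup.out_eq', QuotientGroup.out_eq'] at h2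
      rw [h2]
    · intro y
      let ω : orbitRel.Quotient V Y := Quotient.mk'' y
      have h1 : (Quotient.mk'' ω.out : orbitRel.Quotient V Y) = Quotient.mk'' y := Quotient.out_eq' ω
      have h2 : y ∈ orbit V ω.out := by
        have h3 := Quotient.exact' h1.symm
        rwa [orbitRel_apply] at h3
      obtain ⟨a, ha⟩ := h2
      obtain ⟨v, hv⟩ := out_spec (U := V) (V := stab V ω.out) a
      refine ⟨⟨ω, QuotientGroup.mk a⟩, ?_⟩
      change (QuotientGroup.mk a : V ⧸ (stab V ω.out).subgroupOf V).out • ω.out = y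
      rw [hv, mul_smul]
      have h4 : (v : V) • ω.out = ω.out := by
        have h5 := v.2
        rw [Subgroup.mem_subgroupOf, mem_stab] at h5
        exact h5
      rw [h4]
      exact ha
  funext g
  rw [Finset.sum_apply, Pi.mul_apply]
  by_cases hg : g ∈ V
  · have h1 : pi V Y g = ∑ y : Y, if (⟨g, hg⟩ : V) • y = y then (1 : ℂ) else 0 := by
      rw [pi, dif_pos hg, Nat.card_eq_fintype_card, Fintype.card_subtype, Finset.sum_boole]
    rw [h1, ← Fintype.sum_equiv (Equiv.ofBijective f hf) (fun z => if (⟨g, hg⟩ : V) • f z = f z then (1 : ℂ) else 0)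
      (fun y => if (⟨g, hg⟩ : V) • y = y then (1 : ℂ) else 0) (fun z => rfl), Fintype.sum_sigma, Finset.sum_mul]
    refine Finset.sum_congr rfl fun ω _ => ?_
    rw [Ind, finsum_eq_sum_of_fintype, Finset.sum_mul]
    refine Finset.sum_congr rfl fun q _ => ?_
    have h2 : ((⟨g, hg⟩ : V) • f ⟨ω, q⟩ = f ⟨ω, q⟩) ↔
        (((q.out : V) : G)⁻¹ * g * ((q.out : V) : G)) ∈ stab V ω.out := by
      have h3 : (((q.out : V) : G)⁻¹ * g * ((q.out : V) : G)) = ((q.out⁻¹ * ⟨g, hg⟩ * q.out : V) : G) := rfl
      rw [h3, mem_stab]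
      change (⟨g, hg⟩ : V) • q.out • ω.out = q.out • ω.out ↔ _
      rw [mul_smul, mul_smul]
      constructor
      · intro h
        rw [h, inv_smul_smul]
      · intro h
        have h4 := congrArg (fun z => q.out • z) h
        simp only [smul_inv_smul] at h4
        exact h4
    by_cases h : (((q.out : V) : G)⁻¹ * g * ((q.out : V) : G)) ∈ stab V ω.out
    · rw [if_pos (h2.2 h), one_mul, lin_res _ _ h]
      exact ((lin_cl V ψ).conj _ (q.out : V).2 g).symm
    · rw [if_neg (fun h' => h (h2.1 h')), zero_mul, lin_not _ h]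
  · rw [pi, dif_neg hg, zero_mul]
    refine (Finset.sum_eq_zero fun ω _ => ?_).symm
    exact Ind_supp (stab_le V ω.out) (lin_cl _ _) hg

end Pool.Agent.N770.SK
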