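import Pool.Agent.N770.SK.Trans

/-!
# The reduction for defect functions
-/

set_option autoImplicit false

namespace Pool.Agent.N770.SK

open IntermediateField

variable {D : IntermediateField ℚ Qb → (GQ → ℂ) → ℂˣ}

section classes

variable {T : Subgroup GQ → AddSubgroup (GQ → ℂ)}

/-- **Classes which contain the linear characters of the totally complex fields.** -/
theorem TC.all (hT : TC CC T) {U : Subgroup GQ} (hU : IsOpen (U : Set GQ)) :
    (∀ θ ∈ VC U, θ + θ ∈ T U) ∧ (∀ θ, NotFour U θ → θ ∈ T U) ∧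
    (∀ f, OneDim U f → ∀ f', OneDim U f' → f ^ 2 = f' ^ 2 → f - f' ∈ T U) := by
  have _ : T2Space GQ := krullTopology_t2
  refine ⟨?_, ?_, ?_⟩
  · intro θ hθ
    have h2 : VC U ≤ (T U).comap (AddMonoidHom.mk' (fun f : GQ → ℂ => f + f)
        (fun a b => by abel)) := by
      rw [VC, AddSubgroup.closure_le]
      rintro f ⟨n, ρ, hρ, hf⟩
      refine hf.brauer hρ _ fun W hW hWU ψ hψ _ => ?_
      change Ind U W (lin W ψ) + Ind U W (lin W ψ) ∈ T U
      have hfq : Finite (U ⧸ W.subgroupOf U) := finite_quot hW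
      rw [← Ind_add]
      exact hT.ind _ W hU hW hWU _ ((lin_cl W ψ).add (lin_cl W ψ))
        (hT.lin_two realSet_cc closed_cc hψ)
    exact h2 hθ
  · rintro θ ⟨n, ρ, hρ, hθ, e, he, hρe⟩
    refine hθ.brauer hρ _ fun W hW hWU ψ hψ hψρ => ?_
    refine hT.ind _ W hU hW hWU _ (lin_cl W ψ) (hT.lin_four realSet_cc closed_cc hψ he ?_)
    intro u
    rw [← map_pow]
    have h1 : ρ ⟨((u ^ e : W) : GQ), hWU (u ^ e : W).2⟩ = 1 := by
      have h2 : (⟨((u ^ e : W) : GQ), hWU (u ^ e : W).2⟩ : U) = ⟨(u : GQ), hWU u.2⟩ ^ e := rfl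
      rw [h2, map_pow, hρe]
    exact hψρ _ (u ^ e : W).2 h1
  · rintro _ ⟨χ, hχ, rfl⟩ _ ⟨χ', hχ', rfl⟩ hsq
    obtain ⟨η, hη, hη2⟩ := exists_sign_char (χ := χ * χ'⁻¹) (by
      refine hχ.mul (openKer_of _ hχ' ?_)
      intro g hg
      obtain ⟨h1, h2⟩ := (mem_kerMap χ' g).1 hg
      refine ⟨h1, ?_⟩
      rw [MonoidHom.inv_apply, h2, inv_one]) (by
      intro u
      have h1 := congrFun hsq (u : GQ)
      rw [Pi.pow_apply, Pi.pow_apply, lin_mem χ u.2, lin_mem χ' u.2] at h1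
      have h2 : χ u ^ 2 = χ' u ^ 2 := by
        apply Units.ext
        rw [Units.val_pow_eq_pow_val, Units.val_pow_eq_pow_val]
        exact h1
      rw [MonoidHom.mul_apply, MonoidHom.inv_apply, mul_pow, inv_pow, h2, mul_inv_cancel])
    have h1 : χ = χ' * qc.comp η := by
      rw [← hη2]
      apply MonoidHom.ext
      intro u
      change χ u = χ' u * (χ u * (χ' u)⁻¹)
      rw [mul_comm (χ u), mul_inv_cancel_left]
    rw [h1]
    exact hT.lin_twist realSet_cc closed_cc hχ' hη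

end classes

/-- **The induction theorem.** -/
theorem gen_all (K : IntermediateField ℚ Qb) (hK : IsNF K) :
    (∀ θ, IsVirt K θ → InGen K (θ + θ)) ∧ (∀ θ, IsNotFour K θ → InGen K θ) ∧
    (∀ f, IsOneDim K f → ∀ f', IsOneDim K f' → f ^ 2 = f' ^ 2 → InGen K (f - f')) := by
  have hK' : FiniteDimensional ℚ K := hK
  have h := Gen_TC.all (U := GK K) K.fixingSubgroup_isOpen
  have h1 : fixedField (GK K) = K := InfiniteGalois.fixedField_fixingSubgroup K
  rw [h1] at h
  exact h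

/-- the virtual characters with trivial defect -/
def TD (D : IntermediateField ℚ Qb → (GQ → ℂ) → ℂˣ) (V : Subgroup GQ) : AddSubgroup (GQ → ℂ) :=
  AddSubgroup.closure {θ | θ ∈ VC V ∧ D (fixedField V) θ = 1}

lemma fixed_GK (K : IntermediateField ℚ Qb) : fixedField (GK K) = K :=
  InfiniteGalois.fixedField_fixingSubgroup K

lemma GK_open {K : IntermediateField ℚ Qb} (hK : FiniteDimensional ℚ K) : IsOpen (GK K : Set GQ) :=
  K.fixingSubgroup_isOpen

lemma IsDefect.zero (h : IsDefect D) {K : IntermediateField ℚ Qb} (hK : FiniteDimensional ℚ K) :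
    D K 0 = 1 := by
  have h1 := h.add K hK 0 (zero_mem _) 0 (zero_mem _)
  rw [add_zero] at h1
  exact (mul_eq_left.1 h1.symm)

lemma mem_TD (h : IsDefect D) {V : Subgroup GQ} (hV : IsOpen (V : Set GQ)) {θ : GQ → ℂ} :
    θ ∈ TD D V ↔ θ ∈ VC V ∧ D (fixedField V) θ = 1 := by
  have hK := finite_fixed hV
  have hG : GK (fixedField V) = V := fixing_fixed hV
  constructor
  · intro hθ
    rw [TD] at hθ
    induction hθ using AddSubgroup.closure_induction with
    | mem f hf => exact hf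
    | zero => exact ⟨zero_mem _, h.zero hK⟩
    | add a b _ _ ha hb =>
      refine ⟨add_mem ha.1 hb.1, ?_⟩
      rw [h.add _ hK a (by change a ∈ VC (GK _); rw [hG]; exact ha.1) b (by change b ∈ VC (GK _); rw [hG]; exact hb.1), ha.2, hb.2, one_mul]
    | neg a _ ha =>
      refine ⟨neg_mem ha.1, ?_⟩
      have h1 := h.add _ hK a (by change a ∈ VC (GK _); rw [hG]; exact ha.1) (-a) (by change -a ∈ VC (GK _); rw [hG]; exact neg_mem ha.1)
      rw [add_neg_cancel, h.zero hK, ha.2, one_mul] at h1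
      exact h1.symm
  · intro hθ
    exact AddSubgroup.subset_closure hθ

lemma TD_ind (h : IsDefect D) : ∀ V W : Subgroup GQ, IsOpen (V : Set GQ) → IsOpen (W : Set GQ) →
    W ≤ V → ∀ f, Cl W f → f ∈ TD D W → Ind V W f ∈ TD D V := by
  intro V W hV hW hWV f _ hf
  rw [mem_TD h hW] at hf
  rw [mem_TD h hV]
  refine ⟨VC.ind hV hW hWV hf.1, ?_⟩
  have hG : GK (fixedField V) = V := fixing_fixed hV
  have hG' : GK (fixedField W) = W := fixing_fixed hW
  have h1 := h.ind (fixedField V) (fixedField W) (finite_fixed hW) (by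
    rw [IntermediateField.le_iff_le]
    exact hWV.trans hG.ge) f (by change f ∈ VC (GK _); rw [hG']; exact hf.1)
  rw [IndK, hG, hG'] at h1
  rw [h1, hf.2]

/-- linear characters of an open subgroup as linear characters of the Galois group of its field -/
lemma TD_lin (h : IsDefect D) {V : Subgroup GQ} (hV : IsOpen (V : Set GQ)) {χ : V →* ℂˣ}
    (hχ : OpenKer χ) (hD : ∀ K : IntermediateField ℚ Qb, FiniteDimensional ℚ K →
      GK K = V → D K (lin V χ) = 1) : lin V χ ∈ TD D V := by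
  rw [mem_TD h hV]
  exact ⟨lin_vc hχ, hD _ (finite_fixed hV) (fixing_fixed hV)⟩

/-- **The class of virtual characters with trivial defect.** -/
theorem TD_TC (h : IsDefect D) (hc : TrivialComplex D) : TC CC (TD D) := by
  refine ⟨TD_ind h, ?_, ?_⟩
  · intro V ε hε
    have hχ : OpenKer (qc.comp ε) := hε.comp qc
    refine TD_lin h hε.isOpen hχ fun K hK hKV => ?_
    subst hKV
    exact h.quad K hK _ (isQuadratic_of hχ fun u => qc_sq _)
  · intro W hW hWX ψ hψ
    refine TD_lin h hW hψ fun K hK hKW => ?_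
    subst hKW
    refine hc K hK ⟨fun u => ?_⟩ _ ⟨ψ, hψ, rfl⟩
    obtain ⟨c, hc1, hc2⟩ := cc_of_real u
    exact hWX c hc1 hc2

/-- the characters in `OddTwoPower` -/
lemma oddTwoPower_of {K : IntermediateField ℚ Qb} {χ : GK K →* ℂˣ} (hχ : OpenKer χ)
    (h2 : TwoPower χ) (hc : ∀ c ∈ CC, ∀ h : c ∈ GK K, χ ⟨c, h⟩ = -1) :
    IsOddTwo K (lin (GK K) χ) := by
  refine ⟨⟨χ, hχ, rfl⟩, ?_, ?_⟩
  · obtain ⟨k, hk⟩ := h2
    refine ⟨k, fun g hg => ?_⟩
    rw [lin_mem χ hg, ← Units.val_pow_eq_pow_val, hk, Units.val_one]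
  · intro c hc1 hc2
    rw [lin_mem χ hc2, hc c hc1 hc2]
    simp

/-- **Defect functions which are trivial over the totally complex fields.** -/
theorem defect_complex (h : IsDefect D) (hc : TrivialComplex D)
    (K : IntermediateField ℚ Qb) (hK : IsNF K) :
    (∀ θ, IsVirt K θ → D K θ = 1 ∨ D K θ = -1) ∧ (∀ θ, IsNotFour K θ → D K θ = 1) ∧
    (∀ f, IsOneDim K f → ∀ f', IsOneDim K f' → f ^ 2 = f' ^ 2 → D K f = D K f') ∧
    ((∀ f, IsOddTwo K f → D K f = 1) → ∀ f, IsOneDim K f → D K f = 1) ∧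
    ((∀ K', IsNF K' → K ≤ K' → ∀ f, IsOddTwo K' f → D K' f = 1) →
      ∀ θ, IsVirt K θ → D K θ = 1) := by
  have hT := TD_TC h hc
  have hKo := GK_open hK
  have hmem : ∀ θ, θ ∈ TD D (GK K) ↔ θ ∈ VC (GK K) ∧ D K θ = 1 := by
    intro θ
    rw [mem_TD h hKo, fixed_GK]
  have _ : T2Space GQ := krullTopology_t2
  obtain ⟨ha1, ha2, ha3⟩ := hT.all hKo
  refine ⟨?_, ?_, ?_, ?_, ?_⟩
  · intro θ hθ
    have h2 := ((hmem _).1 (ha1 θ hθ)).2
    rw [h.add K hK θ hθ θ hθ] at h2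
    have h3 : ((D K θ : ℂˣ) : ℂ) ^ 2 = 1 := by
      rw [sq, ← Units.val_mul, h2, Units.val_one]
    rcases sq_eq_one_iff.1 h3 with h4 | h4
    · exact Or.inl (Units.ext h4)
    · exact Or.inr (Units.ext (by rw [h4]; simp))
  · intro θ hθ
    exact ((hmem θ).1 (ha2 θ hθ)).2
  · intro f hf f' hf' hff'
    have h2 := ((hmem _).1 (ha3 f hf f' hf' hff')).2
    obtain ⟨χ, hχ, rfl⟩ := hf
    obtain ⟨χ', hχ', rfl⟩ := hf'
    have h3 := h.add K hK _ (sub_mem (lin_vc hχ) (lin_vc hχ')) _ (lin_vc hχ')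
    rw [sub_add_cancel, h2, one_mul] at h3
    exact h3
  · rintro hodd _ ⟨χ, hχ, rfl⟩
    refine ((hmem _).1 (hT.lin_real realSet_cc closed_cc (fun ψ hψ hψ2 hψc => ?_) hχ)).2
    rw [hmem]
    exact ⟨lin_vc hψ, hodd _ (oddTwoPower_of hψ hψ2 hψc)⟩
  · intro hodd θ hθ
    have h2 : VC (GK K) ≤ TD D (GK K) := by
      conv_lhs => rw [VC]
      rw [AddSubgroup.closure_le]
      rintro f ⟨n, ρ, hρ, hf⟩
      refine hf.brauer hρ _ fun W hW hWU ψ hψ _ => ?_
      refine TD_ind h _ W hKo hW hWU _ (lin_cl W ψ) ?_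
      refine hT.lin_real realSet_cc closed_cc (fun ψ' hψ' hψ2 hψc => ?_) hψ
      refine TD_lin h hW hψ' fun K' hK' hKW => ?_
      subst hKW
      refine hodd K' hK' ?_ _ (oddTwoPower_of hψ' hψ2 hψc)
      rw [← fixed_GK K, ← fixed_GK K']
      exact fixed_mono hKo hWU
    exact ((hmem _).1 (h2 hθ)).2

end Pool.Agent.N770.SK
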