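import Mathlib

/-!
# Definitions: virtual characters of the Galois groups of number fields, induction, defect functions
-/

set_option autoImplicit false

namespace Pool.Agent.N770.SK

section groups

variable {G : Type} [Group G]

/-- the function on `U` induced from a function `f` on `V`, `V ⊆ U` (functions are extended by zero to
`G`): `(Ind U V f) g = ∑ f (q⁻¹ g q)` where `q` runs over representatives of `U / V` -/
noncomputable def Ind (U V : Subgroup G) (f : G → ℂ) (g : G) : ℂ :=
  ∑ᶠ q : U ⧸ V.subgroupOf U, f (((q.out : U) : G)⁻¹ * g * ((q.out : U) : G))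

/-- one-dimensional characters of `U`, extended by zero -/
noncomputable def lin (U : Subgroup G) (χ : U →* ℂˣ) (g : G) : ℂ :=
  open Classical in if h : g ∈ U then ((χ ⟨g, h⟩ : ℂˣ) : ℂ) else 0

/-- `f` is the trace of the representation `ρ` of `U`, extended by zero -/
def HasTrace {U : Subgroup G} {n : ℕ} (ρ : U →* GL (Fin n) ℂ) (f : G → ℂ) : Prop :=
  (∀ g (h : g ∈ U), f g = Matrix.trace (ρ ⟨g, h⟩ : Matrix (Fin n) (Fin n) ℂ)) ∧ ∀ g, g ∉ U → f g = 0

variable [TopologicalSpace G]

/-- the kernel is an open subgroup of `G` -/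
def OpenKer {V : Subgroup G} {M : Type} [Group M] (χ : V →* M) : Prop :=
  IsOpen ((χ.ker.map V.subtype : Subgroup G) : Set G)

/-- the virtual characters of `U`, extended by zero: the integral combinations of the traces of the
representations of `U` with open kernel -/
def VC (U : Subgroup G) : AddSubgroup (G → ℂ) :=
  AddSubgroup.closure {f | ∃ (n : ℕ) (ρ : U →* GL (Fin n) ℂ), OpenKer ρ ∧ HasTrace ρ f}

/-- `f` is a one-dimensional character of `U` (with open kernel, extended by zero) -/
def OneDim (U : Subgroup G) (f : G → ℂ) : Prop := ∃ χ : U →* ℂˣ, OpenKer χ ∧ f = lin U χ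

/-- `θ` is the character of a representation `ρ` of `U` with open kernel, for which there is an
exponent `e`, not divisible by `4`, such that `ρ(g) ^ e = 1` for all `g` in `U` -/
def NotFour (U : Subgroup G) (θ : G → ℂ) : Prop :=
  ∃ (n : ℕ) (ρ : U →* GL (Fin n) ℂ), OpenKer ρ ∧ HasTrace ρ θ ∧ ∃ e : ℕ, ¬ 4 ∣ e ∧ ∀ g, ρ g ^ e = 1

end groups

/-- the algebraic numbers -/
abbrev Qb : Type := AlgebraicClosure ℚ

/-- the automorphism group of the field of algebraic numbers, with the Krull topology -/
abbrev GQ : Type := Qb ≃ₐ[ℚ] Qb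

/-- the subfields of `Qb` -/
abbrev Sub : Type := IntermediateField ℚ Qb

/-- `c` is the complex conjugation of the embedding `φ` -/
def IsCC (φ : Qb →+* ℂ) (c : GQ) : Prop := ∀ x, φ (c x) = starRingEnd ℂ (φ x)

/-- the complex conjugations -/
def CC : Set GQ := {c | ∃ φ : Qb →+* ℂ, IsCC φ c}

/-- the subgroup `Gal(Qb/K)` of `GQ = Gal(Qb/ℚ)` -/
noncomputable abbrev GK (K : Sub) : Subgroup GQ := K.fixingSubgroup

/-- `K` is a number field -/
def IsNF (K : Sub) : Prop := FiniteDimensional ℚ K

/-- `K` is totally complex: there is no embedding in the real numbers -/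
def TotComplex (K : Sub) : Prop := IsEmpty (K →+* ℝ)

/-- `θ` is a virtual character of `Gal(Qb/K)` -/
def IsVirt (K : Sub) (θ : GQ → ℂ) : Prop := θ ∈ VC (GK K)

/-- `f` is a one-dimensional character of `Gal(Qb/K)` -/
def IsOneDim (K : Sub) (f : GQ → ℂ) : Prop := OneDim (GK K) f

/-- `θ` is the character of a representation `ρ` of `Gal(Qb/K)` such that `ρ(g) ^ e = 1` for all `g`
and an exponent `e` not divisible by `4` -/
def IsNotFour (K : Sub) (θ : GQ → ℂ) : Prop := NotFour (GK K) θ

/-- `f` is a one-dimensional character of `Gal(Qb/K)` with values `1` and `-1` -/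
def IsQuadratic (K : Sub) (f : GQ → ℂ) : Prop := IsOneDim K f ∧ ∀ g ∈ GK K, f g ^ 2 = 1

/-- `f` is a one-dimensional character of `Gal(Qb/K)` of `2`-power order with `f(c) = -1` for all complex
conjugations `c` in `Gal(Qb/K)` -/
def IsOddTwo (K : Sub) (f : GQ → ℂ) : Prop :=
  IsOneDim K f ∧ (∃ k : ℕ, ∀ g ∈ GK K, f g ^ 2 ^ k = 1) ∧ ∀ c ∈ CC, c ∈ GK K → f c = -1

/-- the virtual character of `Gal(Qb/K)` induced from a virtual character of `Gal(Qb/K')` -/
noncomputable def IndK (K K' : Sub) (θ : GQ → ℂ) : GQ → ℂ := Ind (GK K) (GK K') θ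

/-- `θ` is induced from a one-dimensional character `f` of a number field `K' ⊇ K`, where `K'` is totally
complex or `f` has the values `1` and `-1` -/
def Basic (K : Sub) (θ : GQ → ℂ) : Prop :=
  ∃ K', K ≤ K' ∧ IsNF K' ∧ ∃ f, IsOneDim K' f ∧ (TotComplex K' ∨ IsQuadratic K' f) ∧ θ = IndK K K' f

/-- `θ` is an integral combination of characters induced from one-dimensional characters of totally
complex number fields `K' ⊇ K`, and from characters of order at most two of number fields `K' ⊇ K` -/
def InGen (K : Sub) (θ : GQ → ℂ) : Prop := θ ∈ AddSubgroup.closure {f | Basic K f}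

/-- A defect function `D`: it gives a non-zero complex number `D K θ` for every number field `K` in
`Qb` and every virtual character `θ` of `Gal(Qb/K)`. It is multiplicative in `θ`, invariant under
induction, and trivial on the characters of order at most two. -/
structure IsDefect (D : Sub → (GQ → ℂ) → ℂˣ) : Prop where
  add : ∀ K, IsNF K → ∀ θ, IsVirt K θ → ∀ θ', IsVirt K θ' → D K (θ + θ') = D K θ * D K θ'
  ind : ∀ K K', IsNF K' → K ≤ K' → ∀ θ, IsVirt K' θ → D K (IndK K K' θ) = D K' θ
  quad : ∀ K, IsNF K → ∀ f, IsQuadratic K f → D K f = 1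

/-- `D` is trivial on the one-dimensional characters of the totally complex fields -/
def TrivialComplex (D : Sub → (GQ → ℂ) → ℂˣ) : Prop :=
  ∀ K, IsNF K → TotComplex K → ∀ f, IsOneDim K f → D K f = 1

end Pool.Agent.N770.SK
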