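import Pool.Agent.N770.SK.Base

/-!
# One-dimensional characters with the same square up to characters of odd order
-/

set_option autoImplicit false

namespace Pool.Agent.N770.SK

/-- `f ^ (2 m) = f' ^ (2 m)` on `Gal(Qb/K)` for an odd number `m`: the squares of `f` and `f'` are equal up to a
character of odd order -/
def SquaresAgree (K : Sub) (f f' : GQ → ℂ) : Prop :=
  ∃ m : ℕ, Odd m ∧ ∀ g ∈ GK K, f g ^ (2 * m) = f' g ^ (2 * m)

/-- `f ^ (2 m) = 1` on `Gal(Qb/K)` for an odd number `m`: the order of `f` is not divisible by `4` -/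
def OrderNotFour (K : Sub) (f : GQ → ℂ) : Prop :=
  ∃ m : ℕ, Odd m ∧ ∀ g ∈ GK K, f g ^ (2 * m) = 1

/-- there is an embedding of `K` in the real numbers -/
def HasReal (K : Sub) : Prop := Nonempty (K →+* ℝ)

end Pool.Agent.N770.SK
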