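import Pool.Agent.N770.SK.Infl
import Pool.Agent.R389.Del

/-!
# Characters of representations with open kernel
-/

set_option autoImplicit false
set_option linter.unusedSectionVars false

namespace Pool.Agent.N770.SK

open Pool.Agent.R389 Pool.Agent.H302R2 Pool.Agent.H302R3 Pool.Agent.H541R3.ART Pool.Agent.W446.AS

section fin

variable {Δ : Type} [Group Δ] [Finite Δ]

lemma irr_pn_nil [Group.IsNilpotent Δ] {χ : Δ → ℂ} (hχ : χ ∈ Irr Δ) : χ ∈ PN Δ := by
  obtain ⟨K, ψ, rfl⟩ := nil_mono _ Δ rfl inferInstance χ hχ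
  exact AddSubgroup.subset_closure ⟨K, ψ, inferInstance, rfl⟩

lemma virt_pn_nil [Group.IsNilpotent Δ] {f : Δ → ℂ} (hf : Virt f) : f ∈ PN Δ := by
  have h1 : AddSubgroup.closure (Irr Δ) ≤ PN Δ := by
    rw [AddSubgroup.closure_le]
    intro χ hχ
    exact irr_pn_nil hχ
  exact h1 hf

/-- **Brauer's theorem** -/
theorem virt_pn {f : Δ → ℂ} (hf : Virt f) : f ∈ PN Δ := by
  let m : (Δ → ℂ) →+ (Δ → ℂ) := AddMonoidHom.mk' (fun u g => u g * f g) (fun a b => by
    funext g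
    change (a g + b g) * f g = a g * f g + b g * f g
    ring)
  have h1 : PN Δ ≤ (PN Δ).comap m := by
    conv_lhs => rw [PN]
    rw [AddSubgroup.closure_le]
    rintro u ⟨V, ψ, hV, rfl⟩
    rw [SetLike.mem_coe, AddSubgroup.mem_comap]
    have h2 : m (ind V (fun h => ((ψ h : ℂˣ) : ℂ))) = ind V (fun h => f h * ((ψ h : ℂˣ) : ℂ)) := by
      funext g
      change ind V (fun h => ((ψ h : ℂˣ) : ℂ)) g * f g = _
      rw [← ind_mul V _ hf.conj g]
      congr 1
      funext h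
      rw [mul_comm]
    rw [h2]
    refine ind_pn V (virt_pn_nil ?_)
    have h3 : AddSubgroup.closure (Irr V) ≤ (AddSubgroup.closure (Irr V)).comap (twHom ψ) := by
      rw [AddSubgroup.closure_le]
      intro χ hχ
      exact AddSubgroup.subset_closure (irr_twist hχ _)
    exact h3 (Virt.comp hf V.subtype)
  have h2 := h1 (one_mem_pn)
  rw [AddSubgroup.mem_comap] at h2
  have h3 : m (fun _ => 1) = f := by
    funext g
    change 1 * f g = f g
    rw [one_mul]
  rwa [h3] at h2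

/-- the character of a matrix representation -/
lemma char_virt {n : ℕ} (ρ : Δ →* GL (Fin n) ℂ) :
    Virt (fun g => Matrix.trace (ρ g : Matrix (Fin n) (Fin n) ℂ)) := by
  let σ : Representation ℂ Δ (Fin n → ℂ) :=
    { toFun := fun g => Matrix.toLin' (ρ g : Matrix (Fin n) (Fin n) ℂ)
      map_one' := by
        rw [map_one, Units.val_one, Matrix.toLin'_one]
        rfl
      map_mul' := by
        intro a b
        rw [map_mul, Units.val_mul, Matrix.toLin'_mul]
        rfl }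
  have h1 : (fun g => Matrix.trace (ρ g : Matrix (Fin n) (Fin n) ℂ)) = σ.character := by
    funext g
    exact (Matrix.trace_toLin'_eq _).symm
  rw [h1]
  have h2 := char_memP _ σ rfl
  have h3 : AddSubmonoid.closure (Irr Δ) ≤ (AddSubgroup.closure (Irr Δ)).toAddSubmonoid := by
    rw [AddSubmonoid.closure_le]
    exact AddSubgroup.subset_closure
  exact h3 h2

end fin

variable {G : Type} [Group G] [TopologicalSpace G]

variable [IsTopologicalGroup G] [CompactSpace G]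

/-- **Brauer's induction theorem** -/
theorem HasTrace.brauer {U : Subgroup G} {n : ℕ} {ρ : U →* GL (Fin n) ℂ} (hρ : OpenKer ρ)
    {f : G → ℂ} (hf : HasTrace ρ f) (S : AddSubgroup (G → ℂ))
    (hS : ∀ W : Subgroup G, IsOpen (W : Set G) → ∀ hWU : W ≤ U, ∀ ψ : W →* ℂˣ, OpenKer ψ →
      (∀ w (h : w ∈ W), ρ ⟨w, hWU h⟩ = 1 → ψ ⟨w, h⟩ = 1) → Ind U W (lin W ψ) ∈ S) : f ∈ S := by
  classical
  have hU := hρ.isOpen
  let N : Subgroup U := ρ.ker
  have h0 : (ρ.ker.map U.subtype).subgroupOf U = ρ.ker := by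
    ext x
    rw [Subgroup.mem_subgroupOf, mem_kerMap]
    constructor
    · rintro ⟨_, h⟩
      exact h
    · intro h
      exact ⟨x.2, h⟩
  have hfin : Finite (U ⧸ N) := by
    have h1 : Finite (U ⧸ (ρ.ker.map U.subtype).subgroupOf U) := finite_quot hρ
    rwa [h0] at h1
  let ρb : U ⧸ N →* GL (Fin n) ℂ := QuotientGroup.kerLift ρ
  have h1 : f = infl N (fun g => Matrix.trace (ρb g : Matrix (Fin n) (Fin n) ℂ)) := by
    funext g
    by_cases hg : g ∈ U
    · rw [hf.1 g hg, infl_mem _ hg]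
      rfl
    · rw [hf.2 g hg, infl_not _ hg]
  let M : (U ⧸ N → ℂ) →+ (G → ℂ) := AddMonoidHom.mk' (fun f => infl N f) infl_add
  have h2 : PN (U ⧸ N) ≤ S.comap M := by
    rw [PN, AddSubgroup.closure_le]
    rintro _ ⟨V, ψ, hV, rfl⟩
    rw [SetLike.mem_coe, AddSubgroup.mem_comap]
    change infl N (Pool.Agent.R389.ind V (fun h => ((ψ h : ℂˣ) : ℂ))) ∈ S
    rw [infl_ind]
    have hker : ∀ g (h : g ∈ U), ρ ⟨g, h⟩ = 1 → (QuotientGroup.mk (⟨g, h⟩ : U) : U ⧸ N) = 1 :=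
      fun g h h3 => (QuotientGroup.eq_one_iff _).2 h3
    refine hS (WW N V) ?_ (WW_le V) _ ?_ ?_
    · refine open_mono ?_ hρ
      intro g hg
      obtain ⟨h3, h4⟩ := (mem_kerMap ρ g).1 hg
      exact mem_WW.2 ⟨h3, (hker g h3 h4) ▸ V.one_mem⟩
    · refine openKer_of _ hρ ?_
      intro g hg
      obtain ⟨h3, h4⟩ := (mem_kerMap ρ g).1 hg
      have h5 : (QuotientGroup.mk (⟨g, h3⟩ : U) : U ⧸ N) ∈ V := (hker g h3 h4) ▸ V.one_mem
      refine ⟨mem_WW.2 ⟨h3, h5⟩, ?_⟩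
      have h6 : (⟨QuotientGroup.mk (⟨g, h3⟩ : U), h5⟩ : V) = 1 := Subtype.ext (hker g h3 h4)
      change ψ ⟨QuotientGroup.mk (⟨g, h3⟩ : U), h5⟩ = 1
      rw [h6, map_one]
    · intro w hw h3
      obtain ⟨h4, h5⟩ := mem_WW.1 hw
      have h6 : (⟨QuotientGroup.mk (⟨w, h4⟩ : U), h5⟩ : V) = 1 := Subtype.ext (hker w h4 h3)
      change ψ ⟨QuotientGroup.mk (⟨w, h4⟩ : U), h5⟩ = 1
      rw [h6, map_one]
  rw [h1]
  exact h2 (virt_pn (char_virt ρb))

end Pool.Agent.N770.SK
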