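import Pool.Agent.N770.SK.Two

/-!
# Inductive classes of functions and quadratic characters with prescribed signs
-/

set_option autoImplicit false
set_option linter.unusedSectionVars false

namespace Pool.Agent.N770.SK

variable {G : Type} [Group G] [TopologicalSpace G]

lemma mem_kerMap {V : Subgroup G} {M : Type} [Group M] (χ : V →* M) (g : G) :
    g ∈ (χ.ker.map V.subtype : Subgroup G) ↔ ∃ h : g ∈ V, χ ⟨g, h⟩ = 1 := by
  constructor
  · rintro ⟨x, hx, rfl⟩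
    exact ⟨x.2, hx⟩
  · rintro ⟨h, h1⟩
    exact ⟨⟨g, h⟩, h1, rfl⟩

section top

variable [IsTopologicalGroup G]

lemma open_mono {A B : Subgroup G} (h : A ≤ B) (hA : IsOpen (A : Set G)) : IsOpen (B : Set G) :=
  Subgroup.isOpen_mono h hA

lemma OpenKer.isOpen {V : Subgroup G} {M : Type} [Group M] {χ : V →* M} (h : OpenKer χ) :
    IsOpen (V : Set G) := by
  refine open_mono ?_ h
  intro g hg
  exact ((mem_kerMap χ g).1 hg).1

lemma openKer_of {V : Subgroup G} {M : Type} [Group M] (χ : V →* M) {A : Subgroup G}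
    (hA : IsOpen (A : Set G)) (hAV : ∀ g ∈ A, ∃ h : g ∈ V, χ ⟨g, h⟩ = 1) : OpenKer χ :=
  open_mono (fun g hg => (mem_kerMap χ g).2 (hAV g hg)) hA

lemma OpenKer.res {V W : Subgroup G} (hWV : W ≤ V) (hW : IsOpen (W : Set G)) {M : Type} [Group M]
    {χ : V →* M} (h : OpenKer χ) : OpenKer (χ.comp (Subgroup.inclusion hWV)) := by
  refine openKer_of _ (A := W ⊓ χ.ker.map V.subtype) (by
    rw [Subgroup.coe_inf]
    exact hW.inter h) ?_
  intro g hg
  obtain ⟨h1, h2⟩ := (mem_kerMap χ g).1 hg.2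
  exact ⟨hg.1, h2⟩

lemma OpenKer.mul {V : Subgroup G} {M : Type} [CommGroup M] {χ ψ : V →* M} (h : OpenKer χ)
    (h' : OpenKer ψ) : OpenKer (χ * ψ) := by
  refine openKer_of _ (A := χ.ker.map V.subtype ⊓ ψ.ker.map V.subtype) (by
    rw [Subgroup.coe_inf]
    exact h.inter h') ?_
  intro g hg
  obtain ⟨h1, h2⟩ := (mem_kerMap χ g).1 hg.1
  obtain ⟨_, h3⟩ := (mem_kerMap ψ g).1 hg.2
  exact ⟨h1, by rw [MonoidHom.mul_apply, h2, h3, one_mul]⟩

lemma OpenKer.comp {V : Subgroup G} {M M' : Type} [Group M] [Group M'] {χ : V →* M} (h : OpenKer χ)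
    (f : M →* M') : OpenKer (f.comp χ) := by
  refine openKer_of _ h ?_
  intro g hg
  obtain ⟨h1, h2⟩ := (mem_kerMap χ g).1 hg
  exact ⟨h1, by rw [MonoidHom.comp_apply, h2, map_one]⟩

lemma openKer_one {V : Subgroup G} (hV : IsOpen (V : Set G)) {M : Type} [Group M] :
    OpenKer (1 : V →* M) :=
  openKer_of _ hV fun _ hg => ⟨hg, rfl⟩

lemma finite_quot [CompactSpace G] {V W : Subgroup G} (hW : IsOpen (W : Set G)) :
    Finite (V ⧸ W.subgroupOf V) := by
  have h1 : Finite (G ⧸ W) := W.quotient_finite_of_isOpen hW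
  have h2 : W.FiniteIndex := Subgroup.finiteIndex_of_finite_quotient
  exact Subgroup.finite_quotient_of_finiteIndex

end top

/-- inclusion of the signs in the complex numbers -/
def qc : ℤˣ →* ℂˣ := Units.map (Int.castRingHom ℂ).toMonoidHom

lemma qc_val (x : ℤˣ) : ((qc x : ℂˣ) : ℂ) = ((x : ℤ) : ℂ) := rfl

/-- quadratic characters, extended by zero -/
noncomputable def lq (V : Subgroup G) (ε : V →* ℤˣ) : G → ℂ := lin V (qc.comp ε)

/-- a set of involutions which are their own centralizers, such that there are characters of order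
two with all possible signs -/
structure RealSet (X : Set G) : Prop where
  sq : ∀ c ∈ X, c * c = 1
  conj : ∀ c ∈ X, ∀ g : G, g * c * g⁻¹ ∈ X
  cent : ∀ c ∈ X, ∀ g : G, g * c = c * g → g = 1 ∨ g = c
  sign : ∀ V : Subgroup G, IsOpen (V : Set G) → ∀ s : G → Prop,
    (∀ c ∈ X, c ∈ V → ∀ v ∈ V, s c → s (v * c * v⁻¹)) →
    ∃ α : V →* ℤˣ, OpenKer α ∧ ∀ c ∈ X, ∀ h : c ∈ V, (α ⟨c, h⟩ = -1 ↔ s c)

/-- a class of functions on the open subgroups of `U` which is closed under induction and contains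
the linear characters of the subgroups which do not meet `X` -/
structure IC (X : Set G) (U : Subgroup G) (T : Subgroup G → AddSubgroup (G → ℂ)) : Prop where
  ind : ∀ V W : Subgroup G, IsOpen (V : Set G) → V ≤ U → IsOpen (W : Set G) → W ≤ V →
    ∀ f, Cl W f → f ∈ T W → Ind V W f ∈ T V
  cpx : ∀ W : Subgroup G, IsOpen (W : Set G) → W ≤ U → (∀ c ∈ X, c ∉ W) → ∀ ψ : W →* ℂˣ,
    OpenKer ψ → lin W ψ ∈ T W

variable [IsTopologicalGroup G]
variable {X : Set G} {U : Subgroup G} {T : Subgroup G → AddSubgroup (G → ℂ)}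

/-- twisted permutation characters without real points -/
lemma IC.perm (h : IC X U T) {V : Subgroup G} (hV : IsOpen (V : Set G)) (hVU : V ≤ U) (Y : Type)
    [MulAction V Y] [Finite Y] (hst : ∀ y : Y, IsOpen (stab V y : Set G))
    (hfree : ∀ c ∈ X, ∀ hc : c ∈ V, ∀ y : Y, (⟨c, hc⟩ : V) • y ≠ y) (ψ : V →* ℂˣ) (hψ : OpenKer ψ) :
    pi V Y * lin V ψ ∈ T V := by
  classical
  let _ : Fintype Y := Fintype.ofFinite Y
  let _ : Fintype (MulAction.orbitRel.Quotient V Y) := Fintype.ofFinite _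
  rw [pi_mul V Y ψ]
  refine sum_mem fun ω _ => h.ind V _ hV hVU (hst _) (stab_le V _) _ (lin_cl _ _) ?_
  refine h.cpx _ (hst _) ((stab_le V _).trans hVU) ?_ _ (hψ.res (stab_le V _) (hst _))
  intro c hc hcs
  have hcV := stab_le V _ hcs
  exact hfree c hc hcV _ ((mem_stab ⟨c, hcV⟩).1 hcs)

lemma lq_val {V : Subgroup G} (ε : V →* ℤˣ) {g : G} (h : g ∈ V) : lq V ε g = ((ε ⟨g, h⟩ : ℤˣ) : ℤ) := by
  rw [lq, lin_mem _ h]
  rfl

/-- totally odd quadratic characters -/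
lemma IC.odd (h : IC X U T) {V : Subgroup G} (hVU : V ≤ U) {δ : V →* ℤˣ} (hδ : OpenKer δ)
    (hodd : ∀ c ∈ X, ∀ hc : c ∈ V, δ ⟨c, hc⟩ = -1) (ψ : V →* ℂˣ) (hψ : OpenKer ψ) :
    lin V ψ + lin V (ψ * qc.comp δ) ∈ T V := by
  classical
  let _ : MulAction V ℤˣ := MulAction.compHom ℤˣ δ
  have hsm : ∀ (g : V) (y : ℤˣ), g • y = δ g * y := fun _ _ => rfl
  have h1 := h.perm hδ.isOpen hVU ℤˣ (fun y => by
    refine open_mono ?_ hδ
    intro g hg
    obtain ⟨h2, h3⟩ := (mem_kerMap δ g).1 hg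
    refine (mem_stab ⟨g, h2⟩).2 ?_
    rw [hsm, h3, one_mul]) (fun c hc hcV y hy => by
      rw [hsm, hodd c hc hcV] at hy
      have := mul_eq_right.1 hy
      exact absurd this (by decide)) ψ hψ
  have h2 : pi V ℤˣ * lin V ψ = lin V ψ + lin V (ψ * qc.comp δ) := by
    funext g
    rw [Pi.mul_apply, Pi.add_apply]
    by_cases hg : g ∈ V
    · rw [lin_mul, Pi.mul_apply, pi, dif_pos hg]
      have h3 : (Nat.card {y : ℤˣ // (⟨g, hg⟩ : V) • y = y} : ℂ) = 1 + lin V (qc.comp δ) g := by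
        have h4 : lin V (qc.comp δ) g = ((δ ⟨g, hg⟩ : ℤˣ) : ℤ) := lq_val δ hg
        rw [h4]
        have h5 : Nat.card {y : ℤˣ // (⟨g, hg⟩ : V) • y = y} = Nat.card {y : ℤˣ // δ ⟨g, hg⟩ * y = y} := rfl
        have h6 : ∀ x : ℤˣ, (Fintype.card {y : ℤˣ // x * y = y} : ℤ) = 1 + x := by decide
        rw [h5, Nat.card_eq_fintype_card]
        have h7 := congrArg (Int.cast : ℤ → ℂ) (h6 (δ ⟨g, hg⟩))
        push_cast at h7
        rw [← h7]
      rw [h3]
      ring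
    · rw [lin_not _ hg, lin_not _ hg, mul_zero, zero_add]
  rwa [h2] at h1

/-- totally even quadratic characters -/
lemma IC.even (h : IC X U T) (hX : RealSet X) {V : Subgroup G} (hVU : V ≤ U) {μ : V →* ℤˣ}
    (hμ : OpenKer μ) (heven : ∀ c ∈ X, ∀ hc : c ∈ V, μ ⟨c, hc⟩ = 1) (ψ : V →* ℂˣ)
    (hψ : OpenKer ψ) : lin V (ψ * qc.comp μ) - lin V ψ ∈ T V := by
  obtain ⟨δ, hδ, hodd⟩ := hX.sign V hμ.isOpen (fun _ => True) (fun _ _ _ _ _ _ => trivial)
  have h1 := h.odd hVU hδ (fun c hc hcV => (hodd c hc hcV).2 trivial) (ψ * qc.comp μ)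
    (hψ.mul (hμ.comp qc))
  have h2 := h.odd hVU (hμ.mul hδ) (fun c hc hcV => by
    rw [MonoidHom.mul_apply, heven c hc hcV, (hodd c hc hcV).2 trivial, one_mul]) ψ hψ
  have h3 : ψ * qc.comp μ * qc.comp δ = ψ * qc.comp (μ * δ) := by
    ext v
    simp [mul_assoc]
  rw [h3] at h1
  have h4 : lin V (ψ * qc.comp μ) - lin V ψ = (lin V (ψ * qc.comp μ) + lin V (ψ * qc.comp (μ * δ))) -
      (lin V ψ + lin V (ψ * qc.comp (μ * δ))) := by abel
  rw [h4]
  exact sub_mem h1 h2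

end Pool.Agent.N770.SK
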