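import Pool.Agent.N770.SK.Sharp3

/-!
# The one-dimensional characters in the smallest class
-/

set_option autoImplicit false
set_option linter.unusedSectionVars false

namespace Pool.Agent.N770.SK

open IntermediateField

section classes

variable {G : Type} [Group G] [TopologicalSpace G] [IsTopologicalGroup G] [CompactSpace G]
variable {X : Set G} {U : Subgroup G} {T : Subgroup G → AddSubgroup (G → ℂ)}

/-- **Characters with the same `2 m`-th power, `m` odd.** -/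
theorem TC.lin_pow [T2Space G] [TotallyDisconnectedSpace G] (hX : RealSet X) (hXc : IsClosed X) (h : TC X T)
    {χ χ' : U →* ℂˣ} (hχ : OpenKer χ) (hχ' : OpenKer χ') {m : ℕ} (hm : Odd m)
    (hp : ∀ u, χ u ^ (2 * m) = χ' u ^ (2 * m)) : lin U χ - lin U χ' ∈ T U := by
  obtain ⟨t, ht⟩ := hm
  let ρ : U →* ℂˣ := χ * χ'⁻¹
  have hρo : OpenKer ρ := by
    refine hχ.mul (openKer_of _ hχ' ?_)
    intro g hg
    obtain ⟨h1, h2⟩ := (mem_kerMap χ' g).1 hg
    refine ⟨h1, ?_⟩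
    rw [MonoidHom.inv_apply, h2, inv_one]
  have hρ : ∀ u, ρ u ^ (2 * m) = 1 := by
    intro u
    change (χ u * (χ' u)⁻¹) ^ (2 * m) = 1
    rw [mul_pow, inv_pow, hp, mul_inv_cancel]
  let η : U →* ℂˣ := (zpowGroupHom (m : ℤ)).comp ρ
  let κ : U →* ℂˣ := (zpowGroupHom (-(2 * t : ℤ))).comp ρ
  have hη : ∀ u, η u ^ 2 = 1 := by
    intro u
    change (ρ u ^ (m : ℤ)) ^ 2 = 1
    rw [zpow_natCast, ← pow_mul, mul_comm, hρ]
  have hκ : ∀ u, κ u ^ m = 1 := by
    intro u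
    change (ρ u ^ (-(2 * t : ℤ))) ^ m = 1
    rw [← zpow_natCast, ← zpow_mul]
    have h1 : -(2 * t : ℤ) * (m : ℤ) = ((2 * m : ℕ) : ℤ) * (-(t : ℤ)) := by push_cast; ring
    rw [h1, zpow_mul, zpow_natCast, hρ, one_zpow]
  obtain ⟨ε, hε, hε2⟩ := exists_sign_char (χ := η) (hρo.comp _) hη
  have h0 : χ = χ' * qc.comp ε * κ := by
    rw [← hε2]
    apply MonoidHom.ext
    intro u
    change χ u = χ' u * (ρ u ^ (m : ℤ)) * (ρ u ^ (-(2 * t : ℤ)))
    rw [mul_assoc, ← zpow_add, ht]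
    push_cast
    have h1 : (2 * (t : ℤ) + 1 + -(2 * (t : ℤ))) = 1 := by ring
    rw [h1, zpow_one]
    change χ u = χ' u * (χ u * (χ' u)⁻¹)
    rw [mul_comm (χ u), mul_inv_cancel_left]
  have hκo : OpenKer κ := hρo.comp _
  have h1 := h.odd hX hXc (hχ'.mul (hε.comp qc)) hκo m ⟨t, ht⟩ hκ
  have h2 := h.lin_twist hX hXc hχ' hε
  have h3 := add_mem h1 h2
  rw [← h0] at h3
  rwa [sub_add_sub_cancel] at h3

end classes

/-- the basic characters are even -/
lemma basic_even {K : Sub} {c : GQ} (hc : c ∈ CC) (hcK : c ∈ GK K) {θ : GQ → ℂ}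
    (h : Basic K θ) : EvenAt (GK K) ⟨c, hcK⟩ θ := by
  obtain ⟨K', hKK', hK', f, ⟨χ, hχ, rfl⟩, hor, rfl⟩ := h
  have hWV : GK K' ≤ GK K := IntermediateField.fixingSubgroup_le hKK'
  refine EvenAt.ind hWV hχ ?_
  rcases hor with h | h
  · left
    intro x _ hx
    have h1 : x⁻¹ * c * x⁻¹⁻¹ ∈ CC := realSet_cc.conj c hc x⁻¹
    rw [inv_inv] at h1
    obtain ⟨φ, hφ⟩ := h1
    have h2 : ∀ y ∈ K', (φ y).im = 0 := by
      intro y hy
      rw [← real_iff hφ]
      exact (IntermediateField.mem_fixingSubgroup_iff _ _).1 hx y hy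
    exact h.elim (realEmb K' φ h2)
  · right
    intro u
    have h1 := h.2 u u.2
    rw [lin_mem χ u.2, ← Units.val_pow_eq_pow_val] at h1
    exact Units.ext h1

/-- **The one-dimensional characters in the smallest class.** -/
theorem inGen_sub_iff {K : Sub} (hK : IsNF K) (hreal : Nonempty (K →+* ℝ)) {f f' : GQ → ℂ}
    (hf : IsOneDim K f) (hf' : IsOneDim K f') :
    InGen K (f - f') ↔ ∃ m : ℕ, Odd m ∧ ∀ g ∈ GK K, f g ^ (2 * m) = f' g ^ (2 * m) := by
  have _ : T2Space GQ := krullTopology_t2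
  obtain ⟨u⟩ := hreal
  obtain ⟨c, hc, hcK⟩ := cc_of_real u
  obtain ⟨χ, hχ, rfl⟩ := hf
  obtain ⟨χ', hχ', rfl⟩ := hf'
  constructor
  · intro h
    have h1 : ∀ θ, InGen K θ → EvenAt (GK K) ⟨c, hcK⟩ θ := by
      intro θ hθ
      rw [InGen] at hθ
      induction hθ using AddSubgroup.closure_induction with
      | mem f hf => exact basic_even hc hcK hf
      | zero => exact EvenAt.zero
      | add a b _ _ ha hb => exact ha.add hb
      | neg a _ ha => exact ha.neg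
    obtain ⟨m, hm, h2⟩ := (h1 _ h).pow (Subtype.ext (realSet_cc.sq c hc)) hχ hχ'
    refine ⟨m, hm, fun g hg => ?_⟩
    rw [lin_mem χ hg, lin_mem χ' hg, ← Units.val_pow_eq_pow_val, ← Units.val_pow_eq_pow_val, h2]
  · rintro ⟨m, hm, h⟩
    have h1 := Gen_TC.lin_pow (U := GK K) realSet_cc closed_cc hχ hχ' hm (fun u => by
      have h2 := h u u.2
      rw [lin_mem χ u.2, lin_mem χ' u.2, ← Units.val_pow_eq_pow_val, ← Units.val_pow_eq_pow_val] at h2
      exact Units.ext h2)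
    rw [fixed_GK] at h1
    exact h1

/-- **The one-dimensional characters in the smallest class.** -/
theorem inGen_iff {K : Sub} (hK : IsNF K) (hreal : Nonempty (K →+* ℝ)) {f : GQ → ℂ}
    (hf : IsOneDim K f) : InGen K f ↔ ∃ m : ℕ, Odd m ∧ ∀ g ∈ GK K, f g ^ (2 * m) = 1 := by
  have hKo := GK_open hK
  have h1 : IsOneDim K (lin (GK K) 1) := ⟨1, openKer_one hKo, rfl⟩
  have h2 : InGen K (lin (GK K) 1) := by
    refine AddSubgroup.subset_closure ⟨K, le_rfl, hK, lin (GK K) 1, h1, Or.inr ⟨h1, fun g hg => ?_⟩, ?_⟩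
    · rw [lin_mem 1 hg]
      simp
    · exact (Ind_self _ (lin_cl _ _)).symm
  have h3 : InGen K f ↔ InGen K (f - lin (GK K) 1) := by
    constructor
    · intro h
      exact sub_mem h h2
    · intro h
      have h4 := add_mem h h2
      rwa [sub_add_cancel] at h4
  rw [h3, inGen_sub_iff hK hreal hf h1]
  refine exists_congr fun m => and_congr Iff.rfl (forall₂_congr fun g hg => ?_)
  rw [lin_mem 1 hg]
  simp

/-- defect functions -/
theorem defect_pow {D : Sub → (GQ → ℂ) → ℂˣ} (h : IsDefect D) (hc : TrivialComplex D) {K : Sub} (hK : IsNF K)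
    {f f' : GQ → ℂ} (hf : IsOneDim K f) (hf' : IsOneDim K f') {m : ℕ} (hm : Odd m)
    (hp : ∀ g ∈ GK K, f g ^ (2 * m) = f' g ^ (2 * m)) : D K f = D K f' := by
  have _ : T2Space GQ := krullTopology_t2
  obtain ⟨χ, hχ, rfl⟩ := hf
  obtain ⟨χ', hχ', rfl⟩ := hf'
  have h1 := (TD_TC h hc).lin_pow (U := GK K) realSet_cc closed_cc hχ hχ' hm (fun u => by
    have h2 := hp u u.2
    rw [lin_mem χ u.2, lin_mem χ' u.2, ← Units.val_pow_eq_pow_val, ← Units.val_pow_eq_pow_val] at h2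
    exact Units.ext h2)
  have h2 := ((mem_TD h (GK_open hK)).1 h1).2
  rw [fixed_GK] at h2
  have h3 := h.add K hK _ (sub_mem (lin_vc hχ) (lin_vc hχ')) _ (lin_vc hχ')
  rw [sub_add_cancel, h2, one_mul] at h3
  exact h3

end Pool.Agent.N770.SK
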