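import Pool.Agent.N770.SK.Base2
import Pool.Agent.N770.SK.Sharp4

/-!
# The reduction, final form
-/

set_option autoImplicit false

namespace Pool.Agent.N770.SK

/-- **The induction theorem.** -/
theorem gen_all' (K : IntermediateField ℚ Qb) (hK : IsNF K) :
    (∀ θ, IsVirt K θ → InGen K (θ + θ)) ∧ (∀ θ, IsNotFour K θ → InGen K θ) ∧
    (HasReal K → (∀ f, IsOneDim K f → (InGen K f ↔ OrderNotFour K f)) ∧
      ∀ f, IsOneDim K f → ∀ f', IsOneDim K f' → (InGen K (f - f') ↔ SquaresAgree K f f')) := by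
  obtain ⟨h1, h2, -⟩ := gen_all K hK
  exact ⟨h1, h2, fun hr => ⟨fun f hf => inGen_iff hK hr hf, fun f hf f' hf' => inGen_sub_iff hK hr hf hf'⟩⟩

/-- **Defect functions which are trivial over the totally complex fields.** -/
theorem defect_complex' {D : IntermediateField ℚ Qb → (GQ → ℂ) → ℂˣ} (h : IsDefect D) (hc : TrivialComplex D)
    (K : IntermediateField ℚ Qb) (hK : IsNF K) :
    (∀ θ, IsVirt K θ → D K θ = 1 ∨ D K θ = -1) ∧ (∀ θ, IsNotFour K θ → D K θ = 1) ∧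
    (∀ f, IsOneDim K f → ∀ f', IsOneDim K f' → SquaresAgree K f f' → D K f = D K f') ∧
    ((∀ f, IsOddTwo K f → D K f = 1) → ∀ f, IsOneDim K f → D K f = 1) ∧
    ((∀ K', IsNF K' → K ≤ K' → ∀ f, IsOddTwo K' f → D K' f = 1) →
      ∀ θ, IsVirt K θ → D K θ = 1) := by
  obtain ⟨h1, h2, -, h4, h5⟩ := defect_complex h hc K hK
  refine ⟨h1, h2, ?_, h4, h5⟩
  rintro f hf f' hf' ⟨m, hm, hp⟩
  exact defect_pow h hc hK hf hf' hm hp

end Pool.Agent.N770.SK
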