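import Pool.Agent.N770.SK.Lin
import Pool.Agent.N19.BR.Real

/-!
# Complex conjugations in the absolute Galois group of the rational numbers
-/

set_option autoImplicit false

namespace Pool.Agent.N770.SK

instance : Algebra.IsAlgebraic ℚ Qb := by
  have h : (DivisionRing.toRatAlgebra : Algebra ℚ (AlgebraicClosure ℚ)) =
      AlgebraicClosure.instAlgebra ℚ := Subsingleton.elim _ _
  change @Algebra.IsAlgebraic ℚ (AlgebraicClosure ℚ) _ _ DivisionRing.toRatAlgebra
  rw [h]
  exact AlgebraicClosure.isAlgebraic ℚ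

instance : IsAlgClosure ℚ Qb := ⟨inferInstance, inferInstance⟩

lemma phi_rat (φ : Qb →+* ℂ) (q : ℚ) : φ (q : Qb) = q := map_ratCast φ q

lemma exists_sqrt (x : Qb) : ∃ y : Qb, y ^ 2 = x := IsAlgClosed.exists_pow_nat_eq x (by norm_num)

/-- all embeddings are conjugate -/
lemma exists_gal (φ φ' : Qb →+* ℂ) : ∃ γ : GQ, ∀ x, φ' x = φ (γ x) := by
  let _ : Algebra Qb ℂ := φ.toAlgebra
  have _ : IsScalarTower ℚ Qb ℂ := IsScalarTower.of_algebraMap_eq (fun q => by
    rw [eq_ratCast, eq_ratCast]
    exact (phi_rat φ q).symm)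
  let ψ : Qb →ₐ[ℚ] ℂ := φ'.toRatAlgHom
  refine ⟨AlgHom.restrictNormal' ψ Qb, fun x => ?_⟩
  exact (AlgHom.restrictNormal_commutes ψ Qb x).symm

/-- the real elements -/
lemma real_iff {φ : Qb →+* ℂ} {c : GQ} (h : IsCC φ c) (x : Qb) : c x = x ↔ (φ x).im = 0 := by
  rw [← Complex.conj_eq_iff_im, ← h x]
  exact (φ.injective.eq_iff).symm

lemma cc_sq {φ : Qb →+* ℂ} {c : GQ} (h : IsCC φ c) (x : Qb) : c (c x) = x := by
  apply φ.injective
  rw [h, h, Complex.conj_conj]

/-- an automorphism commuting with `c` preserves the order of the real elements -/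
lemma cent_le {φ : Qb →+* ℂ} {c g : GQ} (h : IsCC φ c) (hg : ∀ x, g (c x) = c (g x)) {x : Qb}
    (hx : c x = x) : (φ x).re ≤ (φ (g x)).re := by
  have hgx : c (g x) = g x := by rw [← hg, hx]
  by_contra hlt
  push Not at hlt
  obtain ⟨q, hq1, hq2⟩ := exists_rat_btwn hlt
  obtain ⟨y, hy⟩ := exists_sqrt (x - (q : Qb))
  -- `y` is real
  have him : (φ x).im = 0 := (real_iff h x).1 hx
  have hval : φ y ^ 2 = (((φ x).re - q : ℝ) : ℂ) := by
    rw [← map_pow, hy, map_sub, phi_rat]
    apply Complex.ext
    · simp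
    · simp [him]
  have hyim : (φ y).im = 0 := by
    have h1 := congrArg Complex.re hval
    have h2 := congrArg Complex.im hval
    rw [sq, Complex.mul_re, Complex.ofReal_re] at h1
    rw [sq, Complex.mul_im, Complex.ofReal_im] at h2
    by_contra hne
    have h3 : (φ y).re = 0 := by
      have h4 : 2 * (φ y).re * (φ y).im = 0 := by linarith
      rcases mul_eq_zero.1 h4 with h5 | h5
      · linarith
      · exact absurd h5 hne
    rw [h3] at h1
    nlinarith [mul_self_nonneg (φ y).im]
  have hyc : c y = y := (real_iff h y).2 hyim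
  have hgyc : c (g y) = g y := by rw [← hg, hyc]
  have hgyim : (φ (g y)).im = 0 := (real_iff h (g y)).1 hgyc
  have h5 : φ (g y) ^ 2 = φ (g x) - q := by
    rw [← map_pow, ← map_pow, hy, map_sub, map_sub, map_ratCast, phi_rat]
  have h6 := congrArg Complex.re h5
  rw [sq, Complex.mul_re, hgyim, mul_zero, sub_zero, Complex.sub_re] at h6
  have h7 : ((q : ℂ)).re = (q : ℝ) := by simp
  rw [h7] at h6
  nlinarith [mul_self_nonneg (φ (g y)).re]

lemma cent_real {φ : Qb →+* ℂ} {c g : GQ} (h : IsCC φ c) (hg : ∀ x, g (c x) = c (g x)) {x : Qb}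
    (hx : c x = x) : g x = x := by
  have hgx : c (g x) = g x := by rw [← hg, hx]
  have h1 := cent_le h hg hx
  have h2 := cent_le h hg (x := -x) (by rw [map_neg, hx])
  rw [map_neg, map_neg, map_neg, Complex.neg_re, Complex.neg_re] at h2
  apply φ.injective
  apply Complex.ext
  · linarith
  · rw [(real_iff h x).1 hx, (real_iff h (g x)).1 hgx]

/-- **The centralizer of a complex conjugation.** -/
theorem cent_cc {φ : Qb →+* ℂ} {c g : GQ} (h : IsCC φ c) (hgc : g * c = c * g) : g = 1 ∨ g = c := by
  have hg : ∀ x, g (c x) = c (g x) := fun x => DFunLike.congr_fun hgc x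
  obtain ⟨i, hi⟩ := exists_sqrt (-1)
  have hi0 : i ≠ 0 := by
    rintro rfl
    norm_num at hi
  have hφi : φ i ^ 2 = -1 := by rw [← map_pow, hi, map_neg, map_one]
  have hci : c i = -i := by
    apply φ.injective
    rw [h i, map_neg]
    have h1 : (φ i - Complex.I) * (φ i + Complex.I) = 0 := by
      have : (φ i - Complex.I) * (φ i + Complex.I) = φ i ^ 2 - Complex.I ^ 2 := by ring
      rw [this, hφi, Complex.I_sq, sub_self]
    rcases mul_eq_zero.1 h1 with h2 | h2
    · rw [sub_eq_zero.1 h2, Complex.conj_I]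
    · rw [eq_neg_of_add_eq_zero_left h2, map_neg, Complex.conj_I]
  have hdec : ∀ x : Qb, ∃ a b : Qb, c a = a ∧ c b = b ∧ x = a + b * i := by
    intro x
    have h2 : (2 : Qb) ≠ 0 := two_ne_zero
    have hc2 : c (2 : Qb) = 2 := map_ofNat c 2
    refine ⟨(x + c x) / 2, (x - c x) / (2 * i), ?_, ?_, ?_⟩
    · rw [map_div₀, map_add, cc_sq h, hc2, add_comm]
    · rw [map_div₀, map_sub, cc_sq h, map_mul, hc2, hci]
      field_simp
      ring
    · field_simp
      ring
  have hgi : g i = i ∨ g i = -i := by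
    have h1 : (g i - i) * (g i + i) = 0 := by
      have : (g i - i) * (g i + i) = g i ^ 2 - i ^ 2 := by ring
      rw [this, ← map_pow, hi, map_neg, map_one, sub_self]
    rcases mul_eq_zero.1 h1 with h2 | h2
    · exact Or.inl (sub_eq_zero.1 h2)
    · exact Or.inr (eq_neg_of_add_eq_zero_left h2)
  rcases hgi with h1 | h1
  · left
    apply AlgEquiv.ext
    intro x
    obtain ⟨a, b, ha, hb, rfl⟩ := hdec x
    rw [map_add, map_mul, cent_real h hg ha, cent_real h hg hb, h1]
    rfl
  · right
    apply AlgEquiv.ext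
    intro x
    obtain ⟨a, b, ha, hb, rfl⟩ := hdec x
    rw [map_add, map_mul, cent_real h hg ha, cent_real h hg hb, h1, map_add, map_mul, ha, hb, hci]

/-- every embedding has a complex conjugation -/
lemma exists_cc (φ : Qb →+* ℂ) : ∃ c : GQ, IsCC φ c := by
  obtain ⟨γ, hγ⟩ := exists_gal φ ((starRingEnd ℂ).comp φ)
  exact ⟨γ, fun x => (hγ x).symm⟩

lemma cc_conj {φ φ' : Qb →+* ℂ} {c c' γ : GQ} (h : IsCC φ c) (h' : IsCC φ' c')
    (hγ : ∀ x, φ' x = φ (γ x)) : c' = γ⁻¹ * c * γ := by
  have h1 : γ * c' = c * γ := by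
    apply AlgEquiv.ext
    intro x
    apply φ.injective
    change φ (γ (c' x)) = φ (c (γ x))
    rw [← hγ, h' x, h (γ x), hγ]
  rw [mul_assoc, ← h1, ← mul_assoc, inv_mul_cancel, one_mul]

lemma closed_cc : IsClosed CC := by
  obtain ⟨φ₀⟩ : Nonempty (Qb →+* ℂ) := ⟨(IsAlgClosed.lift : Qb →ₐ[ℚ] ℂ).toRingHom⟩
  obtain ⟨c₀, hc₀⟩ := exists_cc φ₀
  have h1 : CC = Set.range (fun γ : GQ => γ⁻¹ * c₀ * γ) := by
    ext c
    constructor
    · rintro ⟨φ, hφ⟩
      obtain ⟨γ, hγ⟩ := exists_gal φ₀ φ
      exact ⟨γ, (cc_conj hc₀ hφ hγ).symm⟩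
    · rintro ⟨γ, rfl⟩
      refine ⟨φ₀.comp (γ : Qb →+* Qb), fun x => ?_⟩
      change φ₀ (γ (γ⁻¹ (c₀ (γ x)))) = starRingEnd ℂ (φ₀ (γ x))
      rw [← hc₀]
      congr 1
      exact DFunLike.congr_fun (mul_inv_cancel γ) _
  rw [h1]
  have h2 : Continuous (fun γ : GQ => γ⁻¹ * c₀ * γ) := by fun_prop
  have _ : T2Space GQ := krullTopology_t2
  exact (isCompact_range h2).isClosed

/-- the real embedding of `K` given by an embedding of `Qb` which is real on `K` -/
noncomputable def realEmb (K : IntermediateField ℚ Qb) (φ : Qb →+* ℂ) (h : ∀ x ∈ K, (φ x).im = 0) :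
    K →+* ℝ where
  toFun x := (φ x).re
  map_one' := by simp
  map_zero' := by simp
  map_add' x y := by simp
  map_mul' x y := by
    have h1 := h x x.2
    simp [h1]

lemma realEmb_apply (K : IntermediateField ℚ Qb) (φ : Qb →+* ℂ) (h : ∀ x ∈ K, (φ x).im = 0) (x : K) :
    ((realEmb K φ h x : ℝ) : ℂ) = φ x := by
  apply Complex.ext
  · rfl
  · rw [Complex.ofReal_im, h x x.2]

/-- elements with prescribed signs -/
lemma exists_signs_real (F : Type) [Field F] [NumberField F] (S : Set (F →+* ℝ)) :
    ∃ a : F, a ≠ 0 ∧ ∀ u : F →+* ℝ, u a < 0 ↔ u ∈ S := by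
  classical
  have hfin : Finite (F →+* ℝ) := Pool.Agent.N19.BR.finite_real F
  let _ : Fintype (F →+* ℝ) := Fintype.ofFinite _
  choose a ha ha' using fun u : F →+* ℝ => Pool.Agent.N19.BR.exists_sign F u
  let b : F := ∏ u ∈ Finset.univ.filter (fun u => u ∈ S), (- a u)
  have h1 : ∀ (u : F →+* ℝ) (s : Finset (F →+* ℝ)), (u ∉ s → 0 < u (∏ w ∈ s, (- a w))) ∧
      (u ∈ s → u (∏ w ∈ s, (- a w)) < 0) := by
    intro u s
    induction s using Finset.induction_on with
    | empty => simp
    | insert w s hw ih =>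
      rw [Finset.prod_insert hw, map_mul]
      constructor
      · intro h
        rw [Finset.mem_insert, not_or] at h
        have h2 := ih.1 h.2
        have h3 : 0 < u (- a w) := by
          rw [map_neg]
          have := ha' w u h.1
          linarith
        positivity
      · intro h
        by_cases huw : u = w
        · subst huw
          have h2 := ih.1 hw
          have h3 : u (- a u) < 0 := by
            rw [map_neg]
            have := ha u
            linarith
          nlinarith
        · have h2 := ih.2 ((Finset.mem_insert.1 h).resolve_left huw)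
          have h3 : 0 < u (- a w) := by
            rw [map_neg]
            have := ha' w u huw
            linarith
          nlinarith
  refine ⟨b, ?_, fun u => ?_⟩
  · intro hb
    by_cases hne : Nonempty (F →+* ℝ)
    · obtain ⟨u⟩ := hne
      by_cases hu : u ∈ Finset.univ.filter (fun u => u ∈ S)
      · have := (h1 u _).2 hu
        change u b < 0 at this
        rw [hb, map_zero] at this
        exact lt_irrefl _ this
      · have := (h1 u _).1 hu
        change 0 < u b at this
        rw [hb, map_zero] at this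
        exact lt_irrefl _ this
    · have h2 : Finset.univ.filter (fun u : F →+* ℝ => u ∈ S) = ∅ := by
        ext u
        exact absurd ⟨u⟩ hne
      have h3 : b = 1 := by
        change ∏ u ∈ Finset.univ.filter (fun u => u ∈ S), (- a u) = 1
        rw [h2, Finset.prod_empty]
      rw [h3] at hb
      exact one_ne_zero hb
  · constructor
    · intro h
      by_contra hu
      have := (h1 u (Finset.univ.filter (fun u => u ∈ S))).1 (by simpa using hu)
      change 0 < u b at this
      linarith
    · intro h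
      exact (h1 u (Finset.univ.filter (fun u => u ∈ S))).2 (by simpa using h)

/-- open subgroups and number fields -/
lemma fixing_fixed {V : Subgroup GQ} (hV : IsOpen (V : Set GQ)) :
    (IntermediateField.fixedField V).fixingSubgroup = V :=
  InfiniteGalois.fixingSubgroup_fixedField ⟨V, V.isClosed_of_isOpen hV⟩

lemma finite_fixed {V : Subgroup GQ} (hV : IsOpen (V : Set GQ)) :
    FiniteDimensional ℚ (IntermediateField.fixedField V) := by
  rw [← InfiniteGalois.isOpen_iff_finite]
  change IsOpen ((IntermediateField.fixedField V).fixingSubgroup : Set GQ)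
  rw [fixing_fixed hV]
  exact hV

/-- **The set of complex conjugations.** -/
theorem realSet_cc : RealSet CC := by
  refine ⟨?_, ?_, ?_, ?_⟩
  · rintro c ⟨φ, hφ⟩
    apply AlgEquiv.ext
    intro x
    exact cc_sq hφ x
  · rintro c ⟨φ, hφ⟩ g
    refine ⟨φ.comp ((g⁻¹ : GQ) : Qb →+* Qb), fun x => ?_⟩
    change φ (g⁻¹ (g (c (g⁻¹ x)))) = starRingEnd ℂ (φ (g⁻¹ x))
    rw [← hφ]
    congr 1
    exact DFunLike.congr_fun (inv_mul_cancel g) _
  · rintro c ⟨φ, hφ⟩ g hg
    exact cent_cc hφ hg
  · intro V hV s hs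
    classical
    set K := IntermediateField.fixedField V with hK
    have hVK : K.fixingSubgroup = V := fixing_fixed hV
    have hfd : FiniteDimensional ℚ K := finite_fixed hV
    have hnf : NumberField K := { to_charZero := inferInstance, to_finiteDimensional := hfd }
    have hmem : ∀ g : GQ, g ∈ V ↔ ∀ x ∈ K, g x = x := by
      intro g
      rw [← hVK, IntermediateField.mem_fixingSubgroup_iff]
    have hreal : ∀ (φ : Qb →+* ℂ) (c : GQ), IsCC φ c → c ∈ V → ∀ x ∈ K, (φ x).im = 0 := by
      intro φ c hφ hc x hx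
      exact (real_iff hφ x).1 ((hmem c).1 hc x hx)
    let S : Set (K →+* ℝ) := {u | ∃ c ∈ V, s c ∧ ∃ φ : Qb →+* ℂ, IsCC φ c ∧ ∀ x : K, φ x = (u x : ℂ)}
    obtain ⟨a, ha0, ha⟩ := exists_signs_real K S
    obtain ⟨b, hb⟩ := exists_sqrt (a : Qb)
    have hb0 : b ≠ 0 := by
      rintro rfl
      apply ha0
      apply Subtype.ext
      rw [← hb]
      simp
    have hval : ∀ g ∈ V, g b = b ∨ g b = -b := by
      intro g hg
      have h1 : (g b - b) * (g b + b) = 0 := by
        have h2 : (g b - b) * (g b + b) = g b ^ 2 - b ^ 2 := by ring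
        rw [h2, ← map_pow, hb, (hmem g).1 hg _ a.2, sub_self]
      rcases mul_eq_zero.1 h1 with h2 | h2
      · exact Or.inl (sub_eq_zero.1 h2)
      · exact Or.inr (eq_neg_of_add_eq_zero_left h2)
    have hbne : -b ≠ b := by
      intro h1
      apply hb0
      have h2 : (2 : Qb) * b = 0 := by linear_combination -h1
      exact (mul_eq_zero.1 h2).resolve_left two_ne_zero
    let α : V →* ℤˣ :=
      { toFun := fun g => if (g : GQ) b = b then 1 else -1
        map_one' := by
          change (if (1 : GQ) b = b then (1 : ℤˣ) else -1) = 1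
          exact if_pos rfl
        map_mul' := by
          intro g h
          change (if (g : GQ) ((h : GQ) b) = b then (1 : ℤˣ) else -1) = _
          rcases hval g g.2 with h1 | h1 <;> rcases hval h h.2 with h2 | h2 <;>
            simp [h1, h2, hbne] }
    have hα : ∀ g (hg : g ∈ V), α ⟨g, hg⟩ = -1 ↔ g b ≠ b := by
      intro g hg
      change (if g b = b then (1 : ℤˣ) else -1) = -1 ↔ _
      by_cases h1 : g b = b
      · simp [h1]
      · simp [h1]
    refine ⟨α, ?_, ?_⟩
    · refine openKer_of _ (A := V ⊓ MulAction.stabilizer GQ b) (by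
        rw [Subgroup.coe_inf]
        exact hV.inter (stabilizer_isOpen_of_isIntegral b)) ?_
      intro g hg
      refine ⟨hg.1, ?_⟩
      have h1 : g b = b := hg.2
      exact if_pos h1
    · rintro c ⟨φ, hφ⟩ hc
      rw [hα]
      have h1 := hreal φ c hφ hc
      have h2 : c b ≠ b ↔ (realEmb K φ h1) a < 0 := by
        rw [ne_eq, real_iff hφ]
        have h3 : φ b ^ 2 = ((realEmb K φ h1 a : ℝ) : ℂ) := by
          rw [realEmb_apply, ← map_pow, hb]
        have h4 := congrArg Complex.re h3
        have h5 := congrArg Complex.im h3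
        rw [sq, Complex.mul_re, Complex.ofReal_re] at h4
        rw [sq, Complex.mul_im, Complex.ofReal_im] at h5
        constructor
        · intro h6
          have h7 : (φ b).re = 0 := by
            have h8 : 2 * (φ b).re * (φ b).im = 0 := by linarith
            rcases mul_eq_zero.1 h8 with h9 | h9
            · linarith
            · exact absurd h9 h6
          rw [h7] at h4
          have h8 : 0 < (φ b).im * (φ b).im := by
            rcases lt_or_gt_of_ne h6 with h9 | h9
            · nlinarith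
            · nlinarith
          linarith
        · intro h6 h7
          rw [h7] at h4
          nlinarith [mul_self_nonneg (φ b).re]
      rw [h2, ha]
      constructor
      · rintro ⟨c', hc', hs', φ', hφ', h3⟩
        obtain ⟨γ, hγ⟩ := exists_gal φ φ'
        have h4 : γ ∈ V := by
          rw [hmem]
          intro x hx
          apply φ.injective
          rw [← hγ]
          have h5 := h3 ⟨x, hx⟩
          rw [realEmb_apply] at h5
          exact h5
        have h5 : c' = γ⁻¹ * c * γ := cc_conj hφ hφ' hγ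
        have h6 : c = γ * c' * γ⁻¹ := by rw [h5]; group
        rw [h6]
        exact hs c' ⟨φ', hφ'⟩ hc' γ h4 hs'
      · intro hsc
        exact ⟨c, hc, hsc, φ, hφ, fun x => (realEmb_apply K φ h1 x).symm⟩

/-- fields with a real embedding -/
lemma cc_of_real {K : IntermediateField ℚ Qb} (u : K →+* ℝ) : ∃ c ∈ CC, c ∈ K.fixingSubgroup := by
  let _ : Algebra K ℂ := ((Complex.ofRealHom).comp u).toAlgebra
  let ψ : Qb →ₐ[K] ℂ := IsAlgClosed.lift
  obtain ⟨c, hc⟩ := exists_cc ψ.toRingHom
  refine ⟨c, ⟨_, hc⟩, ?_⟩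
  rw [IntermediateField.mem_fixingSubgroup_iff]
  intro x hx
  rw [real_iff hc]
  have h1 : ψ (algebraMap K Qb ⟨x, hx⟩) = (u ⟨x, hx⟩ : ℂ) := ψ.commutes _
  have h2 : ψ.toRingHom x = (u ⟨x, hx⟩ : ℂ) := h1
  rw [h2, Complex.ofReal_im]

end Pool.Agent.N770.SK
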