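import Pool.Agent.N770.SK.Base

/-!
# Induced functions on subgroups of finite index
-/

set_option autoImplicit false

namespace Pool.Agent.N770.SK

variable {G : Type} [Group G]

/-- `f` is supported on `V` and invariant under conjugation by the elements of `V` -/
structure Cl (V : Subgroup G) (f : G → ℂ) : Prop where
  supp : ∀ g, g ∉ V → f g = 0
  conj : ∀ v ∈ V, ∀ g, f (v⁻¹ * g * v) = f g

lemma out_spec {U V : Subgroup G} (x : U) :
    ∃ v : V.subgroupOf U, ((QuotientGroup.mk x : U ⧸ V.subgroupOf U).out : U) = x * v := by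
  refine ⟨⟨x⁻¹ * (QuotientGroup.mk x : U ⧸ V.subgroupOf U).out, ?_⟩, by simp⟩
  rw [← QuotientGroup.eq]
  exact (QuotientGroup.out_eq' _).symm

/-- the summand does not depend on the representative -/
lemma Cl.out {U V : Subgroup G} {f : G → ℂ} (hf : Cl V f) (x : U) (g : G) :
    f ((((QuotientGroup.mk x : U ⧸ V.subgroupOf U).out : U) : G)⁻¹ * g *
      (((QuotientGroup.mk x : U ⧸ V.subgroupOf U).out : U) : G)) = f ((x : G)⁻¹ * g * x) := by
  obtain ⟨v, hv⟩ := out_spec (U := U) (V := V) x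
  rw [hv]
  have h1 : ((x * v : U) : G)⁻¹ * g * ((x * v : U) : G) = ((v : U) : G)⁻¹ * ((x : G)⁻¹ * g * x) * ((v : U) : G) := by
    push_cast
    group
  rw [h1]
  exact hf.conj _ (Subgroup.mem_subgroupOf.1 v.2) _

lemma Cl.add {V : Subgroup G} {f f' : G → ℂ} (hf : Cl V f) (hf' : Cl V f') : Cl V (f + f') :=
  ⟨fun g hg => by rw [Pi.add_apply, hf.supp g hg, hf'.supp g hg, add_zero],
    fun v hv g => by rw [Pi.add_apply, Pi.add_apply, hf.conj v hv, hf'.conj v hv]⟩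

lemma Cl.neg {V : Subgroup G} {f : G → ℂ} (hf : Cl V f) : Cl V (-f) :=
  ⟨fun g hg => by rw [Pi.neg_apply, hf.supp g hg, neg_zero],
    fun v hv g => by rw [Pi.neg_apply, Pi.neg_apply, hf.conj v hv]⟩

lemma Cl.sub {V : Subgroup G} {f f' : G → ℂ} (hf : Cl V f) (hf' : Cl V f') : Cl V (f - f') := by
  rw [sub_eq_add_neg]
  exact hf.add hf'.neg

lemma Cl.mul {V : Subgroup G} {f F : G → ℂ} (hf : Cl V f) (hF : ∀ v ∈ V, ∀ g, F (v⁻¹ * g * v) = F g) :
    Cl V (f * F) :=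
  ⟨fun g hg => by rw [Pi.mul_apply, hf.supp g hg, zero_mul],
    fun v hv g => by rw [Pi.mul_apply, Pi.mul_apply, hf.conj v hv, hF v hv]⟩

/-- projection formula -/
lemma Ind_mul (U V : Subgroup G) [Finite (U ⧸ V.subgroupOf U)] (f : G → ℂ) {F : G → ℂ}
    (hF : ∀ u ∈ U, ∀ g, F (u⁻¹ * g * u) = F g) : Ind U V (f * F) = Ind U V f * F := by
  classical
  let _ : Fintype (U ⧸ V.subgroupOf U) := Fintype.ofFinite _
  funext g
  rw [Pi.mul_apply, Ind, Ind, finsum_eq_sum_of_fintype, finsum_eq_sum_of_fintype, Finset.sum_mul]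
  refine Finset.sum_congr rfl fun q _ => ?_
  rw [Pi.mul_apply, hF _ (q.out : U).2]

lemma Ind_add (U V : Subgroup G) [Finite (U ⧸ V.subgroupOf U)] (f f' : G → ℂ) :
    Ind U V (f + f') = Ind U V f + Ind U V f' := by
  classical
  let _ : Fintype (U ⧸ V.subgroupOf U) := Fintype.ofFinite _
  funext g
  rw [Pi.add_apply, Ind, Ind, Ind, finsum_eq_sum_of_fintype, finsum_eq_sum_of_fintype,
    finsum_eq_sum_of_fintype, ← Finset.sum_add_distrib]
  rfl

lemma Ind_sub (U V : Subgroup G) [Finite (U ⧸ V.subgroupOf U)] (f f' : G → ℂ) :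
    Ind U V (f - f') = Ind U V f - Ind U V f' := by
  classical
  let _ : Fintype (U ⧸ V.subgroupOf U) := Fintype.ofFinite _
  funext g
  rw [Pi.sub_apply, Ind, Ind, Ind, finsum_eq_sum_of_fintype, finsum_eq_sum_of_fintype,
    finsum_eq_sum_of_fintype, ← Finset.sum_sub_distrib]
  rfl

/-- values outside of `U` -/
lemma Ind_supp {U V : Subgroup G} (hVU : V ≤ U) {f : G → ℂ} (hf : Cl V f) {g : G} (hg : g ∉ U) :
    Ind U V f g = 0 := by
  rw [Ind]
  refine finsum_eq_zero_of_forall_eq_zero fun q => hf.supp _ fun h => hg ?_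
  have h1 := hVU h
  have h2 := U.mul_mem (U.mul_mem (q.out : U).2 h1) (U.inv_mem (q.out : U).2)
  have h3 : ((q.out : U) : G) * (((q.out : U) : G)⁻¹ * g * ((q.out : U) : G)) * ((q.out : U) : G)⁻¹ = g := by
    group
  rwa [h3] at h2

lemma Ind_conj {U V : Subgroup G} [Finite (U ⧸ V.subgroupOf U)] {f : G → ℂ} (hf : Cl V f)
    {u : G} (hu : u ∈ U) (g : G) : Ind U V f (u⁻¹ * g * u) = Ind U V f g := by
  classical
  let _ : Fintype (U ⧸ V.subgroupOf U) := Fintype.ofFinite _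
  rw [Ind, Ind, finsum_eq_sum_of_fintype, finsum_eq_sum_of_fintype]
  let σ : Equiv.Perm (U ⧸ V.subgroupOf U) := MulAction.toPerm (⟨u, hu⟩ : U)
  refine Fintype.sum_equiv σ _ _ fun q => ?_
  obtain ⟨x, rfl⟩ := QuotientGroup.mk_surjective q
  have h1 : σ (QuotientGroup.mk x) = QuotientGroup.mk (⟨u, hu⟩ * x) := rfl
  rw [h1, hf.out, hf.out]
  congr 1
  push_cast
  group

lemma Cl.ind {U V : Subgroup G} [Finite (U ⧸ V.subgroupOf U)] (hVU : V ≤ U) {f : G → ℂ}
    (hf : Cl V f) : Cl U (Ind U V f) :=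
  ⟨fun _ hg => Ind_supp hVU hf hg, fun _ hu g => Ind_conj hf hu g⟩

lemma lin_mem {U : Subgroup G} (χ : U →* ℂˣ) {g : G} (h : g ∈ U) : lin U χ g = ((χ ⟨g, h⟩ : ℂˣ) : ℂ) := by
  rw [lin, dif_pos h]

lemma lin_not {U : Subgroup G} (χ : U →* ℂˣ) {g : G} (h : g ∉ U) : lin U χ g = 0 := by
  rw [lin, dif_neg h]

lemma lin_cl (U : Subgroup G) (χ : U →* ℂˣ) : Cl U (lin U χ) := by
  refine ⟨fun g hg => lin_not χ hg, fun v hv g => ?_⟩
  by_cases hg : g ∈ U
  · have h1 : v⁻¹ * g * v ∈ U := U.mul_mem (U.mul_mem (U.inv_mem hv) hg) hv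
    rw [lin_mem χ hg, lin_mem χ h1]
    congr 1
    have h2 : (⟨v⁻¹ * g * v, h1⟩ : U) = ⟨v, hv⟩⁻¹ * ⟨g, hg⟩ * ⟨v, hv⟩ := rfl
    rw [h2, map_mul, map_mul, map_inv, mul_comm (χ ⟨v, hv⟩)⁻¹, inv_mul_cancel_right]
  · have h1 : v⁻¹ * g * v ∉ U := fun h => hg (by
      have h2 := U.mul_mem (U.mul_mem hv h) (U.inv_mem hv)
      have h3 : v * (v⁻¹ * g * v) * v⁻¹ = g := by group
      rwa [h3] at h2)
    rw [lin_not χ hg, lin_not χ h1]

/-- restriction of linear characters -/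
def res {U V : Subgroup G} (hVU : V ≤ U) (χ : U →* ℂˣ) : V →* ℂˣ := χ.comp (Subgroup.inclusion hVU)

lemma lin_res {U V : Subgroup G} (hVU : V ≤ U) (χ : U →* ℂˣ) {g : G} (hg : g ∈ V) :
    lin V (res hVU χ) g = lin U χ g := by
  rw [lin_mem _ hg, lin_mem _ (hVU hg)]
  rfl

lemma lin_mul {U : Subgroup G} (χ ψ : U →* ℂˣ) : lin U (χ * ψ) = lin U χ * lin U ψ := by
  funext g
  rw [Pi.mul_apply]
  by_cases hg : g ∈ U
  · rw [lin_mem _ hg, lin_mem _ hg, lin_mem _ hg]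
    simp
  · rw [lin_not _ hg, lin_not _ hg, zero_mul]

lemma lin_res_mul {U V : Subgroup G} (hVU : V ≤ U) (χ : U →* ℂˣ) {f : G → ℂ} (hf : Cl V f) :
    f * lin V (res hVU χ) = f * lin U χ := by
  funext g
  rw [Pi.mul_apply, Pi.mul_apply]
  by_cases hg : g ∈ V
  · rw [lin_res hVU χ hg]
  · rw [hf.supp g hg, zero_mul, zero_mul]

/-- subgroups of index two -/
lemma Ind_two {U V : Subgroup G} {τ : G} (hτ : τ ∈ U) (hτV : τ ∉ V)
    (h2 : ∀ u ∈ U, u ∈ V ∨ τ⁻¹ * u ∈ V) {f : G → ℂ} (hf : Cl V f) (g : G) :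
    Ind U V f g = f g + f (τ⁻¹ * g * τ) := by
  classical
  let q0 : U ⧸ V.subgroupOf U := QuotientGroup.mk 1
  let q1 : U ⧸ V.subgroupOf U := QuotientGroup.mk ⟨τ, hτ⟩
  have hne : q0 ≠ q1 := by
    intro h
    have h3 := QuotientGroup.eq.1 h
    rw [Subgroup.mem_subgroupOf] at h3
    apply hτV
    simpa using h3
  have hall : ∀ q : U ⧸ V.subgroupOf U, q = q0 ∨ q = q1 := by
    intro q
    obtain ⟨x, rfl⟩ := QuotientGroup.mk_surjective q
    rcases h2 x x.2 with h | h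
    · left
      refine (QuotientGroup.eq.2 ?_).symm
      rw [Subgroup.mem_subgroupOf]
      simpa using h
    · right
      refine (QuotientGroup.eq.2 ?_).symm
      rw [Subgroup.mem_subgroupOf]
      simpa using h
  let _ : Fintype (U ⧸ V.subgroupOf U) := ⟨{q0, q1}, fun q => by
    rw [Finset.mem_insert, Finset.mem_singleton]
    exact hall q⟩
  rw [Ind, finsum_eq_sum_of_fintype]
  have h4 : (Finset.univ : Finset (U ⧸ V.subgroupOf U)) = {q0, q1} := by
    ext q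
    simp only [Finset.mem_univ, Finset.mem_insert, Finset.mem_singleton, true_iff]
    exact hall q
  rw [h4, Finset.sum_pair hne, hf.out, hf.out]
  congr 1
  simp

end Pool.Agent.N770.SK
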