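import Pool.Agent.N770.SK.Tower
import Pool.Agent.R389.Brauer

/-!
# Induction from finite quotients
-/

set_option autoImplicit false
set_option linter.unusedSectionVars false

namespace Pool.Agent.N770.SK

open Pool.Agent.R389

variable {G : Type} [Group G]

section infl

variable {U : Subgroup G} (N : Subgroup U) [N.Normal]

/-- the preimage of a subgroup of the quotient -/
def WW (V : Subgroup (U ⧸ N)) : Subgroup G := (V.comap (QuotientGroup.mk' N)).map U.subtype

variable {N}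

lemma mem_WW {V : Subgroup (U ⧸ N)} {g : G} : g ∈ WW N V ↔ ∃ h : g ∈ U, (QuotientGroup.mk ⟨g, h⟩ : U ⧸ N) ∈ V := by
  constructor
  · rintro ⟨x, hx, rfl⟩
    exact ⟨x.2, hx⟩
  · rintro ⟨h, h1⟩
    exact ⟨⟨g, h⟩, h1, rfl⟩

lemma WW_le (V : Subgroup (U ⧸ N)) : WW N V ≤ U := fun _ hg => (mem_WW.1 hg).1

/-- the linear character of the preimage -/
def psiW (V : Subgroup (U ⧸ N)) (ψ : V →* ℂˣ) : WW N V →* ℂˣ where
  toFun w := ψ ⟨QuotientGroup.mk ⟨w, (mem_WW.1 w.2).1⟩, (mem_WW.1 w.2).2⟩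
  map_one' := by
    rw [← map_one ψ]
    congr 1
  map_mul' a b := by
    rw [← map_mul ψ]
    congr 1

lemma psiW_apply (V : Subgroup (U ⧸ N)) (ψ : V →* ℂˣ) (g : G) (h : g ∈ U)
    (h1 : (QuotientGroup.mk ⟨g, h⟩ : U ⧸ N) ∈ V) (h2 : g ∈ WW N V) :
    psiW V ψ ⟨g, h2⟩ = ψ ⟨QuotientGroup.mk ⟨g, h⟩, h1⟩ := rfl

variable (N) in
/-- functions on the quotient as functions on the group -/
noncomputable def infl (f : U ⧸ N → ℂ) (g : G) : ℂ :=
  open Classical in if h : g ∈ U then f (QuotientGroup.mk ⟨g, h⟩) else 0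

lemma infl_mem (f : U ⧸ N → ℂ) {g : G} (h : g ∈ U) : infl N f g = f (QuotientGroup.mk ⟨g, h⟩) := by
  rw [infl, dif_pos h]

lemma infl_not (f : U ⧸ N → ℂ) {g : G} (h : g ∉ U) : infl N f g = 0 := by
  rw [infl, dif_neg h]

lemma infl_add (f f' : U ⧸ N → ℂ) : infl N (f + f') = infl N f + infl N f' := by
  funext g
  rw [Pi.add_apply]
  by_cases h : g ∈ U
  · rw [infl_mem _ h, infl_mem _ h, infl_mem _ h, Pi.add_apply]
  · rw [infl_not _ h, infl_not _ h, infl_not _ h, add_zero]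

lemma lin_psiW (V : Subgroup (U ⧸ N)) (ψ : V →* ℂˣ) {g : G} (h : g ∈ U) :
    lin (WW N V) (psiW V ψ) g = ext V (fun h => ((ψ h : ℂˣ) : ℂ)) (QuotientGroup.mk ⟨g, h⟩) := by
  by_cases h1 : (QuotientGroup.mk ⟨g, h⟩ : U ⧸ N) ∈ V
  · rw [ext_mem _ _ h1, lin_mem _ (mem_WW.2 ⟨h, h1⟩)]
    rfl
  · rw [ext_not _ _ h1, lin_not]
    intro h2
    exact h1 (mem_WW.1 h2).2

lemma infl_ind [Finite (U ⧸ N)] (V : Subgroup (U ⧸ N)) (ψ : V →* ℂˣ) :
    infl N (ind V (fun h => ((ψ h : ℂˣ) : ℂ))) = Ind U (WW N V) (lin (WW N V) (psiW V ψ)) := by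
  classical
  funext g
  by_cases hg : g ∈ U
  swap
  · rw [infl_not _ hg, Ind_supp (WW_le V) (lin_cl _ _) hg]
  let _ : Fintype (U ⧸ N) := Fintype.ofFinite _
  let _ : Fintype V := Fintype.ofFinite _
  let p : U ⧸ N → U ⧸ (WW N V).subgroupOf U := fun x => QuotientGroup.mk x.out
  have hp : Function.Surjective p := by
    intro q
    obtain ⟨u, rfl⟩ := QuotientGroup.mk_surjective q
    refine ⟨QuotientGroup.mk u, ?_⟩
    refine QuotientGroup.eq.2 ?_
    rw [Subgroup.mem_subgroupOf, mem_WW]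
    refine ⟨((QuotientGroup.mk u : U ⧸ N).out⁻¹ * u).2, ?_⟩
    have h1 : (QuotientGroup.mk ((QuotientGroup.mk u : U ⧸ N).out⁻¹ * u) : U ⧸ N) = 1 := by
      rw [QuotientGroup.mk_mul, QuotientGroup.mk_inv, QuotientGroup.out_eq', inv_mul_cancel]
    exact h1 ▸ V.one_mem
  have hfin : Finite (U ⧸ (WW N V).subgroupOf U) := Finite.of_surjective p hp
  let _ : Fintype (U ⧸ (WW N V).subgroupOf U) := Fintype.ofFinite _
  rw [infl_mem _ hg, ind_eq, Ind, finsum_eq_sum_of_fintype]
  let F : U ⧸ (WW N V).subgroupOf U → ℂ := fun q =>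
    lin (WW N V) (psiW V ψ) (((q.out : U) : G)⁻¹ * g * ((q.out : U) : G))
  have h1 : ∀ x : U ⧸ N, ext V (fun h => ((ψ h : ℂˣ) : ℂ)) (x⁻¹ * QuotientGroup.mk ⟨g, hg⟩ * x) = F (p x) := by
    intro x
    change _ = lin (WW N V) (psiW V ψ) ((((QuotientGroup.mk x.out : U ⧸ (WW N V).subgroupOf U).out : U) : G)⁻¹ * g *
      (((QuotientGroup.mk x.out : U ⧸ (WW N V).subgroupOf U).out : U) : G))
    have h0 : ((x.out : U) : G)⁻¹ * g * ((x.out : U) : G) ∈ U := (x.out⁻¹ * ⟨g, hg⟩ * x.out).2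
    rw [(lin_cl (WW N V) (psiW V ψ)).out (U := U) x.out g, lin_psiW V ψ h0]
    congr 1
    have h2 : (⟨((x.out : U) : G)⁻¹ * g * ((x.out : U) : G), (x.out⁻¹ * ⟨g, hg⟩ * x.out).2⟩ : U) = x.out⁻¹ * ⟨g, hg⟩ * x.out := rfl
    rw [h2, QuotientGroup.mk_mul, QuotientGroup.mk_mul, QuotientGroup.mk_inv, QuotientGroup.out_eq']
  rw [Finset.sum_congr rfl fun x _ => h1 x]
  have hfib : ∀ q : U ⧸ (WW N V).subgroupOf U, (Finset.univ.filter fun x => p x = q).card = Nat.card V := by
    intro q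
    obtain ⟨u, rfl⟩ := QuotientGroup.mk_surjective q
    rw [← Fintype.card_subtype, ← Nat.card_eq_fintype_card]
    have h2 : ∀ x : U ⧸ N, p x = QuotientGroup.mk u ↔ x⁻¹ * QuotientGroup.mk u ∈ V := by
      intro x
      change (QuotientGroup.mk x.out : U ⧸ (WW N V).subgroupOf U) = QuotientGroup.mk u ↔ _
      rw [QuotientGroup.eq, Subgroup.mem_subgroupOf, mem_WW]
      have h3 : (QuotientGroup.mk (x.out⁻¹ * u) : U ⧸ N) = x⁻¹ * QuotientGroup.mk u := by
        rw [QuotientGroup.mk_mul, QuotientGroup.mk_inv, QuotientGroup.out_eq']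
      constructor
      · rintro ⟨h4, h5⟩
        rw [← h3]
        exact h5
      · intro h4
        rw [← h3] at h4
        exact ⟨(x.out⁻¹ * u).2, h4⟩
    refine Nat.card_congr ⟨fun x => ⟨x.1⁻¹ * QuotientGroup.mk u, (h2 x.1).1 x.2⟩,
      fun v => ⟨(QuotientGroup.mk u : U ⧸ N) * (v : U ⧸ N)⁻¹, (h2 _).2 (by
        have h4 : ((QuotientGroup.mk u : U ⧸ N) * (v : U ⧸ N)⁻¹)⁻¹ * QuotientGroup.mk u = (v : U ⧸ N) := by group
        have h5 := v.2
        rw [← h4] at h5
        exact h5)⟩, ?_, ?_⟩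
    · rintro ⟨x, hx⟩
      apply Subtype.ext
      change QuotientGroup.mk u * (x⁻¹ * QuotientGroup.mk u)⁻¹ = x
      group
    · rintro ⟨v, hv⟩
      apply Subtype.ext
      change (QuotientGroup.mk u * v⁻¹)⁻¹ * QuotientGroup.mk u = v
      group
  have h3 : ∑ x : U ⧸ N, F (p x) = (Nat.card V : ℂ) * ∑ q, F q := by
    rw [← Finset.sum_fiberwise Finset.univ p, Finset.mul_sum]
    refine Finset.sum_congr rfl fun q _ => ?_
    have h4 : ∀ x ∈ Finset.univ.filter (fun x => p x = q), F (p x) = F q := by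
      intro x hx
      rw [(Finset.mem_filter.1 hx).2]
    rw [Finset.sum_congr rfl h4, Finset.sum_const, hfib q, nsmul_eq_mul]
  have h5 : (Nat.card V : ℂ) ≠ 0 := by
    have := Nat.card_pos (α := V)
    exact_mod_cast this.ne'
  rw [h3, ← mul_assoc, inv_mul_cancel₀ h5, one_mul]

end infl

/-- elements of coprime orders commute in a nilpotent group -/
theorem nil_commute (V : Type) [Group V] [Group.IsNilpotent V] : ∀ x y : V, ∀ a b : ℕ, x ^ a = 1 →
    y ^ b = 1 → a.Coprime b → x * y = y * x := by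
  refine Group.nilpotent_center_quotient_ind (P := fun V _ _ => ∀ x y : V, ∀ a b : ℕ, x ^ a = 1 →
    y ^ b = 1 → a.Coprime b → x * y = y * x) V ?_ ?_
  · intro V _ _ x y _ _ _ _ _
    exact Subsingleton.elim _ _
  · intro V _ _ ih x y a b hx hy hab
    have h1 := ih (QuotientGroup.mk x) (QuotientGroup.mk y) a b (by
      rw [← QuotientGroup.mk_pow, hx, QuotientGroup.mk_one]) (by
      rw [← QuotientGroup.mk_pow, hy, QuotientGroup.mk_one]) hab
    rw [← QuotientGroup.mk_mul, ← QuotientGroup.mk_mul, QuotientGroup.eq] at h1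
    set z := (x * y)⁻¹ * (y * x) with hz
    have hzc : ∀ w : V, w * z = z * w := fun w => Subgroup.mem_center_iff.1 h1 w
    -- `y x = x y z`
    have h2 : y * x = x * y * z := by rw [hz]; group
    have h3 : ∀ n : ℕ, y * x ^ n = x ^ n * y * z ^ n := by
      intro n
      induction n with
      | zero => simp
      | succ n ihn =>
        calc y * x ^ (n + 1) = (y * x ^ n) * x := by rw [pow_succ]; group
          _ = x ^ n * y * z ^ n * x := by rw [ihn]
          _ = x ^ n * (y * x) * z ^ n := by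
            have : z ^ n * x = x * z ^ n := ((Commute.pow_left (show Commute z x from (hzc x).symm) n)).eq
            rw [mul_assoc, this]
            group
          _ = x ^ n * (x * y * z) * z ^ n := by rw [h2]
          _ = x ^ (n + 1) * y * z ^ (n + 1) := by rw [pow_succ, pow_succ']; group
    have h4 : ∀ n : ℕ, y ^ n * x = x * y ^ n * z ^ n := by
      intro n
      induction n with
      | zero => simp
      | succ n ihn =>
        calc y ^ (n + 1) * x = y * (y ^ n * x) := by rw [pow_succ']; group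
          _ = y * (x * y ^ n * z ^ n) := by rw [ihn]
          _ = (y * x) * y ^ n * z ^ n := by group
          _ = x * y * z * y ^ n * z ^ n := by rw [h2]
          _ = x * y * (z * y ^ n) * z ^ n := by group
          _ = x * y * (y ^ n * z) * z ^ n := by rw [hzc]
          _ = x * y ^ (n + 1) * z ^ (n + 1) := by rw [pow_succ', pow_succ']; group
    have h5 : z ^ a = 1 := by
      have := h3 a
      rw [hx, mul_one, one_mul] at this
      exact (mul_eq_left.1 this.symm)
    have h6 : z ^ b = 1 := by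
      have := h4 b
      rw [hy, mul_one, one_mul] at this
      exact (mul_eq_left.1 this.symm)
    have h7 : z = 1 := by
      have h8 : orderOf z ∣ Nat.gcd a b := Nat.dvd_gcd (orderOf_dvd_of_pow_eq_one h5) (orderOf_dvd_of_pow_eq_one h6)
      rw [hab] at h8
      exact orderOf_eq_one_iff.1 (Nat.dvd_one.1 h8)
    rw [h2, h7, mul_one]

end Pool.Agent.N770.SK
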