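import Pool.Agent.N770.SK.Odd
import Pool.Agent.N770.SK.Chars

/-!
# Linear characters of arbitrary order
-/

set_option autoImplicit false
set_option linter.unusedSectionVars false

namespace Pool.Agent.N770.SK

variable {G : Type} [Group G] [TopologicalSpace G] [IsTopologicalGroup G] [CompactSpace G]
variable {X : Set G} {U : Subgroup G} {T : Subgroup G → AddSubgroup (G → ℂ)}

/-- twisting a class by a linear character -/
lemma TC.twistIC (h : TC X T) {chi : U →* ℂˣ} (hchi : OpenKer chi) :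
    IC X U (fun V => (T V).comap (mulHom (lin U chi))) := by
  refine ⟨fun V W hV hVU hW hWV f hf hfT => ?_, fun W hW hWU hWX ψ hψ => ?_⟩
  · have hfin : Finite (V ⧸ W.subgroupOf V) := finite_quot hW
    change Ind V W f * lin U chi ∈ T V
    rw [← Ind_mul V W f (fun u hu g => (lin_cl U chi).conj u (hVU hu) g)]
    exact h.ind V W hV hW hWV _ (hf.mul fun v hv g => (lin_cl U chi).conj v (hVU (hWV hv)) g) hfT
  · change lin W ψ * lin U chi ∈ T W
    rw [← lin_res_mul hWU _ (lin_cl W ψ), ← lin_mul]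
    exact h.cpx W hW hWX _ (hψ.mul (hchi.res hWU hW))

/-- **Twists by characters of odd order.** -/
theorem TC.odd [T2Space G] [TotallyDisconnectedSpace G] (hX : RealSet X) (hXc : IsClosed X)
    (h : TC X T) {chi κ : U →* ℂˣ} (hchi : OpenKer chi) (hκ : OpenKer κ) (m : ℕ) (hm : Odd m)
    (hκm : ∀ u, κ u ^ m = 1) : lin U (chi * κ) - lin U chi ∈ T U := by
  have h1 : (lin U κ - lin U 1) * lin U chi ∈ T U :=
    (h.twistIC hchi).oddp hX hXc κ hκ m hm hκm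
  have h2 : (lin U κ - lin U 1) * lin U chi = lin U (chi * κ) - lin U chi := by
    have h3 : (1 : U →* ℂˣ) * chi = chi := MonoidHom.ext fun u => one_mul _
    have h4 : κ * chi = chi * κ := MonoidHom.ext fun u => mul_comm _ _
    rw [sub_mul, ← lin_mul, ← lin_mul, h3, h4]
  rwa [h2] at h1

/-- characters with open kernel have finite order -/
lemma OpenKer.finite_order {χ : U →* ℂˣ} (hχ : OpenKer χ) : ∃ n : ℕ, n ≠ 0 ∧ ∀ u, χ u ^ n = 1 := by
  have h0 : (χ.ker.map U.subtype).subgroupOf U = χ.ker := by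
    ext x
    rw [Subgroup.mem_subgroupOf, mem_kerMap]
    constructor
    · rintro ⟨_, h⟩
      exact h
    · intro h
      exact ⟨x.2, h⟩
  have hfin : Finite (U ⧸ χ.ker) := by
    have h1 : Finite (U ⧸ (χ.ker.map U.subtype).subgroupOf U) := finite_quot hχ
    rwa [h0] at h1
  have hfi : χ.ker.FiniteIndex := Subgroup.finiteIndex_of_finite_quotient
  refine ⟨χ.ker.index, hfi.index_ne_zero, fun u => ?_⟩
  have h1 := χ.ker.pow_index_mem u
  rw [MonoidHom.mem_ker, map_pow] at h1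
  exact h1

/-- splitting off the 2-part -/
lemma split_two {χ : U →* ℂˣ} (hχ : OpenKer χ) {n : ℕ} (hn : n ≠ 0) (h : ∀ u, χ u ^ n = 1) :
    ∃ (k m : ℕ) (χ₂ κ : U →* ℂˣ), n = 2 ^ k * m ∧ Odd m ∧ OpenKer χ₂ ∧ OpenKer κ ∧ χ = χ₂ * κ ∧
      (∀ u, χ₂ u ^ 2 ^ k = 1) ∧ ∀ u, κ u ^ m = 1 := by
  obtain ⟨k, m, hm, hn2⟩ := Nat.exists_eq_two_pow_mul_odd hn
  have hco : IsCoprime ((2 ^ k : ℕ) : ℤ) (m : ℤ) := by
    rw [Nat.isCoprime_iff_coprime]
    exact Nat.Coprime.pow_left k hm.coprime_two_left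
  obtain ⟨x, y, hxy⟩ := hco
  let zp : ℤ → ℂˣ →* ℂˣ := fun j => zpowGroupHom j
  refine ⟨k, m, (zp (y * m)).comp χ, (zp (x * (2 ^ k : ℕ))).comp χ, hn2, hm, hχ.comp _, hχ.comp _, ?_, ?_, ?_⟩
  · apply MonoidHom.ext
    intro u
    change χ u = χ u ^ (y * m) * χ u ^ (x * (2 ^ k : ℕ))
    rw [← zpow_add, add_comm, hxy, zpow_one]
  · intro u
    change (χ u ^ (y * m)) ^ 2 ^ k = 1
    rw [← zpow_natCast, ← zpow_mul]
    have h1 : y * (m : ℤ) * ((2 ^ k : ℕ) : ℤ) = (n : ℤ) * y := by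
      rw [hn2]
      push_cast
      ring
    rw [h1, zpow_mul, zpow_natCast, h, one_zpow]
  · intro u
    change (χ u ^ (x * ((2 ^ k : ℕ) : ℤ))) ^ m = 1
    rw [← zpow_natCast, ← zpow_mul]
    have h1 : x * ((2 ^ k : ℕ) : ℤ) * (m : ℤ) = (n : ℤ) * x := by
      rw [hn2]
      push_cast
      ring
    rw [h1, zpow_mul, zpow_natCast, h, one_zpow]

/-- a character with values `±1` -/
lemma exists_sign_char {χ : U →* ℂˣ} (hχ : OpenKer χ) (h : ∀ u, χ u ^ 2 = 1) :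
    ∃ ε : U →* ℤˣ, OpenKer ε ∧ χ = qc.comp ε := by
  classical
  have h1 : ∀ u, χ u = 1 ∨ χ u = -1 := by
    intro u
    have h2 : ((χ u : ℂˣ) : ℂ) ^ 2 = 1 := by
      rw [← Units.val_pow_eq_pow_val, h, Units.val_one]
    rcases sq_eq_one_iff.1 h2 with h3 | h3
    · exact Or.inl (Units.ext h3)
    · exact Or.inr (Units.ext (by rw [h3]; simp))
  have hne : (-1 : ℂˣ) ≠ 1 := by
    intro h3
    have h4 := congrArg Units.val h3
    norm_num at h4
  let ε : U →* ℤˣ :=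
    { toFun := fun u => if χ u = 1 then 1 else -1
      map_one' := by simp
      map_mul' := by
        intro a b
        rcases h1 a with h2 | h2 <;> rcases h1 b with h3 | h3 <;> simp [h2, h3, hne] }
  have hε : ∀ u, χ u = qc (ε u) := by
    intro u
    change χ u = qc (if χ u = 1 then 1 else -1)
    rcases h1 u with h2 | h2
    · rw [if_pos h2, h2, map_one]
    · rw [if_neg (by rw [h2]; exact hne), h2]
      apply Units.ext
      simp [qc]
  refine ⟨ε, openKer_of _ hχ ?_, MonoidHom.ext hε⟩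
  intro g hg
  obtain ⟨h2, h3⟩ := (mem_kerMap χ g).1 hg
  exact ⟨h2, if_pos h3⟩

section main

variable [T2Space G] [TotallyDisconnectedSpace G]

/-- **Twice a linear character.** -/
theorem TC.lin_two (hX : RealSet X) (hXc : IsClosed X) (h : TC X T) {χ : U →* ℂˣ}
    (hχ : OpenKer χ) : lin U χ + lin U χ ∈ T U := by
  obtain ⟨n, hn, hχn⟩ := hχ.finite_order
  obtain ⟨k, m, χ₂, κ, -, hm, h2, hκ, rfl, h2k, hκm⟩ := split_two hχ hn hχn
  have h3 := h.odd hX hXc h2 hκ m hm hκm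
  have h4 := (h.two hX χ₂ h2 k h2k).2
  have h5 : lin U (χ₂ * κ) + lin U (χ₂ * κ) = (lin U (χ₂ * κ) - lin U χ₂) +
      (lin U (χ₂ * κ) - lin U χ₂) + (lin U χ₂ + lin U χ₂) := by abel
  rw [h5]
  exact add_mem (add_mem h3 h3) h4

/-- **Twists by quadratic characters.** -/
theorem TC.lin_twist (hX : RealSet X) (hXc : IsClosed X) (h : TC X T) {χ : U →* ℂˣ}
    (hχ : OpenKer χ) {η : U →* ℤˣ} (hη : OpenKer η) :
    lin U (χ * qc.comp η) - lin U χ ∈ T U := by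
  obtain ⟨n, hn, hχn⟩ := hχ.finite_order
  obtain ⟨k, m, χ₂, κ, -, hm, h2, hκ, rfl, h2k, hκm⟩ := split_two hχ hn hχn
  have h3 := h.odd hX hXc h2 hκ m hm hκm
  have h3' := h.odd hX hXc (h2.mul (hη.comp qc)) hκ m hm hκm
  have h4 := (h.two hX χ₂ h2 k h2k).1 η hη
  have h6 : χ₂ * κ * qc.comp η = χ₂ * qc.comp η * κ :=
    MonoidHom.ext fun u => mul_right_comm _ _ _
  have h5 : lin U (χ₂ * κ * qc.comp η) - lin U (χ₂ * κ) = (lin U (χ₂ * qc.comp η * κ) -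
      lin U (χ₂ * qc.comp η)) + (lin U (χ₂ * qc.comp η) - lin U χ₂) -
      (lin U (χ₂ * κ) - lin U χ₂) := by
    rw [h6]
    abel
  rw [h5]
  exact sub_mem (add_mem h3' h4) h3

/-- **Linear characters whose order is not divisible by 4.** -/
theorem TC.lin_four (hX : RealSet X) (hXc : IsClosed X) (h : TC X T) {χ : U →* ℂˣ}
    (hχ : OpenKer χ) {n : ℕ} (hn : ¬ 4 ∣ n) (hχn : ∀ u, χ u ^ n = 1) : lin U χ ∈ T U := by
  have hn0 : n ≠ 0 := by
    rintro rfl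
    exact hn (dvd_zero 4)
  obtain ⟨k, m, χ₂, κ, hkm, hm, h2, hκ, rfl, h2k, hκm⟩ := split_two hχ hn0 hχn
  have hk : k ≤ 1 := by
    by_contra hk
    apply hn
    rw [hkm]
    have h1 : 2 ^ 2 ∣ 2 ^ k := pow_dvd_pow 2 (by omega)
    exact (dvd_mul_of_dvd_left h1 m)
  obtain ⟨ε, hε, hε2⟩ := exists_sign_char h2 (fun u => by
    have h3 := h2k u
    have h4 : 2 = 2 ^ k * 2 ^ (1 - k) := by
      rw [← pow_add, Nat.add_sub_cancel' hk, pow_one]
    rw [h4, pow_mul, h3, one_pow])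
  have h3 := h.odd hX hXc h2 hκ m hm hκm
  have h4 : lin U χ₂ ∈ T U := by
    rw [hε2]
    exact h.quad U ε hε
  have h5 := add_mem h3 h4
  rwa [sub_add_cancel] at h5

/-- characters of 2-power order -/
def TwoPower {U : Subgroup G} (χ : U →* ℂˣ) : Prop := ∃ k : ℕ, ∀ u, χ u ^ 2 ^ k = 1

/-- **Characters which are odd at all real places.** -/
theorem TC.lin_real (hX : RealSet X) (hXc : IsClosed X) (h : TC X T)
    (hodd : ∀ ψ : U →* ℂˣ, OpenKer ψ → TwoPower ψ → (∀ c ∈ X, ∀ hc : c ∈ U, ψ ⟨c, hc⟩ = -1) →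
      lin U ψ ∈ T U)
    {χ : U →* ℂˣ} (hχ : OpenKer χ) : lin U χ ∈ T U := by
  obtain ⟨n, hn, hχn⟩ := hχ.finite_order
  obtain ⟨k, m, χ₂, κ, -, hm, h2, hκ, rfl, h2k, hκm⟩ := split_two hχ hn hχn
  obtain ⟨ε, hε, hεs⟩ := hX.sign U hχ.isOpen (fun c => ∃ hc : c ∈ U, χ₂ ⟨c, hc⟩ = 1) (by
    rintro c hc hcU v hv ⟨_, h1⟩
    have h2 : v * c * v⁻¹ ∈ U := U.mul_mem (U.mul_mem hv hcU) (U.inv_mem hv)
    refine ⟨h2, ?_⟩
    have h3 : (⟨v * c * v⁻¹, h2⟩ : U) = ⟨v, hv⟩ * ⟨c, hcU⟩ * ⟨v, hv⟩⁻¹ := rfl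
    rw [h3, map_mul, map_mul, map_inv, mul_comm (χ₂ ⟨v, hv⟩), mul_inv_cancel_right, h1])
  have hsgn : ∀ c ∈ X, ∀ hc : c ∈ U, χ₂ ⟨c, hc⟩ = 1 ∨ χ₂ ⟨c, hc⟩ = -1 := by
    intro c hc hcU
    have h1 : (⟨c, hcU⟩ : U) * ⟨c, hcU⟩ = 1 := Subtype.ext (hX.sq c hc)
    have h2 : ((χ₂ ⟨c, hcU⟩ : ℂˣ) : ℂ) ^ 2 = 1 := by
      rw [sq, ← Units.val_mul, ← map_mul, h1, map_one, Units.val_one]
    rcases sq_eq_one_iff.1 h2 with h3 | h3
    · exact Or.inl (Units.ext h3)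
    · exact Or.inr (Units.ext (by rw [h3]; simp))
  have hqq : ∀ x : ℤˣ, qc x * qc x = 1 := by
    intro x
    rw [← map_mul]
    rcases Int.units_eq_one_or x with h1 | h1 <;> rw [h1] <;> simp
  have h1 := (h.two hX χ₂ h2 k h2k).1 ε hε
  have h0 := h.odd hX hXc h2 hκ m hm hκm
  have h2 := hodd (χ₂ * qc.comp ε) (h2.mul (hε.comp qc)) (by
    refine ⟨k + 1, fun u => ?_⟩
    change (χ₂ u * qc (ε u)) ^ 2 ^ (k + 1) = 1
    rw [mul_pow, pow_succ, pow_mul, h2k, one_pow, one_mul, mul_comm (2 ^ k) 2, pow_mul, sq, hqq,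
      one_pow]) (by
    intro c hc hcU
    change χ₂ ⟨c, hcU⟩ * qc (ε ⟨c, hcU⟩) = -1
    rcases hsgn c hc hcU with h3 | h3
    · rw [h3, (hεs c hc hcU).2 ⟨hcU, h3⟩, one_mul]
      apply Units.ext
      simp [qc]
    · have h4 : ε ⟨c, hcU⟩ = 1 := by
        refine (Int.units_eq_one_or _).resolve_right fun h4 => ?_
        obtain ⟨_, h5⟩ := (hεs c hc hcU).1 h4
        rw [h3] at h5
        have h6 := congrArg Units.val h5
        norm_num at h6
      rw [h3, h4, map_one, mul_one])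
  have h3 : lin U (χ₂ * κ) = (lin U (χ₂ * κ) - lin U χ₂) + (lin U (χ₂ * qc.comp ε) -
      (lin U (χ₂ * qc.comp ε) - lin U χ₂)) := by abel
  rw [h3]
  exact add_mem h0 (sub_mem h2 h1)

end main

end Pool.Agent.N770.SK
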