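import Pool.Agent.N770.SK.Infl

/-!
# Linear characters of odd order
-/

set_option autoImplicit false
set_option linter.unusedSectionVars false

namespace Pool.Agent.N770.SK

open Pool.Agent.R389

variable {G : Type} [Group G] [TopologicalSpace G] [IsTopologicalGroup G] [CompactSpace G]
variable {X : Set G} {U : Subgroup G} {T : Subgroup G → AddSubgroup (G → ℂ)}

lemma WW_open {N : Subgroup U} [N.Normal] (hN : IsOpen ((N.map U.subtype : Subgroup G) : Set G))
    (V : Subgroup (U ⧸ N)) : IsOpen (WW N V : Set G) := by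
  refine open_mono ?_ hN
  rintro _ ⟨x, hx, rfl⟩
  refine mem_WW.2 ⟨x.2, ?_⟩
  have h1 : (QuotientGroup.mk (⟨(x : G), x.2⟩ : U) : U ⧸ N) = 1 := (QuotientGroup.eq_one_iff _).2 hx
  exact h1 ▸ V.one_mem

lemma psiW_open {N : Subgroup U} [N.Normal] (hN : IsOpen ((N.map U.subtype : Subgroup G) : Set G))
    (V : Subgroup (U ⧸ N)) (ψ : V →* ℂˣ) : OpenKer (psiW V ψ) := by
  refine openKer_of _ hN ?_
  rintro _ ⟨x, hx, rfl⟩
  have h1 : (QuotientGroup.mk (⟨(x : G), x.2⟩ : U) : U ⧸ N) = 1 := (QuotientGroup.eq_one_iff _).2 hx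
  have h2 : (QuotientGroup.mk (⟨(x : G), x.2⟩ : U) : U ⧸ N) ∈ V := h1 ▸ V.one_mem
  refine ⟨mem_WW.2 ⟨x.2, h2⟩, ?_⟩
  have h3 : (⟨QuotientGroup.mk (⟨(x : G), x.2⟩ : U), h2⟩ : V) = 1 := Subtype.ext h1
  change ψ ⟨QuotientGroup.mk (⟨(x : G), x.2⟩ : U), h2⟩ = 1
  rw [h3, map_one]

/-- linear characters of odd order differ from the trivial character by a character induced from
subgroups without real points -/
theorem IC.oddp [T2Space G] [TotallyDisconnectedSpace G] (hX : RealSet X) (hXc : IsClosed X)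
    (h : IC X U T) (κ : U →* ℂˣ) (hκ : OpenKer κ) (m : ℕ) (hm : Odd m) (hκm : ∀ u, κ u ^ m = 1) :
    lin U κ - lin U 1 ∈ T U := by
  classical
  have hU := hκ.isOpen
  have hUc : IsClosed (U : Set G) := U.isClosed_of_isOpen hU
  -- signs of odd order are trivial
  have hodd : ∀ x : ℂˣ, x ^ m = 1 → ∀ j : ℕ, x ^ 2 ^ j = 1 → x = 1 := by
    intro x h1 j h2
    have h3 : orderOf x ∣ Nat.gcd m (2 ^ j) :=
      Nat.dvd_gcd (orderOf_dvd_of_pow_eq_one h1) (orderOf_dvd_of_pow_eq_one h2)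
    have h4 : Nat.gcd m (2 ^ j) = 1 := (Nat.Coprime.pow_right j hm.coprime_two_right)
    rw [h4] at h3
    exact orderOf_eq_one_iff.1 (Nat.dvd_one.1 h3)
  have hκc : ∀ c ∈ X, ∀ hc : c ∈ U, κ ⟨c, hc⟩ = 1 := by
    intro c hc hcU
    refine hodd _ (hκm _) 1 ?_
    have h1 : (⟨c, hcU⟩ : U) * ⟨c, hcU⟩ = 1 := Subtype.ext (hX.sq c hc)
    rw [pow_one, sq, ← map_mul, h1, map_one]
  let D : Set G := (U : Set G) \ ((κ.ker.map U.subtype : Subgroup G) : Set G)
  have hD : IsClosed D := hUc.sdiff hκ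
  have hcomp : IsCompact (D ×ˢ (X ∩ U)) := (hD.prod (hXc.inter hUc)).isCompact
  let F : G × G → G := fun p => p.1 * p.2 * p.1⁻¹ * p.2⁻¹
  have hF : Continuous F := by fun_prop
  have hS : IsClosed (F '' (D ×ˢ (X ∩ U))) := (hcomp.image hF).isClosed
  have h1S : (1 : G) ∈ (F '' (D ×ˢ (X ∩ U)))ᶜ := by
    rintro ⟨⟨g, c⟩, ⟨hg, hc⟩, h1⟩
    change g * c * g⁻¹ * c⁻¹ = 1 at h1
    have h2 : g * c = c * g := by
      have h3 : g * c = (g * c * g⁻¹ * c⁻¹) * (c * g) := by group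
      rw [h1, one_mul] at h3
      exact h3
    apply hg.2
    rcases hX.cent c hc.1 g h2 with h3 | h3
    · rw [h3]
      exact Subgroup.one_mem _
    · rw [h3]
      exact (mem_kerMap κ c).2 ⟨hc.2, hκc c hc.1 hc.2⟩
  obtain ⟨H, hH⟩ := ProfiniteGrp.exist_openNormalSubgroup_sub_open_nhds_of_one hS.isOpen_compl h1S
  let W₀ : Subgroup G := (H : Subgroup G) ⊓ κ.ker.map U.subtype
  have hW₀ : IsOpen (W₀ : Set G) := by
    change IsOpen (((H : Subgroup G) ⊓ κ.ker.map U.subtype : Subgroup G) : Set G)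
    rw [Subgroup.coe_inf]
    exact H.isOpen'.inter hκ
  let N : Subgroup U := W₀.subgroupOf U
  have hNmem : ∀ x : U, x ∈ N ↔ (x : G) ∈ H ∧ κ x = 1 := by
    intro x
    rw [Subgroup.mem_subgroupOf]
    constructor
    · rintro ⟨h1, h2⟩
      obtain ⟨_, h3⟩ := (mem_kerMap κ _).1 h2
      exact ⟨h1, h3⟩
    · rintro ⟨h1, h2⟩
      exact ⟨h1, (mem_kerMap κ _).2 ⟨x.2, h2⟩⟩
  have hNn : N.Normal := by
    refine ⟨fun x hx g => ?_⟩
    rw [hNmem] at hx ⊢
    refine ⟨H.isNormal'.conj_mem _ hx.1 (g : G), ?_⟩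
    rw [map_mul, map_mul, hx.2, mul_one, map_inv, mul_inv_cancel]
  have hfin : Finite (U ⧸ N) := finite_quot hW₀
  have hNo : IsOpen ((N.map U.subtype : Subgroup G) : Set G) := by
    have h1 : N.map U.subtype = W₀ ⊓ U := Subgroup.subgroupOf_map_subtype W₀ U
    rw [h1, Subgroup.coe_inf]
    exact hW₀.inter hU
  let E : G → ℂ := lin U κ - lin U 1
  have hE : Cl U E := (lin_cl U _).sub (lin_cl U _)
  let M : (U ⧸ N → ℂ) →+ (G → ℂ) := AddMonoidHom.mk' (fun f => infl N f * E) (fun a b => by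
    rw [infl_add, add_mul])
  have h1 : PN (U ⧸ N) ≤ (T U).comap M := by
    rw [PN, AddSubgroup.closure_le]
    rintro f ⟨V, ψ, hV, rfl⟩
    rw [SetLike.mem_coe, AddSubgroup.mem_comap]
    change infl N (Pool.Agent.R389.ind V (fun h => ((ψ h : ℂˣ) : ℂ))) * E ∈ T U
    have hWo : IsOpen (WW N V : Set G) := WW_open hNo V
    have hfq : Finite (U ⧸ (WW N V).subgroupOf U) := finite_quot hWo
    rw [infl_ind, ← Ind_mul U (WW N V) (lin (WW N V) (psiW V ψ)) hE.conj]
    have hcl : Cl (WW N V) (lin (WW N V) (psiW V ψ) * E) :=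
      (lin_cl _ _).mul fun v hv g => hE.conj v (WW_le V hv) g
    refine h.ind U (WW N V) hU le_rfl hWo (WW_le V) _ hcl ?_
    by_cases hc : ∃ c ∈ X, c ∈ WW N V
    · obtain ⟨c, hcX, hcW⟩ := hc
      have hzero : lin (WW N V) (psiW V ψ) * E = 0 := by
        funext g
        rw [Pi.mul_apply]
        by_cases hg : g ∈ WW N V
        swap
        · rw [lin_not _ hg, zero_mul]
          rfl
        obtain ⟨hgU, hgV⟩ := mem_WW.1 hg
        obtain ⟨hcU, hcV⟩ := mem_WW.1 hcW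
        have h2 : κ ⟨g, hgU⟩ = 1 := by
          -- a power of `g` of odd order modulo `N`
          let _ : Fintype V := Fintype.ofFinite V
          have hcard : Nat.card V ≠ 0 := Nat.card_pos.ne'
          obtain ⟨j, n, hn, hjn⟩ := Nat.exists_eq_two_pow_mul_odd hcard
          let gb : V := ⟨QuotientGroup.mk ⟨g, hgU⟩, hgV⟩
          let cb : V := ⟨QuotientGroup.mk ⟨c, hcU⟩, hcV⟩
          have h3 : (gb ^ 2 ^ j) ^ n = 1 := by
            rw [← pow_mul, ← hjn]
            exact pow_card_eq_one'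
          have h4 : cb ^ 2 = 1 := by
            apply Subtype.ext
            have h5 : (⟨c, hcU⟩ : U) ^ 2 = 1 := by
              rw [sq]
              exact Subtype.ext (hX.sq c hcX)
            change (QuotientGroup.mk (⟨c, hcU⟩ : U) : U ⧸ N) ^ 2 = 1
            rw [← QuotientGroup.mk_pow, h5, QuotientGroup.mk_one]
          have h5 := nil_commute V (gb ^ 2 ^ j) cb n 2 h3 h4 hn.coprime_two_right
          have h6 := congrArg Subtype.val h5
          change (QuotientGroup.mk (⟨g, hgU⟩ : U) : U ⧸ N) ^ 2 ^ j * QuotientGroup.mk (⟨c, hcU⟩ : U) =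
            QuotientGroup.mk (⟨c, hcU⟩ : U) * (QuotientGroup.mk (⟨g, hgU⟩ : U) : U ⧸ N) ^ 2 ^ j at h6
          rw [← QuotientGroup.mk_pow, ← QuotientGroup.mk_mul, ← QuotientGroup.mk_mul] at h6
          have h7 : (⟨g, hgU⟩ : U) ^ 2 ^ j * ⟨c, hcU⟩ * ((⟨g, hgU⟩ : U) ^ 2 ^ j)⁻¹ * (⟨c, hcU⟩ : U)⁻¹ ∈ N := by
            have h8 : (QuotientGroup.mk ((⟨g, hgU⟩ : U) ^ 2 ^ j * ⟨c, hcU⟩ * ((⟨g, hgU⟩ : U) ^ 2 ^ j)⁻¹ *
              (⟨c, hcU⟩ : U)⁻¹) : U ⧸ N) = 1 := by
              rw [QuotientGroup.mk_mul, QuotientGroup.mk_mul, h6, QuotientGroup.mk_mul,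
                QuotientGroup.mk_inv, QuotientGroup.mk_inv]
              group
            exact (QuotientGroup.eq_one_iff _).1 h8
          have h8 := ((hNmem _).1 h7).1
          have h9 : κ ((⟨g, hgU⟩ : U) ^ 2 ^ j) = 1 := by
            by_contra hne
            refine hH h8 ⟨(g ^ 2 ^ j, c), ⟨⟨U.pow_mem hgU _, ?_⟩, hcX, hcU⟩, rfl⟩
            intro h10
            obtain ⟨h11, h12⟩ := (mem_kerMap κ _).1 h10
            exact hne h12
          rw [map_pow] at h9
          exact hodd _ (hκm _) j h9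
        have h3 : E g = 0 := by
          change lin U κ g - lin U 1 g = 0
          rw [lin_mem _ hgU, lin_mem _ hgU, h2, MonoidHom.one_apply, sub_self]
        rw [h3, mul_zero]
        rfl
      rw [hzero]
      exact zero_mem _
    · push Not at hc
      have h2 : lin (WW N V) (psiW V ψ) * E = lin (WW N V) (psiW V ψ * res (WW_le V) κ) -
          lin (WW N V) (psiW V ψ * res (WW_le V) 1) := by
        change lin (WW N V) (psiW V ψ) * (lin U κ - lin U 1) = _
        rw [mul_sub, lin_mul, lin_mul, lin_res_mul (WW_le V) _ (lin_cl _ _),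
          lin_res_mul (WW_le V) _ (lin_cl _ _)]
      rw [h2]
      exact sub_mem (h.cpx _ hWo (WW_le V) hc _ ((psiW_open hNo V ψ).mul (hκ.res (WW_le V) hWo)))
        (h.cpx _ hWo (WW_le V) hc _ ((psiW_open hNo V ψ).mul ((openKer_one hU).res (WW_le V) hWo)))
  have h2 := h1 one_mem_pn
  rw [AddSubgroup.mem_comap] at h2
  have h3 : M (fun _ => 1) = E := by
    change infl N (fun _ => 1) * E = E
    funext g
    rw [Pi.mul_apply]
    by_cases hg : g ∈ U
    · rw [infl_mem _ hg, one_mul]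
    · rw [hE.supp g hg, mul_zero]
  rwa [h3] at h2

end Pool.Agent.N770.SK
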