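import Pool.Agent.N770.SK.Core
import Pool.Agent.R389.Brauer

/-!
# A parity functional on the characters of a finite group
-/

set_option autoImplicit false
set_option linter.unusedSectionVars false

namespace Pool.Agent.N770.SK

open MulAction Finset

/-- orbits: a weighted count of the points -/
lemma orbit_count (H X : Type) [Group H] [Fintype H] [Fintype X] [MulAction H X] (M : X → ℕ)
    (hM : ∀ (h : H) x, M (h • x) = M x) :
    Fintype.card H ∣ ∑ x, Nat.card (stabilizer H x) * M x := by
  classical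
  rw [← Finset.sum_fiberwise Finset.univ (fun x : X => (Quotient.mk'' x : orbitRel.Quotient H X))]
  refine Finset.dvd_sum fun ω _ => ?_
  obtain ⟨x₀, rfl⟩ := Quotient.exists_rep ω
  have h1 : ∀ x ∈ Finset.univ.filter (fun x : X => (Quotient.mk'' x : orbitRel.Quotient H X) = ⟦x₀⟧),
      Nat.card (stabilizer H x) * M x = Nat.card (stabilizer H x₀) * M x₀ := by
    intro x hx
    have h2 : (orbitRel H X) x x₀ := Quotient.exact' (Finset.mem_filter.1 hx).2
    rw [orbitRel_apply] at h2
    obtain ⟨h, rfl⟩ := h2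
    have h3 : Nat.card (stabilizer H (h • x₀)) = Nat.card (stabilizer H x₀) :=
      (Nat.card_congr (stabilizerEquivStabilizer (g := h) rfl).toEquiv).symm
    change Nat.card (stabilizer H (h • x₀)) * M (h • x₀) = _
    rw [h3, hM]
  rw [Finset.sum_congr rfl h1, Finset.sum_const, smul_eq_mul, ← mul_assoc]
  refine Dvd.dvd.mul_right ?_ _
  have h4 : (Finset.univ.filter (fun x : X => (Quotient.mk'' x : orbitRel.Quotient H X) = ⟦x₀⟧)).card =
      Fintype.card (orbit H x₀) := by
    rw [← Fintype.card_subtype]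
    refine Fintype.card_congr (Equiv.subtypeEquivRight fun x => ?_)
    constructor
    · intro h5
      have h2 : (orbitRel H X) x x₀ := Quotient.exact' h5
      rwa [orbitRel_apply] at h2
    · intro h5
      exact Quotient.sound' (by rw [orbitRel_apply]; exact h5)
  rw [h4, Nat.card_eq_fintype_card, card_orbit_mul_card_stabilizer_eq_card_group]

/-- proper subgroups of a 2-group are contained in the kernel of a quadratic character -/
lemma exists_quad {P : Type} [Group P] [Finite P] (hP : IsPGroup 2 P) {Q : Subgroup P} (hQ : Q ≠ ⊤) :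
    ∃ ε : P →* ℤˣ, (∀ q ∈ Q, ε q = 1) ∧ ε ≠ 1 := by
  classical
  obtain ⟨n, hn⟩ := (IsPGroup.iff_card).1 hP
  obtain ⟨k, hk⟩ := (IsPGroup.iff_card).1 (hP.to_subgroup Q)
  have hkn : k < n := by
    by_contra h
    push Not at h
    apply hQ
    have h1 : Nat.card P ≤ Nat.card Q := by
      rw [hn, hk]
      exact Nat.pow_le_pow_right (by norm_num) h
    exact Subgroup.eq_top_of_le_card Q h1
  obtain ⟨M, hM, hQM⟩ := Sylow.exists_subgroup_card_pow_prime_le (G := P) 2 (n := k) (m := n - 1)
    (by rw [hn]; exact pow_dvd_pow 2 (Nat.sub_le n 1)) Q hk (by omega)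
  have hidx : M.index = 2 := by
    have h1 := M.card_mul_index
    rw [hM, hn] at h1
    have h2 : 2 ^ n = 2 ^ (n - 1) * 2 := by
      rw [← pow_succ]
      congr 1
      omega
    rw [h2] at h1
    exact Nat.eq_of_mul_eq_mul_left (by positivity) h1
  have hne : M ≠ ⊤ := by
    rintro rfl
    rw [Subgroup.index_top] at hidx
    norm_num at hidx
  let ε : P →* ℤˣ := MonoidHom.mk' (fun x => if x ∈ M then 1 else -1) (by
    intro x y
    have h1 := Subgroup.mul_mem_iff_of_index_two hidx (a := x) (b := y)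
    by_cases hx : x ∈ M <;> by_cases hy : y ∈ M <;> simp [h1, hx, hy])
  refine ⟨ε, fun q hq => if_pos (hQM hq), fun h => hne ?_⟩
  rw [Subgroup.eq_top_iff']
  intro x
  by_contra hx
  have h1 := DFunLike.congr_fun h x
  have h2 : ε x = -1 := if_neg hx
  rw [h2, MonoidHom.one_apply] at h1
  exact absurd h1 (by decide)

section finite

variable {Δ : Type} [Group Δ] [Fintype Δ]

/-- the multiplicity of the linear character `l` of `P` in `θ` -/
noncomputable def mult (P : Subgroup Δ) (l : P →* ℂˣ) (θ : Δ → ℂ) : ℂ :=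
  (Nat.card P : ℂ)⁻¹ * ∑ᶠ p : P, θ p * (((l p)⁻¹ : ℂˣ) : ℂ)

/-- the sum of the multiplicities of the characters `l ε` -/
noncomputable def par (P : Subgroup Δ) (l : P →* ℂˣ) (θ : Δ → ℂ) : ℂ :=
  ∑ᶠ ε : P →* ℤˣ, mult P (l * qc.comp ε) θ

lemma mult_add (P : Subgroup Δ) (l : P →* ℂˣ) (θ θ' : Δ → ℂ) :
    mult P l (θ + θ') = mult P l θ + mult P l θ' := by
  classical
  let _ : Fintype P := Fintype.ofFinite P
  rw [mult, mult, mult, finsum_eq_sum_of_fintype, finsum_eq_sum_of_fintype, finsum_eq_sum_of_fintype,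
    ← mul_add, ← Finset.sum_add_distrib]
  congr 1
  exact Finset.sum_congr rfl fun p _ => by rw [Pi.add_apply, add_mul]

instance finite_quads {P : Type} [Group P] [Finite P] : Finite (P →* ℤˣ) := DFunLike.finite _

lemma par_add (P : Subgroup Δ) (l : P →* ℂˣ) (θ θ' : Δ → ℂ) :
    par P l (θ + θ') = par P l θ + par P l θ' := by
  classical
  let _ : Fintype (P →* ℤˣ) := Fintype.ofFinite _
  rw [par, par, par, finsum_eq_sum_of_fintype, finsum_eq_sum_of_fintype, finsum_eq_sum_of_fintype,
    ← Finset.sum_add_distrib]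
  exact Finset.sum_congr rfl fun ε _ => mult_add _ _ _ _

/-- orthogonality -/
lemma mult_lin (P : Subgroup Δ) (l : P →* ℂˣ) {θ : Δ → ℂ} (f : P →* ℂˣ)
    (hf : ∀ p : P, θ p = ((f p : ℂˣ) : ℂ)) [Decidable (f = l)] : mult P l θ = if f = l then 1 else 0 := by
  classical
  let _ : Fintype P := Fintype.ofFinite P
  have h0 : (Nat.card P : ℂ) ≠ 0 := by
    have := Nat.card_pos (α := P)
    exact_mod_cast this.ne'
  rw [mult, finsum_eq_sum_of_fintype]
  let F : P →* ℂ := (Units.coeHom ℂ).comp (f * l⁻¹)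
  have h1 : ∀ p : P, θ p * (((l p)⁻¹ : ℂˣ) : ℂ) = F p := by
    intro p
    rw [hf, ← Units.val_mul]
    rfl
  have h2 : F = 1 ↔ f = l := by
    constructor
    · intro h
      apply MonoidHom.ext
      intro p
      have h3 : ((f p * (l p)⁻¹ : ℂˣ) : ℂ) = 1 := DFunLike.congr_fun h p
      exact mul_inv_eq_one.1 (Units.ext h3)
    · rintro rfl
      apply MonoidHom.ext
      intro p
      change ((f p * (f p)⁻¹ : ℂˣ) : ℂ) = 1
      rw [mul_inv_cancel, Units.val_one]
  rw [Finset.sum_congr rfl fun p _ => h1 p, sum_hom_units F]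
  by_cases h : f = l
  · rw [if_pos (h2.2 h), if_pos h, Nat.card_eq_fintype_card, inv_mul_cancel₀ (by
      rw [← Nat.card_eq_fintype_card]; exact h0)]
  · rw [if_neg (fun h' => h (h2.1 h')), if_neg h]
    simp

end finite

end Pool.Agent.N770.SK
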