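import Pool.Agent.N770.SK.Sharp1

/-!
# The parity functional is even on the induced characters
-/

set_option autoImplicit false
set_option linter.unusedSectionVars false
set_option warn.classDefReducibility false

namespace Pool.Agent.N770.SK

open MulAction Finset

section finite

variable {Δ : Type} [Group Δ] [Fintype Δ]

/-- the part of `P` which is conjugated into `W` by `x` -/
def Px (P W : Subgroup Δ) (x : Δ) : Subgroup P :=
  (W.comap (MulAut.conj x⁻¹).toMonoidHom).subgroupOf P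

lemma mem_Px {P W : Subgroup Δ} {x : Δ} (p : P) : p ∈ Px P W x ↔ x⁻¹ * p * x ∈ W := by
  rw [Px, Subgroup.mem_subgroupOf, Subgroup.mem_comap]
  change x⁻¹ * p * x⁻¹⁻¹ ∈ W ↔ _
  rw [inv_inv]

/-- the conjugated character -/
def psix {P W : Subgroup Δ} (ψ : W →* ℂˣ) (x : Δ) : Px P W x →* ℂˣ where
  toFun r := ψ ⟨x⁻¹ * (r : P) * x, (mem_Px _).1 r.2⟩
  map_one' := by
    rw [← map_one ψ]
    congr 1
    apply Subtype.ext
    simp
  map_mul' a b := by
    rw [← map_mul ψ]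
    congr 1
    apply Subtype.ext
    simp [mul_assoc]

/-- the compatible twists -/
def Match {P W : Subgroup Δ} (l : P →* ℂˣ) (ψ : W →* ℂˣ) (x : Δ) (ε : P →* ℤˣ) : Prop :=
  ∀ r : Px P W x, psix ψ x r = l (r : P) * qc (ε (r : P))

/-- the number of compatible twists -/
noncomputable def numM {P W : Subgroup Δ} (l : P →* ℂˣ) (ψ : W →* ℂˣ) (x : Δ) : ℕ :=
  Nat.card {ε : P →* ℤˣ // Match l ψ x ε}

/-- the action of `P × W` on the group -/
def pw (P W : Subgroup Δ) : MulAction (P × W) Δ where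
  smul h x := h.1 * x * (h.2 : Δ)⁻¹
  one_smul x := by
    change ((1 : P) : Δ) * x * (((1 : W) : Δ))⁻¹ = x
    simp
  mul_smul g h x := by
    change ((g.1 * h.1 : P) : Δ) * x * (((g.2 * h.2 : W) : Δ))⁻¹ = (g.1 : Δ) * ((h.1 : Δ) * x * (h.2 : Δ)⁻¹) * (g.2 : Δ)⁻¹
    push_cast
    group

lemma numM_inv {P W : Subgroup Δ} (l : P →* ℂˣ) (ψ : W →* ℂˣ) (p : P) (w : W) (x : Δ) :
    numM l ψ ((p : Δ) * x * (w : Δ)⁻¹) = numM l ψ x := by
  have key : ∀ (p : P) (w : W) (x : Δ) (ε : P →* ℤˣ), Match l ψ x ε → Match l ψ ((p : Δ) * x * (w : Δ)⁻¹) ε := by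
    intro p w x ε h r
    have h1 : x⁻¹ * ((p⁻¹ * (r : P) * p : P) : Δ) * x ∈ W := by
      have h2 := (mem_Px _).1 r.2
      have h3 := W.mul_mem (W.mul_mem (W.inv_mem w.2) h2) w.2
      have h4 : (w : Δ)⁻¹ * (((p : Δ) * x * (w : Δ)⁻¹)⁻¹ * ((r : P) : Δ) * ((p : Δ) * x * (w : Δ)⁻¹)) * (w : Δ) =
          x⁻¹ * ((p⁻¹ * (r : P) * p : P) : Δ) * x := by
        push_cast
        group
      rwa [h4] at h3
    have h2 := h ⟨p⁻¹ * (r : P) * p, (mem_Px _).2 h1⟩
    have h3 : psix ψ x ⟨p⁻¹ * (r : P) * p, (mem_Px _).2 h1⟩ = psix ψ ((p : Δ) * x * (w : Δ)⁻¹) r := by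
      change ψ ⟨x⁻¹ * ((p⁻¹ * (r : P) * p : P) : Δ) * x, h1⟩ = ψ ⟨_, _⟩
      have h4 : (⟨x⁻¹ * ((p⁻¹ * (r : P) * p : P) : Δ) * x, h1⟩ : W) = w⁻¹ *
          ⟨((p : Δ) * x * (w : Δ)⁻¹)⁻¹ * ((r : P) : Δ) * ((p : Δ) * x * (w : Δ)⁻¹), (mem_Px _).1 r.2⟩ * w := by
        apply Subtype.ext
        push_cast
        group
      rw [h4, map_mul, map_mul, map_inv, mul_comm (ψ w)⁻¹, inv_mul_cancel_right]
    rw [← h3, h2]
    simp only [map_mul, map_inv]
    rw [mul_comm (l p)⁻¹, inv_mul_cancel_right, mul_comm (qc (ε p))⁻¹, inv_mul_cancel_right]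
  refine Nat.card_congr (Equiv.subtypeEquivRight fun ε => ⟨fun h => ?_, key p w x ε⟩)
  have h1 := key p⁻¹ w⁻¹ _ ε h
  have h2 : ((p⁻¹ : P) : Δ) * ((p : Δ) * x * (w : Δ)⁻¹) * ((w⁻¹ : W) : Δ)⁻¹ = x := by
    push_cast
    group
  rwa [h2] at h1

/-- the number of compatible twists is even -/
lemma numM_even {c : Δ} {P : Subgroup Δ} (hP : IsPGroup 2 P) (hc : c ∈ P) {l : P →* ℂˣ}
    (hl : ∃ p, l p ^ 2 ≠ 1) {W : Subgroup Δ} {ψ : W →* ℂˣ}
    (h : (∀ x, x⁻¹ * c * x ∉ W) ∨ ∀ w, ψ w ^ 2 = 1) (x : Δ) : Even (numM l ψ x) := by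
  classical
  let _ : Fintype (P →* ℤˣ) := Fintype.ofFinite _
  by_cases hx : Px P W x = ⊤
  · -- no twists at all
    have h1 : ∀ p : P, p ∈ Px P W x := fun p => hx ▸ Subgroup.mem_top p
    have h2 : ∀ w, ψ w ^ 2 = 1 := by
      rcases h with h | h
      · exact absurd ((mem_Px ⟨c, hc⟩).1 (h1 _)) (h x)
      · exact h
    have h3 : IsEmpty {ε : P →* ℤˣ // Match l ψ x ε} := by
      refine ⟨fun ⟨ε, hε⟩ => ?_⟩
      obtain ⟨p, hp⟩ := hl
      apply hp
      have h4 := hε ⟨p, h1 p⟩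
      have h5 : (l p * qc (ε p)) ^ 2 = 1 := by
        rw [← h4]
        exact h2 _
      have h6 : qc (ε p) ^ 2 = 1 := by
        rw [← map_pow]
        rcases Int.units_eq_one_or (ε p) with h7 | h7 <;> rw [h7] <;> simp
      rwa [mul_pow, h6, mul_one] at h5
    rw [numM, Nat.card_of_isEmpty]
    exact Even.zero
  · obtain ⟨η, hη1, hη2⟩ := exists_quad hP hx
    have h1 : ∀ ε, Match l ψ x ε → Match l ψ x (ε * η) := by
      intro ε hε r
      rw [hε r, MonoidHom.mul_apply, hη1 _ r.2, mul_one]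
    have hηη : η * η = 1 := by
      apply MonoidHom.ext
      intro p
      rw [MonoidHom.mul_apply, MonoidHom.one_apply]
      rcases Int.units_eq_one_or (η p) with h7 | h7 <;> rw [h7] <;> decide
    have h2 : ∀ ε : P →* ℤˣ, ε * η * η = ε := fun ε => by rw [mul_assoc, hηη, mul_one]
    rw [numM, Nat.card_eq_fintype_card, Fintype.card_subtype]
    have h3 : ((Finset.univ.filter fun ε : P →* ℤˣ => Match l ψ x ε).card : ZMod 2) = 0 := by
      rw [Finset.card_eq_sum_ones, Nat.cast_sum]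
      refine Finset.sum_involution (fun ε _ => ε * η) ?_ ?_ ?_ ?_
      · intro ε _
        decide
      · intro ε _ _ h4
        exact hη2 (mul_eq_left.1 h4)
      · intro ε hε
        rw [Finset.mem_filter] at hε ⊢
        exact ⟨Finset.mem_univ _, h1 ε hε.2⟩
      · intro ε _
        exact h2 ε
    exact (ZMod.natCast_eq_zero_iff_even).1 h3

/-- the stabilizers -/
lemma card_stab (P W : Subgroup Δ) (x : Δ) :
    Nat.card (@stabilizer (P × W) Δ _ (pw P W) x) = Nat.card (Px P W x) := by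
  have hmem : ∀ h : P × W, h ∈ @stabilizer (P × W) Δ _ (pw P W) x ↔ (h.1 : Δ) * x * (h.2 : Δ)⁻¹ = x :=
    fun _ => Iff.rfl
  refine Nat.card_congr ⟨fun h => ⟨h.1.1, ?_⟩, fun r => ⟨((r : P), ⟨x⁻¹ * (r : P) * x, (mem_Px _).1 r.2⟩), ?_⟩, ?_, ?_⟩
  · have h1 := (hmem _).1 h.2
    rw [mem_Px]
    have h2 : x⁻¹ * (h.1.1 : Δ) * x = (h.1.2 : Δ) := by
      have h3 : (h.1.1 : Δ) * x = x * (h.1.2 : Δ) := mul_inv_eq_iff_eq_mul.1 h1
      rw [mul_assoc, h3, inv_mul_cancel_left]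
    rw [h2]
    exact h.1.2.2
  · rw [hmem]
    change ((r : P) : Δ) * x * (x⁻¹ * (r : P) * x)⁻¹ = x
    group
  · rintro ⟨⟨p, w⟩, h⟩
    have h1 := (hmem _).1 h
    apply Subtype.ext
    refine Prod.ext rfl ?_
    apply Subtype.ext
    change x⁻¹ * (p : Δ) * x = (w : Δ)
    have h3 : (p : Δ) * x = x * (w : Δ) := mul_inv_eq_iff_eq_mul.1 h1
    rw [mul_assoc, h3, inv_mul_cancel_left]
  · intro r
    rfl

/-- the inner sums -/
lemma inner {P W : Subgroup Δ} (l : P →* ℂˣ) (ψ : W →* ℂˣ) (x : Δ) [Fintype P] (ε : P →* ℤˣ)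
    [Decidable (Match l ψ x ε)] :
    ∑ p : P, Pool.Agent.R389.ext W (fun w => ((ψ w : ℂˣ) : ℂ)) (x⁻¹ * p * x) *
      ((((l * qc.comp ε) p)⁻¹ : ℂˣ) : ℂ) = if Match l ψ x ε then (Nat.card (Px P W x) : ℂ) else 0 := by
  classical
  let _ : Fintype (Px P W x) := Fintype.ofFinite _
  let F : Px P W x →* ℂ := (Units.coeHom ℂ).comp (psix ψ x * ((l * qc.comp ε).comp (Px P W x).subtype)⁻¹)
  have h1 : ∑ p : P, Pool.Agent.R389.ext W (fun w => ((ψ w : ℂˣ) : ℂ)) (x⁻¹ * p * x) *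
      ((((l * qc.comp ε) p)⁻¹ : ℂˣ) : ℂ) = ∑ r : Px P W x, F r := by
    have h2 : ∀ p : P, Pool.Agent.R389.ext W (fun w => ((ψ w : ℂˣ) : ℂ)) (x⁻¹ * p * x) *
      ((((l * qc.comp ε) p)⁻¹ : ℂˣ) : ℂ) = if h : p ∈ Px P W x then F ⟨p, h⟩ else 0 := by
      intro p
      by_cases h : p ∈ Px P W x
      · rw [dif_pos h, Pool.Agent.R389.ext_mem _ _ ((mem_Px p).1 h)]
        change _ = ((psix ψ x ⟨p, h⟩ * ((l * qc.comp ε) p)⁻¹ : ℂˣ) : ℂ)
        rw [Units.val_mul]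
        rfl
      · rw [dif_neg h, Pool.Agent.R389.ext_not _ _ (fun h' => h ((mem_Px p).2 h')), zero_mul]
    rw [Finset.sum_congr rfl fun p _ => h2 p]
    have h3 : ∑ p : P, (if h : p ∈ Px P W x then F ⟨p, h⟩ else 0) = ∑ p ∈ Finset.univ.filter (fun p => p ∈ Px P W x),
        (if h : p ∈ Px P W x then F ⟨p, h⟩ else 0) := by
      rw [Finset.sum_filter]
      refine Finset.sum_congr rfl fun p _ => ?_
      by_cases h : p ∈ Px P W x
      · rw [if_pos h]
      · rw [if_neg h, dif_neg h]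
    rw [h3]
    refine Finset.sum_bij' (fun p hp => ⟨p, (Finset.mem_filter.1 hp).2⟩) (fun r _ => (r : P)) ?_ ?_ ?_ ?_ ?_
    · intro p _
      exact Finset.mem_univ _
    · intro r _
      exact Finset.mem_filter.2 ⟨Finset.mem_univ _, r.2⟩
    · intro p _
      rfl
    · intro r _
      rfl
    · intro p hp
      rw [dif_pos (Finset.mem_filter.1 hp).2]
  have h2 : F = 1 ↔ Match l ψ x ε := by
    constructor
    · intro h r
      have h3 : ((psix ψ x r * ((l * qc.comp ε) (r : P))⁻¹ : ℂˣ) : ℂ) = 1 := DFunLike.congr_fun h r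
      exact mul_inv_eq_one.1 (Units.ext h3)
    · intro h
      apply MonoidHom.ext
      intro r
      change ((psix ψ x r * ((l * qc.comp ε) (r : P))⁻¹ : ℂˣ) : ℂ) = 1
      have h3 : psix ψ x r = (l * qc.comp ε) (r : P) := h r
      rw [h3, mul_inv_cancel, Units.val_one]
  rw [h1, sum_hom_units F]
  by_cases h : Match l ψ x ε
  · rw [if_pos (h2.2 h), if_pos h, Nat.card_eq_fintype_card]
  · rw [if_neg (fun h' => h (h2.1 h')), if_neg h, Nat.cast_zero]

/-- **The parity functional is even on the induced characters.** -/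
theorem par_ind {c : Δ} {P : Subgroup Δ} (hP : IsPGroup 2 P) (hc : c ∈ P) {l : P →* ℂˣ}
    (hl : ∃ p, l p ^ 2 ≠ 1) {W : Subgroup Δ} (ψ : W →* ℂˣ)
    (h : (∀ x, x⁻¹ * c * x ∉ W) ∨ ∀ w, ψ w ^ 2 = 1) :
    ∃ k : ℤ, par P l (Pool.Agent.R389.ind W (fun w => ((ψ w : ℂˣ) : ℂ))) = 2 * k := by
  classical
  let _ : Fintype P := Fintype.ofFinite P
  let _ : Fintype W := Fintype.ofFinite W
  let _ : Fintype (P →* ℤˣ) := Fintype.ofFinite _
  have hP0 : (Nat.card P : ℂ) ≠ 0 := by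
    have := Nat.card_pos (α := P)
    exact_mod_cast this.ne'
  have hW0 : (Nat.card W : ℂ) ≠ 0 := by
    have := Nat.card_pos (α := W)
    exact_mod_cast this.ne'
  -- the number of twists is even
  have hev : ∀ x, numM l ψ x = 2 * (numM l ψ x / 2) := fun x =>
    (Nat.mul_div_cancel' (numM_even hP hc hl h x).two_dvd).symm
  let _ : MulAction (P × W) Δ := pw P W
  obtain ⟨k, hk⟩ := orbit_count (P × W) Δ (fun x => numM l ψ x / 2) (fun g x => by
    change numM l ψ ((g.1 : Δ) * x * (g.2 : Δ)⁻¹) / 2 = numM l ψ x / 2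
    rw [numM_inv])
  have hk2 : ∑ x : Δ, (Nat.card (Px P W x) : ℂ) * (numM l ψ x : ℂ) = 2 * ((Nat.card P * Nat.card W : ℕ) : ℂ) * k := by
    have h1 : ∑ x : Δ, Nat.card (Px P W x) * numM l ψ x = 2 * (Fintype.card (P × W) * k) := by
      rw [← hk, Finset.mul_sum]
      refine Finset.sum_congr rfl fun x _ => ?_
      rw [card_stab P W x]
      conv_lhs => rw [hev x]
      ring
    have h2 := congrArg (Nat.cast : ℕ → ℂ) h1
    rw [Fintype.card_prod, ← Nat.card_eq_fintype_card, ← Nat.card_eq_fintype_card] at h2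
    push_cast at h2 ⊢
    rw [h2]
    ring
  refine ⟨k, ?_⟩
  have hmain : (Nat.card P : ℂ) * (Nat.card W : ℂ) * par P l (Pool.Agent.R389.ind W (fun w => ((ψ w : ℂˣ) : ℂ))) =
      ∑ x : Δ, (Nat.card (Px P W x) : ℂ) * (numM l ψ x : ℂ) := by
    have h1 : ∀ x : Δ, (Nat.card (Px P W x) : ℂ) * (numM l ψ x : ℂ) =
        ∑ ε : P →* ℤˣ, ∑ p : P, Pool.Agent.R389.ext W (fun w => ((ψ w : ℂˣ) : ℂ)) (x⁻¹ * p * x) *
          ((((l * qc.comp ε) p)⁻¹ : ℂˣ) : ℂ) := by
      intro x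
      rw [Finset.sum_congr rfl fun ε _ => inner l ψ x ε, ← Finset.sum_filter, Finset.sum_const, nsmul_eq_mul,
        numM, Nat.card_eq_fintype_card (α := {ε : P →* ℤˣ // Match l ψ x ε}), Fintype.card_subtype, mul_comm]
    rw [Finset.sum_congr rfl fun x _ => h1 x, Finset.sum_comm, par, finsum_eq_sum_of_fintype, Finset.mul_sum]
    refine Finset.sum_congr rfl fun ε _ => ?_
    rw [Finset.sum_comm, mult, finsum_eq_sum_of_fintype]
    rw [mul_assoc, mul_left_comm (Nat.card W : ℂ), ← mul_assoc, mul_inv_cancel₀ hP0, one_mul, Finset.mul_sum]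
    refine Finset.sum_congr rfl fun p _ => ?_
    rw [Pool.Agent.R389.ind_eq, ← mul_assoc, ← mul_assoc, mul_inv_cancel₀ hW0, one_mul, Finset.sum_mul]
  rw [hk2] at hmain
  have h3 : (Nat.card P : ℂ) * (Nat.card W : ℂ) ≠ 0 := mul_ne_zero hP0 hW0
  apply mul_left_cancel₀ h3
  rw [hmain]
  push_cast
  ring

/-- the value on a linear character -/
lemma par_lin (P : Subgroup Δ) (l : P →* ℂˣ) {θ : Δ → ℂ} (hθ : ∀ p : P, θ p = ((l p : ℂˣ) : ℂ)) :
    par P l θ = 1 := by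
  classical
  let _ : Fintype (P →* ℤˣ) := Fintype.ofFinite _
  rw [par, finsum_eq_sum_of_fintype, Finset.sum_congr rfl fun ε _ => mult_lin P (l * qc.comp ε) l hθ,
    Finset.sum_eq_single 1]
  · rw [if_pos]
    apply MonoidHom.ext
    intro p
    simp
  · intro ε _ hε
    rw [if_neg]
    intro h
    apply hε
    apply MonoidHom.ext
    intro p
    have h1 := DFunLike.congr_fun h p
    rw [MonoidHom.mul_apply, MonoidHom.comp_apply] at h1
    have h2 := mul_eq_left.1 h1.symm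
    rcases Int.units_eq_one_or (ε p) with h3 | h3
    · exact h3
    · exfalso
      rw [h3] at h2
      have h4 := congrArg Units.val h2
      rw [qc_val] at h4
      norm_num at h4
  · intro h
    exact absurd (Finset.mem_univ _) h

lemma par_lin_zero (P : Subgroup Δ) (l : P →* ℂˣ) {θ : Δ → ℂ} (f : P →* ℂˣ) (hθ : ∀ p : P, θ p = ((f p : ℂˣ) : ℂ))
    (h : ∃ p, f p ^ 2 ≠ l p ^ 2) : par P l θ = 0 := by
  classical
  let _ : Fintype (P →* ℤˣ) := Fintype.ofFinite _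
  rw [par, finsum_eq_sum_of_fintype, Finset.sum_congr rfl fun ε _ => mult_lin P (l * qc.comp ε) f hθ]
  refine Finset.sum_eq_zero fun ε _ => if_neg ?_
  intro h1
  obtain ⟨p, hp⟩ := h
  apply hp
  have h6 : qc (ε p) ^ 2 = 1 := by
    rw [← map_pow]
    rcases Int.units_eq_one_or (ε p) with h7 | h7 <;> rw [h7] <;> simp
  rw [h1, MonoidHom.mul_apply, MonoidHom.comp_apply, mul_pow, h6, mul_one]

end finite

end Pool.Agent.N770.SK
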