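import Pool.Agent.N770.SK.Sharp2
import Pool.Agent.N770.SK.Final

/-!
# Sharpness of the induction theorem
-/

set_option autoImplicit false
set_option linter.unusedSectionVars false

namespace Pool.Agent.N770.SK

open IntermediateField

section even

variable {G : Type} [Group G] [TopologicalSpace G] [IsTopologicalGroup G] [CompactSpace G]

/-- the parity functionals are even on `θ` at all sufficiently small normal subgroups -/
def EvenAt (V : Subgroup G) (c : V) (θ : G → ℂ) : Prop :=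
  ∃ N₀ : Subgroup G, IsOpen (N₀ : Set G) ∧ ∀ (N : Subgroup V) [N.Normal], Finite (V ⧸ N) →
    N.map V.subtype ≤ N₀ → ∀ P : Subgroup (V ⧸ N), IsPGroup 2 P → (QuotientGroup.mk c : V ⧸ N) ∈ P →
    ∀ l : P →* ℂˣ, (∃ p, l p ^ 2 ≠ 1) → ∃ k : ℤ, par P l (fun q => θ ((q.out : V) : G)) = 2 * k

variable {V : Subgroup G} {c : V}

lemma par_zero {Δ : Type} [Group Δ] [Fintype Δ] (P : Subgroup Δ) (l : P →* ℂˣ) : par P l 0 = 0 := by
  have h1 := par_add P l 0 0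
  rw [add_zero] at h1
  exact left_eq_add.1 h1

lemma par_neg {Δ : Type} [Group Δ] [Fintype Δ] (P : Subgroup Δ) (l : P →* ℂˣ) (θ : Δ → ℂ) :
    par P l (-θ) = - par P l θ := by
  have h1 := par_add P l θ (-θ)
  rw [add_neg_cancel, par_zero] at h1
  exact (neg_eq_of_add_eq_zero_right h1.symm).symm

lemma EvenAt.zero : EvenAt V c 0 := by
  refine ⟨⊤, isOpen_univ, fun N _ hfin _ P _ _ l _ => ⟨0, ?_⟩⟩
  let _ : Fintype (V ⧸ N) := Fintype.ofFinite _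
  have h1 : (fun q : V ⧸ N => (0 : G → ℂ) ((q.out : V) : G)) = 0 := rfl
  rw [h1, par_zero]
  simp

lemma EvenAt.add {θ θ' : G → ℂ} (h : EvenAt V c θ) (h' : EvenAt V c θ') : EvenAt V c (θ + θ') := by
  obtain ⟨N₀, hN₀, h1⟩ := h
  obtain ⟨N₁, hN₁, h2⟩ := h'
  refine ⟨N₀ ⊓ N₁, by rw [Subgroup.coe_inf]; exact hN₀.inter hN₁, fun N _ hfin hN P hP hc l hl => ?_⟩
  let _ : Fintype (V ⧸ N) := Fintype.ofFinite _
  obtain ⟨k, hk⟩ := h1 N hfin (hN.trans inf_le_left) P hP hc l hl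
  obtain ⟨k', hk'⟩ := h2 N hfin (hN.trans inf_le_right) P hP hc l hl
  refine ⟨k + k', ?_⟩
  have h3 : (fun q : V ⧸ N => (θ + θ') ((q.out : V) : G)) =
    (fun q : V ⧸ N => θ ((q.out : V) : G)) + (fun q : V ⧸ N => θ' ((q.out : V) : G)) := rfl
  rw [h3, par_add, hk, hk']
  push_cast
  ring

lemma EvenAt.neg {θ : G → ℂ} (h : EvenAt V c θ) : EvenAt V c (-θ) := by
  obtain ⟨N₀, hN₀, h1⟩ := h
  refine ⟨N₀, hN₀, fun N _ hfin hN P hP hc l hl => ?_⟩
  let _ : Fintype (V ⧸ N) := Fintype.ofFinite _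
  obtain ⟨k, hk⟩ := h1 N hfin hN P hP hc l hl
  refine ⟨-k, ?_⟩
  have h3 : (fun q : V ⧸ N => (-θ) ((q.out : V) : G)) = -(fun q : V ⧸ N => θ ((q.out : V) : G)) := rfl
  rw [h3, par_neg, hk]
  push_cast
  ring

/-- induced characters -/
lemma EvenAt.ind {W : Subgroup G} (hWV : W ≤ V) {χ : W →* ℂˣ} (hχ : OpenKer χ)
    (h : (∀ x ∈ V, x⁻¹ * (c : G) * x ∉ W) ∨ ∀ u, χ u ^ 2 = 1) : EvenAt V c (Ind V W (lin W χ)) := by
  classical
  refine ⟨χ.ker.map W.subtype, hχ, fun N _ hfin hN P hP hc l hl => ?_⟩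
  let _ : Fintype (V ⧸ N) := Fintype.ofFinite _
  have hNW : ∀ x : V, x ∈ N → ∃ hx : (x : G) ∈ W, χ ⟨x, hx⟩ = 1 := by
    intro x hx
    exact (mem_kerMap χ _).1 (hN ⟨x, hx, rfl⟩)
  let Wb : Subgroup (V ⧸ N) := (W.subgroupOf V).map (QuotientGroup.mk' N)
  have hmk : ∀ x : V, (QuotientGroup.mk x : V ⧸ N) ∈ Wb ↔ (x : G) ∈ W := by
    intro x
    constructor
    · rintro ⟨y, hy, hyx⟩
      have h1 : y⁻¹ * x ∈ N := QuotientGroup.eq.1 hyx
      obtain ⟨h2, _⟩ := hNW _ h1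
      have h3 := W.mul_mem (Subgroup.mem_subgroupOf.1 hy) h2
      have h4 : (y : G) * ((y⁻¹ * x : V) : G) = (x : G) := by
        push_cast
        group
      rwa [h4] at h3
    · intro hx
      exact ⟨x, Subgroup.mem_subgroupOf.2 hx, rfl⟩
  let ρ : W →* Wb :=
    { toFun := fun w => ⟨QuotientGroup.mk ⟨w, hWV w.2⟩, (hmk _).2 w.2⟩
      map_one' := rfl
      map_mul' := fun _ _ => rfl }
  have hρ : Function.Surjective ρ := by
    rintro ⟨q, hq⟩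
    obtain ⟨x, rfl⟩ := QuotientGroup.mk_surjective q
    exact ⟨⟨x, (hmk x).1 hq⟩, rfl⟩
  have hker : ρ.ker ≤ χ.ker := by
    intro w hw
    have h1 : (QuotientGroup.mk (⟨w, hWV w.2⟩ : V) : V ⧸ N) = 1 := congrArg Subtype.val hw
    obtain ⟨h2, h3⟩ := hNW _ ((QuotientGroup.eq_one_iff _).1 h1)
    exact h3
  let χb : Wb →* ℂˣ := (ρ.liftOfSurjective hρ) ⟨χ, hker⟩
  have hχb : ∀ w, χb (ρ w) = χ w := fun w => MonoidHom.liftOfRightInverse_comp_apply _ _ _ ⟨χ, hker⟩ w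
  have hWW : WW N Wb = W := by
    ext g
    rw [mem_WW]
    constructor
    · rintro ⟨h1, h2⟩
      exact (hmk ⟨g, h1⟩).1 h2
    · intro hg
      exact ⟨hWV hg, (hmk ⟨g, hWV hg⟩).2 hg⟩
  have hlin : lin (WW N Wb) (psiW Wb χb) = lin W χ := by
    funext g
    by_cases hg : g ∈ W
    · have hg' : g ∈ WW N Wb := by rw [hWW]; exact hg
      rw [lin_mem _ hg, lin_mem _ hg', psiW_apply Wb χb g (hWV hg) ((hmk ⟨g, hWV hg⟩).2 hg) hg', ← hχb ⟨g, hg⟩]
      rfl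
    · have hg' : g ∉ WW N Wb := by rw [hWW]; exact hg
      rw [lin_not _ hg, lin_not _ hg']
  have h1 := infl_ind (N := N) Wb χb
  rw [hlin, hWW] at h1
  have h2 : (fun q : V ⧸ N => Ind V W (lin W χ) ((q.out : V) : G)) =
      Pool.Agent.R389.ind Wb (fun w => ((χb w : ℂˣ) : ℂ)) := by
    funext q
    rw [← h1, infl_mem _ (q.out : V).2]
    congr 1
    exact QuotientGroup.out_eq' q
  rw [h2]
  refine par_ind hP hc hl χb ?_
  rcases h with h | h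
  · left
    intro xb
    obtain ⟨x, rfl⟩ := QuotientGroup.mk_surjective xb
    intro h3
    exact h x x.2 ((hmk (x⁻¹ * c * x)).1 h3)
  · right
    intro wb
    obtain ⟨w, rfl⟩ := hρ wb
    rw [hχb, h]

/-- linear characters of finite groups with even difference -/
lemma finite_case {Δ : Type} [Group Δ] [Fintype Δ] {c : Δ} (hc2 : c * c = 1) (a a' : Δ →* ℂˣ)
    (h : ∀ P : Subgroup Δ, IsPGroup 2 P → c ∈ P → ∀ l : P →* ℂˣ, (∃ p, l p ^ 2 ≠ 1) →
      ∃ k : ℤ, par P l ((fun q => ((a q : ℂˣ) : ℂ)) + -(fun q => ((a' q : ℂˣ) : ℂ))) = 2 * k) :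
    ∃ m : ℕ, Odd m ∧ ∀ x, a x ^ (2 * m) = a' x ^ (2 * m) := by
  classical
  have hcb : IsPGroup 2 (Subgroup.zpowers c) := by
    rintro ⟨g, k, rfl⟩
    refine ⟨1, Subtype.ext ?_⟩
    change (c ^ k) ^ 2 ^ 1 = 1
    rw [pow_one, ← zpow_natCast, ← zpow_mul, mul_comm, zpow_mul, zpow_natCast, sq, hc2, one_zpow]
  obtain ⟨Q, hQ⟩ := hcb.exists_le_sylow
  obtain ⟨P, hPc, hPp, hPi⟩ : ∃ P : Subgroup Δ, c ∈ P ∧ IsPGroup 2 P ∧ ¬ 2 ∣ P.index :=
    ⟨Q, hQ (Subgroup.mem_zpowers _), Q.isPGroup', Q.not_dvd_index⟩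
  by_cases hall : ∀ p ∈ P, a p ^ 2 = a' p ^ 2
  · refine ⟨P.index, ?_, ?_⟩
    · rw [← Nat.not_even_iff_odd, even_iff_two_dvd]
      exact hPi
    · intro u
      let r : Δ →* ℂˣ := (a * a'⁻¹) ^ 2
      have hr : ∀ x, r x = (a x * (a' x)⁻¹) ^ 2 := fun _ => rfl
      have h1 : P ≤ r.ker := by
        intro p hp
        rw [MonoidHom.mem_ker, hr, mul_pow, inv_pow, hall p hp, mul_inv_cancel]
      have h2 : r u ^ P.index = 1 := by
        obtain ⟨d, hd⟩ := Subgroup.index_dvd_of_le h1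
        have h3 := r.ker.pow_index_mem u
        rw [MonoidHom.mem_ker, map_pow] at h3
        rw [hd, pow_mul, h3, one_pow]
      rw [hr, ← pow_mul, mul_pow, inv_pow] at h2
      exact mul_inv_eq_one.1 h2
  · exfalso
    push Not at hall
    obtain ⟨p, hp, hne⟩ := hall
    by_cases h1 : a p ^ 2 = 1
    · have h2 : a' p ^ 2 ≠ 1 := fun h3 => hne (h1.trans h3.symm)
      obtain ⟨k, hk⟩ := h P hPp hPc (a'.comp P.subtype) ⟨⟨p, hp⟩, h2⟩
      have e1 : par P (a'.comp P.subtype) (fun q => ((a q : ℂˣ) : ℂ)) = 0 :=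
        par_lin_zero P _ (a.comp P.subtype) (fun _ => rfl) ⟨⟨p, hp⟩, hne⟩
      have e2 : par P (a'.comp P.subtype) (fun q => ((a' q : ℂˣ) : ℂ)) = 1 := par_lin P _ (fun _ => rfl)
      rw [par_add, par_neg, e1, e2] at hk
      have h3 : ((-1 : ℤ) : ℂ) = ((2 * k : ℤ) : ℂ) := by
        push_cast
        rw [← hk]
        ring
      have h4 : (-1 : ℤ) = 2 * k := by exact_mod_cast h3
      omega
    · obtain ⟨k, hk⟩ := h P hPp hPc (a.comp P.subtype) ⟨⟨p, hp⟩, h1⟩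
      have e1 : par P (a.comp P.subtype) (fun q => ((a' q : ℂˣ) : ℂ)) = 0 :=
        par_lin_zero P _ (a'.comp P.subtype) (fun _ => rfl) ⟨⟨p, hp⟩, fun h => hne h.symm⟩
      have e2 : par P (a.comp P.subtype) (fun q => ((a q : ℂˣ) : ℂ)) = 1 := par_lin P _ (fun _ => rfl)
      rw [par_add, par_neg, e1, e2] at hk
      have h3 : ((1 : ℤ) : ℂ) = ((2 * k : ℤ) : ℂ) := by
        push_cast
        rw [← hk]
        ring
      have h4 : (1 : ℤ) = 2 * k := by exact_mod_cast h3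
      omega

/-- characters with even difference -/
lemma EvenAt.pow [T2Space G] [TotallyDisconnectedSpace G] (hc2 : c * c = 1)
    {χ χ' : V →* ℂˣ} (hχ : OpenKer χ) (hχ' : OpenKer χ') (h : EvenAt V c (lin V χ - lin V χ')) :
    ∃ m : ℕ, Odd m ∧ ∀ u, χ u ^ (2 * m) = χ' u ^ (2 * m) := by
  classical
  obtain ⟨N₀, hN₀, h⟩ := h
  let A : Subgroup G := N₀ ⊓ (χ.ker.map V.subtype ⊓ χ'.ker.map V.subtype)
  have hA : IsOpen (A : Set G) := by
    change IsOpen ((N₀ ⊓ (χ.ker.map V.subtype ⊓ χ'.ker.map V.subtype) : Subgroup G) : Set G)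
    rw [Subgroup.coe_inf, Subgroup.coe_inf]
    exact hN₀.inter (IsOpen.inter hχ hχ')
  obtain ⟨H, hH⟩ := ProfiniteGrp.exist_openNormalSubgroup_sub_open_nhds_of_one hA A.one_mem
  let N : Subgroup V := (H : Subgroup G).subgroupOf V
  have hNn : N.Normal := by
    refine ⟨fun x hx g => ?_⟩
    rw [Subgroup.mem_subgroupOf] at hx ⊢
    exact H.isNormal'.conj_mem _ hx (g : G)
  have hfin : Finite (V ⧸ N) := finite_quot H.isOpen'
  let _ : Fintype (V ⧸ N) := Fintype.ofFinite _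
  have hNA : N.map V.subtype ≤ A := by
    rintro _ ⟨x, hx, rfl⟩
    exact hH hx
  have hN1 : N ≤ χ.ker := by
    intro x hx
    obtain ⟨_, h1⟩ := (mem_kerMap χ _).1 (hNA ⟨x, hx, rfl⟩).2.1
    exact h1
  have hN2 : N ≤ χ'.ker := by
    intro x hx
    obtain ⟨_, h1⟩ := (mem_kerMap χ' _).1 (hNA ⟨x, hx, rfl⟩).2.2
    exact h1
  obtain ⟨a, ha⟩ : ∃ a : V ⧸ N →* ℂˣ, ∀ u, a (QuotientGroup.mk u) = χ u := ⟨QuotientGroup.lift N χ hN1, fun _ => rfl⟩
  obtain ⟨a', ha'⟩ : ∃ a : V ⧸ N →* ℂˣ, ∀ u, a (QuotientGroup.mk u) = χ' u := ⟨QuotientGroup.lift N χ' hN2, fun _ => rfl⟩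
  have hf1 : (fun q : V ⧸ N => (lin V χ - lin V χ') ((q.out : V) : G)) =
      (fun q => ((a q : ℂˣ) : ℂ)) + -(fun q => ((a' q : ℂˣ) : ℂ)) := by
    funext q
    rw [Pi.add_apply, Pi.neg_apply, Pi.sub_apply, lin_mem χ (q.out : V).2, lin_mem χ' (q.out : V).2, sub_eq_add_neg]
    have h1 : a q = χ q.out := by rw [← ha, QuotientGroup.out_eq']
    have h2 : a' q = χ' q.out := by rw [← ha', QuotientGroup.out_eq']
    rw [h1, h2]
  have h0 := h N hfin (hNA.trans inf_le_left)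
  rw [hf1] at h0
  obtain ⟨m, hm, h1⟩ := finite_case (c := (QuotientGroup.mk c : V ⧸ N)) (by
    rw [← QuotientGroup.mk_mul, hc2, QuotientGroup.mk_one]) a a' h0
  refine ⟨m, hm, fun u => ?_⟩
  have h2 := h1 (QuotientGroup.mk u)
  rwa [ha, ha'] at h2

end even

end Pool.Agent.N770.SK
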