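import Pool.Agent.N770.SK.Core

/-!
# The step from a totally even subgroup of index two
-/

set_option autoImplicit false
set_option linter.unusedSectionVars false

namespace Pool.Agent.N770.SK

variable {G : Type} [Group G] [TopologicalSpace G] [IsTopologicalGroup G]
variable {X : Set G} {U : Subgroup G} {T : Subgroup G → AddSubgroup (G → ℂ)}

/-- signs: one of the two points above the negative points of `ε` is positive -/
lemma exists_signs (hX : RealSet X) {V V₁ : Subgroup G} (hV₁ : IsOpen (V₁ : Set G)) (h1V : V₁ ≤ V)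
    {τ : G} (hτ : τ ∈ V) (hτ₁ : τ ∉ V₁) (h2 : ∀ u ∈ V, u ∈ V₁ ∨ τ⁻¹ * u ∈ V₁)
    (hXV : ∀ c ∈ X, c ∈ V → c ∈ V₁) (ε : V →* ℤˣ) :
    ∃ α : V₁ →* ℤˣ, OpenKer α ∧ ∀ c ∈ X, ∀ (hc : c ∈ V) (hc₁ : c ∈ V₁) (hc' : τ * c * τ⁻¹ ∈ V₁),
      α ⟨c, hc₁⟩ * α ⟨τ * c * τ⁻¹, hc'⟩ = ε ⟨c, hc⟩ ∧
      ¬ (α ⟨c, hc₁⟩ = 1 ∧ α ⟨τ * c * τ⁻¹, hc'⟩ = 1) := by
  classical
  -- representatives of the classes under `V`
  let rel : Setoid G :=
    { r := fun c c' => ∃ v ∈ V, c' = v * c * v⁻¹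
      iseqv := ⟨fun c => ⟨1, V.one_mem, by group⟩, by
        rintro c c' ⟨v, hv, rfl⟩
        exact ⟨v⁻¹, V.inv_mem hv, by group⟩, by
        rintro c c' c'' ⟨v, hv, rfl⟩ ⟨w, hw, rfl⟩
        exact ⟨w * v, V.mul_mem hw hv, by group⟩⟩ }
  let r : G → G := fun c => (Quotient.mk rel c).out
  have hr : ∀ c, ∃ v ∈ V, c = v * r c * v⁻¹ := by
    intro c
    have h3 : rel.r (r c) c := Quotient.mk_out c
    exact h3
  have hrc : ∀ c, ∀ v ∈ V, r (v * c * v⁻¹) = r c := by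
    intro c v hv
    have h3 : Quotient.mk rel (v * c * v⁻¹) = Quotient.mk rel c :=
      (Quotient.sound (s := rel) (show rel.r c (v * c * v⁻¹) from ⟨v, hv, rfl⟩)).symm
    change (Quotient.mk rel (v * c * v⁻¹)).out = _
    rw [h3]
  have hrX : ∀ c ∈ X, r c ∈ X := by
    intro c hc
    obtain ⟨v, hv, h3⟩ := hr c
    have h4 : r c = v⁻¹ * c * v⁻¹⁻¹ := by
      conv_rhs => rw [h3]
      group
    rw [h4]
    exact hX.conj c hc v⁻¹
  have hrV : ∀ c ∈ V, r c ∈ V := by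
    intro c hc
    obtain ⟨v, hv, h3⟩ := hr c
    have h4 : r c = v⁻¹ * c * v := by
      conv_rhs => rw [h3]
      group
    rw [h4]
    exact V.mul_mem (V.mul_mem (V.inv_mem hv) hc) hv
  let P : G → Prop := fun c => ∃ u ∈ V₁, c = u * r c * u⁻¹
  let E : G → Prop := fun c => ∃ h : c ∈ V, ε ⟨c, h⟩ = -1
  have hE : ∀ c ∈ V, ∀ v ∈ V, (E (v * c * v⁻¹) ↔ E c) := by
    intro c hc v hv
    have h3 : v * c * v⁻¹ ∈ V := V.mul_mem (V.mul_mem hv hc) (V.inv_mem hv)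
    have h4 : ε ⟨v * c * v⁻¹, h3⟩ = ε ⟨c, hc⟩ := by
      have h5 : (⟨v * c * v⁻¹, h3⟩ : V) = ⟨v, hv⟩ * ⟨c, hc⟩ * ⟨v, hv⟩⁻¹ := rfl
      rw [h5, map_mul, map_mul, map_inv, mul_comm (ε ⟨v, hv⟩), mul_inv_cancel_right]
    constructor
    · rintro ⟨_, h⟩
      exact ⟨hc, by rw [← h4]; exact h⟩
    · rintro ⟨_, h⟩
      exact ⟨h3, by rw [h4]; exact h⟩
  obtain ⟨α, hα, hs⟩ := hX.sign V₁ hV₁ (fun c => ¬ (E c ∧ P c)) (by
    intro c hc hc₁ v hv h3 h4
    apply h3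
    refine ⟨(hE c (h1V hc₁) v (h1V hv)).1 h4.1, ?_⟩
    obtain ⟨u, hu, h5⟩ := h4.2
    rw [hrc c v (h1V hv)] at h5
    refine ⟨v⁻¹ * u, V₁.mul_mem (V₁.inv_mem hv) hu, ?_⟩
    calc c = v⁻¹ * (v * c * v⁻¹) * v := by group
      _ = v⁻¹ * (u * r c * u⁻¹) * v := by rw [h5]
      _ = v⁻¹ * u * r c * (v⁻¹ * u)⁻¹ := by group)
  refine ⟨α, hα, fun c hc hcV hc₁ hc' => ?_⟩
  have hc'X : τ * c * τ⁻¹ ∈ X := hX.conj c hc τ
  have h3 := hs c hc hc₁
  have h4 := hs _ hc'X hc'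
  have hE' : E (τ * c * τ⁻¹) ↔ E c := hE c hcV τ hτ
  -- exactly one of the two points is conjugate under `V₁` to the representative
  have hcen : ∀ u ∈ V, u * r c = r c * u → u ∈ V₁ := by
    intro u hu h5
    rcases hX.cent _ (hrX c hc) u h5 with h6 | h6
    · rw [h6]
      exact V₁.one_mem
    · rw [h6]
      exact hXV _ (hrX c hc) (hrV c hcV)
  have hP : P (τ * c * τ⁻¹) ↔ ¬ P c := by
    constructor
    · rintro ⟨u, hu, h5⟩ ⟨w, hw, h6⟩
      rw [hrc c τ hτ] at h5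
      apply hτ₁
      -- `u⁻¹ τ w` centralizes `r c`
      have h7 : (u⁻¹ * τ * w) ∈ V₁ := by
        refine hcen _ (V.mul_mem (V.mul_mem (V.inv_mem (h1V hu)) hτ) (h1V hw)) ?_
        have h8 : u⁻¹ * (τ * c * τ⁻¹) * u = r c := by rw [h5]; group
        have h9 : w * r c = c * w := by
          conv_rhs => rw [h6]
          group
        calc u⁻¹ * τ * w * r c = u⁻¹ * τ * (w * r c) := by group
          _ = u⁻¹ * τ * (c * w) := by rw [h9]
          _ = (u⁻¹ * (τ * c * τ⁻¹) * u) * (u⁻¹ * τ * w) := by group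
          _ = r c * (u⁻¹ * τ * w) := by rw [h8]
      have h10 := V₁.mul_mem (V₁.mul_mem hu h7) (V₁.inv_mem hw)
      have h11 : u * (u⁻¹ * τ * w) * w⁻¹ = τ := by group
      rwa [h11] at h10
    · intro h5
      obtain ⟨v, hv, h6⟩ := hr c
      have h7 : v ∉ V₁ := fun h => h5 ⟨v, h, h6⟩
      have hm : τ * v ∈ V₁ := by
        -- index two
        have h8 := (h2 v hv).resolve_left h7
        have h9 : τ * τ ∈ V₁ := by
          rcases h2 (τ * τ) (V.mul_mem hτ hτ) with h | h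
          · exact h
          · exact absurd (by simpa using h) hτ₁
        have h10 := V₁.mul_mem h9 h8
        have h11 : τ * τ * (τ⁻¹ * v) = τ * v := by group
        rwa [h11] at h10
      refine ⟨τ * v, hm, ?_⟩
      rw [hrc c τ hτ]
      conv_lhs => rw [h6]
      group
  have hcases : ∀ x : ℤˣ, x = 1 ∨ x = -1 := Int.units_eq_one_or
  have hE1 : E c ↔ ε ⟨c, hcV⟩ = -1 := ⟨fun ⟨_, h⟩ => h, fun h => ⟨hcV, h⟩⟩
  by_cases hEc : E c
  · have he := hE1.1 hEc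
    by_cases hPc : P c
    · have ha : α ⟨c, hc₁⟩ = 1 := (hcases _).resolve_right fun h => (h3.1 h) ⟨hEc, hPc⟩
      have hb : α ⟨τ * c * τ⁻¹, hc'⟩ = -1 := h4.2 fun h => (hP.1 h.2) hPc
      rw [ha, hb, he]
      exact ⟨by decide, by decide⟩
    · have ha : α ⟨c, hc₁⟩ = -1 := h3.2 fun h => hPc h.2
      have hb : α ⟨τ * c * τ⁻¹, hc'⟩ = 1 :=
        (hcases _).resolve_right fun h => (h4.1 h) ⟨hE'.2 hEc, hP.2 hPc⟩
      rw [ha, hb, he]
      exact ⟨by decide, by decide⟩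
  · have he : ε ⟨c, hcV⟩ = 1 := (hcases _).resolve_right fun h => hEc (hE1.2 h)
    have ha : α ⟨c, hc₁⟩ = -1 := h3.2 fun h => hEc h.1
    have hb : α ⟨τ * c * τ⁻¹, hc'⟩ = -1 := h4.2 fun h => hEc (hE'.1 h.1)
    rw [ha, hb, he]
    exact ⟨by decide, by decide⟩

/-- the properties of the quadratic characters of `V` -/
def QQ (T : Subgroup G → AddSubgroup (G → ℂ)) (V : Subgroup G) : Prop :=
  (∀ ε : V →* ℤˣ, OpenKer ε → lq V ε - lin V 1 ∈ T V) ∧ lin V 1 + lin V 1 ∈ T V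

/-- **The step.** -/
theorem IC.step [CompactSpace G] (hX : RealSet X) (h : IC X U T) {V V₁ : Subgroup G}
    (hV : IsOpen (V : Set G)) (hVU : V ≤ U)
    (hV₁ : IsOpen (V₁ : Set G)) (h1V : V₁ ≤ V) {τ : G} (hτ : τ ∈ V) (hτ₁ : τ ∉ V₁)
    (h2 : ∀ u ∈ V, u ∈ V₁ ∨ τ⁻¹ * u ∈ V₁) (hXV : ∀ c ∈ X, c ∈ V → c ∈ V₁) (hQ : QQ T V₁) :
    QQ T V := by
  classical
  have hfq : Finite (V ⧸ V₁.subgroupOf V) := finite_quot hV₁
  let Λ : Subgroup V := V₁.subgroupOf V
  let τ' : V := ⟨τ, hτ⟩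
  have hτ' : τ' ∉ Λ := fun h' => hτ₁ (Subgroup.mem_subgroupOf.1 h')
  have h2' : ∀ x : V, x ∈ Λ ∨ τ'⁻¹ * x ∈ Λ := by
    intro x
    rcases h2 x x.2 with h3 | h3
    · exact Or.inl (Subgroup.mem_subgroupOf.2 h3)
    · exact Or.inr (Subgroup.mem_subgroupOf.2 h3)
  have h1q : lin V₁ (qc.comp (1 : V₁ →* ℤˣ)) = lin V₁ 1 := by
    congr 1
    ext v
    simp
  -- the quadratic character of the quotient
  obtain ⟨μ, hμ, hμv⟩ : ∃ μ : V →* ℤˣ, OpenKer μ ∧ ∀ x : V, μ x = if x ∈ Λ then 1 else -1 := by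
    refine ⟨MonoidHom.mk' (fun x => if x ∈ Λ then 1 else -1) ?_, ?_, fun x => rfl⟩
    · intro x y
      by_cases hx : x ∈ Λ <;> by_cases hy : y ∈ Λ
      · rw [if_pos hx, if_pos hy, if_pos (Λ.mul_mem hx hy), one_mul]
      · have : x * y ∉ Λ := fun h3 => hy (by simpa using Λ.mul_mem (Λ.inv_mem hx) h3)
        rw [if_pos hx, if_neg hy, if_neg this, one_mul]
      · have : x * y ∉ Λ := fun h3 => hx (by simpa using Λ.mul_mem h3 (Λ.inv_mem hy))
        rw [if_neg hx, if_pos hy, if_neg this, mul_one]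
      · have h3 := mul_inv_mem hτ' h2' hx
        have h4 := mul_mem' hτ' h2' hy
        have h5 := Λ.mul_mem h3 h4
        have h6 : x * τ'⁻¹ * (τ' * y) = x * y := by group
        rw [h6] at h5
        rw [if_neg hx, if_neg hy, if_pos h5]
        decide
    · refine openKer_of _ hV₁ fun g hg => ⟨h1V hg, ?_⟩
      exact if_pos (Subgroup.mem_subgroupOf.2 hg)
  -- the main relation
  have hmain : ∀ ε : V →* ℤˣ, OpenKer ε → lin V 1 + lin V 1 + lin V 1 + lq V ε ∈ T V := by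
    intro ε hε
    obtain ⟨α, hα, hs⟩ := exists_signs hX hV₁ h1V hτ hτ₁ h2 hXV ε
    let α' : Λ →* ℤˣ := α.comp (Subgroup.subgroupOfEquivOfLe h1V).toMonoidHom
    have hfY : Finite (Yf Λ α') := finite_Yf α' hτ' h2'
    -- an open subgroup acting trivially
    let A : Subgroup G := α.ker.map V₁.subtype
    have hA : IsOpen (A : Set G) := hα
    let B : Subgroup G := A.comap (MulAut.conj τ).toMonoidHom
    have hB : IsOpen (B : Set G) := by
      have h3 : Continuous fun g : G => τ * g * τ⁻¹ := by fun_prop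
      exact hA.preimage h3
    have hAB : IsOpen ((A ⊓ B : Subgroup G) : Set G) := by
      rw [Subgroup.coe_inf]
      exact hA.inter hB
    have hABm : ∀ g ∈ A ⊓ B, ∃ (h₁ : g ∈ V₁) (h₃ : τ * g * τ⁻¹ ∈ V₁), α ⟨g, h₁⟩ = 1 ∧
        α ⟨τ * g * τ⁻¹, h₃⟩ = 1 := by
      intro g hg
      obtain ⟨h3, h4⟩ := (mem_kerMap α g).1 hg.1
      obtain ⟨h5, h6⟩ := (mem_kerMap α (τ * g * τ⁻¹)).1 hg.2
      exact ⟨h3, h5, h4, h6⟩
    let β := beta α' hτ' h2'
    have hβ : OpenKer β := by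
      refine openKer_of _ hAB fun g hg => ?_
      obtain ⟨h3, h4, h5, h6⟩ := hABm g hg
      refine ⟨h1V h3, ?_⟩
      rw [beta_mem α' hτ' h2' (g := ⟨g, h1V h3⟩) (Subgroup.mem_subgroupOf.2 h3)]
      have h7 : α' ⟨⟨g, h1V h3⟩, Subgroup.mem_subgroupOf.2 h3⟩ = α ⟨g, h3⟩ := rfl
      have h8 : α' ⟨τ' * ⟨g, h1V h3⟩ * τ'⁻¹, conj_mem hτ' h2' (Subgroup.mem_subgroupOf.2 h3)⟩ =
          α ⟨τ * g * τ⁻¹, h4⟩ := rfl
      rw [h7, h8, h5, h6, one_mul]
    have hfix : ∀ g (h₁ : g ∈ V₁) (h₃ : τ * g * τ⁻¹ ∈ V₁) (f : Yf Λ α'),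
        ((⟨g, h1V h₁⟩ : V) • f = f ↔ α ⟨g, h₁⟩ = 1 ∧ α ⟨τ * g * τ⁻¹, h₃⟩ = 1) := by
      intro g h₁ h₃ f
      exact fix_iff_mem α' hτ' h2' (g := ⟨g, h1V h₁⟩) (Subgroup.mem_subgroupOf.2 h₁) f
    have hperm := h.perm hV hVU (Yf Λ α') (fun y => by
      refine open_mono ?_ hAB
      intro g hg
      obtain ⟨h3, h4, h5, h6⟩ := hABm g hg
      exact (mem_stab ⟨g, h1V h3⟩).2 ((hfix g h3 h4 y).2 ⟨h5, h6⟩)) (fun c hc hcV y hy => by
      have hc₁ := hXV c hc hcV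
      have hcτ : τ * c * τ⁻¹ ∈ V := V.mul_mem (V.mul_mem hτ hcV) (V.inv_mem hτ)
      have hc' : τ * c * τ⁻¹ ∈ V₁ := hXV _ (hX.conj c hc τ) hcτ
      exact (hs c hc hcV hc₁ hc').2 ((hfix c hc₁ hc' y).1 hy)) 1 (openKer_one hV)
    -- the value of the permutation character
    have hval : pi V (Yf Λ α') * lin V 1 = lin V 1 + lq V β + Ind V V₁ (lq V₁ α) := by
      funext g
      rw [Pi.mul_apply, Pi.add_apply, Pi.add_apply]
      by_cases hg : g ∈ V
      · have h3 : lin V 1 g = 1 := by rw [lin_mem _ hg]; simp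
        rw [h3, mul_one, pi, dif_pos hg, lq_val β hg]
        have h4 := congrArg (Int.cast : ℤ → ℂ) (card_fix α' hτ' h2' ⟨g, hg⟩)
        rw [Int.cast_natCast] at h4
        rw [h4]
        push_cast
        congr 1
        have h5 : Ind V V₁ (lq V₁ α) g = lq V₁ α g + lq V₁ α (τ * g * τ⁻¹) := by
          have h6 := Ind_two (U := V) (V := V₁) (τ := τ⁻¹) (V.inv_mem hτ)
            (fun h' => hτ₁ (by simpa using V₁.inv_mem h')) (fun u hu => by
              by_cases hu₁ : u ∈ V₁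
              · exact Or.inl hu₁
              · right
                have h7 := mul_mem' hτ' h2' (x := ⟨u, hu⟩) (fun h' => hu₁ (Subgroup.mem_subgroupOf.1 h'))
                rw [inv_inv]
                exact Subgroup.mem_subgroupOf.1 h7) (lin_cl V₁ (qc.comp α)) g
          rw [inv_inv] at h6
          exact h6
        rw [h5]
        by_cases hg₁ : g ∈ V₁
        · have h6 : (⟨g, hg⟩ : V) ∈ Λ := Subgroup.mem_subgroupOf.2 hg₁
          have h7 : τ * g * τ⁻¹ ∈ V₁ := Subgroup.mem_subgroupOf.1 (conj_mem hτ' h2' h6)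
          rw [dif_pos h6, lq_val α hg₁, lq_val α h7]
          push_cast
          rfl
        · have h6 : (⟨g, hg⟩ : V) ∉ Λ := fun h' => hg₁ (Subgroup.mem_subgroupOf.1 h')
          have h7 : τ * g * τ⁻¹ ∉ V₁ := by
            intro h'
            apply h6
            by_contra h8
            have h9 : (τ' * ⟨g, hg⟩ * τ'⁻¹ : V) ∈ Λ := Subgroup.mem_subgroupOf.2 h'
            have h10 := mul_mem' hτ' h2' h8
            have h11 := Λ.mul_mem (Λ.inv_mem h9) h10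
            have h12 : (τ' * ⟨g, hg⟩ * τ'⁻¹ : V)⁻¹ * (τ' * ⟨g, hg⟩) = τ' := by group
            rw [h12] at h11
            exact hτ' h11
          rw [dif_neg h6]
          change ((0 : ℤ) : ℂ) = lin V₁ (qc.comp α) g + lin V₁ (qc.comp α) (τ * g * τ⁻¹)
          rw [lin_not _ hg₁, lin_not _ h7]
          simp
      · rw [lin_not _ hg, mul_zero, lq, lin_not _ hg,
          Ind_supp (f := lq V₁ α) h1V (lin_cl V₁ (qc.comp α)) hg]
        simp
    rw [hval] at hperm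
    -- induction of `α - 1`
    have h3 : Ind V V₁ (lq V₁ α) - Ind V V₁ (lin V₁ 1) ∈ T V := by
      rw [← Ind_sub]
      exact h.ind V V₁ hV hVU hV₁ h1V _ ((lin_cl V₁ _).sub (lin_cl V₁ _)) (hQ.1 α hα)
    have h4 : Ind V V₁ (lin V₁ 1) = lin V 1 + lq V μ := by
      funext g
      rw [Pi.add_apply, Ind_two (U := V) (V := V₁) hτ hτ₁ h2 (lin_cl V₁ 1) g]
      by_cases hg : g ∈ V
      · have h5 : lin V 1 g = 1 := by rw [lin_mem _ hg]; simp
        rw [h5, lq_val μ hg, hμv]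
        by_cases hg₁ : g ∈ V₁
        · have h6 : τ⁻¹ * g * τ ∈ V₁ := by
            have h7 := conj_mem hτ' h2' (x := ⟨g, hg⟩) (Subgroup.mem_subgroupOf.2 hg₁)
            have h8 := sq_mem hτ' h2'
            have h9 := Λ.mul_mem (Λ.mul_mem (Λ.inv_mem h8) h7) h8
            have h10 := Subgroup.mem_subgroupOf.1 h9
            have h11 : (((τ' * τ')⁻¹ * (τ' * ⟨g, hg⟩ * τ'⁻¹) * (τ' * τ') : V) : G) = τ⁻¹ * g * τ := by
              change (τ * τ)⁻¹ * (τ * g * τ⁻¹) * (τ * τ) = _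
              group
            rw [h11] at h10
            exact h10
          rw [if_pos (Subgroup.mem_subgroupOf.2 hg₁), lin_mem _ hg₁, lin_mem _ h6]
          simp
        · have h6 : τ⁻¹ * g * τ ∉ V₁ := by
            intro h7
            apply hg₁
            have h8 : (τ'⁻¹ * ⟨g, hg⟩ * τ' : V) ∈ Λ := Subgroup.mem_subgroupOf.2 h7
            have h9 := conj_mem hτ' h2' h8
            have h10 : τ' * (τ'⁻¹ * ⟨g, hg⟩ * τ') * τ'⁻¹ = ⟨g, hg⟩ := by group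
            rw [h10] at h9
            exact Subgroup.mem_subgroupOf.1 h9
          rw [if_neg (fun h' => hg₁ (Subgroup.mem_subgroupOf.1 h')), lin_not _ hg₁, lin_not _ h6]
          simp
      · have h6 : τ⁻¹ * g * τ ∉ V₁ := by
          intro h7
          apply hg
          have h8 := V.mul_mem (V.mul_mem hτ (h1V h7)) (V.inv_mem hτ)
          have h9 : τ * (τ⁻¹ * g * τ) * τ⁻¹ = g := by group
          rwa [h9] at h8
        rw [lin_not _ hg, lq, lin_not _ hg, lin_not _ (fun h' => hg (h1V h')), lin_not _ h6]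
    -- `μ` is totally even
    have h5 : lq V μ - lin V 1 ∈ T V := by
      have h6 := h.even hX hVU hμ (fun c hc hcV => by
        rw [hμv, if_pos (Subgroup.mem_subgroupOf.2 (hXV c hc hcV))]) 1 (openKer_one hV)
      have e : (1 : V →* ℂˣ) * qc.comp μ = qc.comp μ := by
        ext v
        simp
      rw [e] at h6
      exact h6
    -- `β` and `ε` have the same signs
    have h6 : lq V β - lq V ε ∈ T V := by
      have h7 := h.even hX hVU (hε.mul hβ) (fun c hc hcV => by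
        have hc₁ := hXV c hc hcV
        have hcτ : τ * c * τ⁻¹ ∈ V := V.mul_mem (V.mul_mem hτ hcV) (V.inv_mem hτ)
        have hc' : τ * c * τ⁻¹ ∈ V₁ := hXV _ (hX.conj c hc τ) hcτ
        have h8 : β ⟨c, hcV⟩ = ε ⟨c, hcV⟩ := by
          change beta α' hτ' h2' ⟨c, hcV⟩ = _
          rw [beta_mem α' hτ' h2' (g := ⟨c, hcV⟩) (Subgroup.mem_subgroupOf.2 hc₁)]
          exact (hs c hc hcV hc₁ hc').1
        rw [MonoidHom.mul_apply, h8]
        rcases Int.units_eq_one_or (ε ⟨c, hcV⟩) with h9 | h9 <;> rw [h9] <;> decide) (qc.comp ε)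
        (hε.comp qc)
      have h8 : qc.comp ε * qc.comp (ε * β) = qc.comp β := by
        ext v
        simp only [MonoidHom.mul_apply, MonoidHom.comp_apply, map_mul, ← mul_assoc]
        rcases Int.units_eq_one_or (ε v) with h9 | h9 <;> rw [h9] <;> simp [qc]
      rw [h8] at h7
      exact h7
    have h7 : lin V 1 + lin V 1 + lin V 1 + lq V ε =
        (lin V 1 + lq V β + Ind V V₁ (lq V₁ α)) - (Ind V V₁ (lq V₁ α) - Ind V V₁ (lin V₁ 1)) -
        (lq V μ - lin V 1) - (lq V β - lq V ε) := by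
      rw [h4]
      abel
    rw [h7]
    exact sub_mem (sub_mem (sub_mem hperm h3) h5) h6
  -- conclusion
  obtain ⟨δ, hδ, hodd⟩ := hX.sign V hV (fun _ => True) (fun _ _ _ _ _ _ => trivial)
  have h3 := hmain δ hδ
  have h4 := h.odd hVU hδ (fun c hc hcV => (hodd c hc hcV).2 trivial) 1 (openKer_one hV)
  have e : (1 : V →* ℂˣ) * qc.comp δ = qc.comp δ := by
    ext v
    simp
  rw [e] at h4
  have h5 : lin V 1 + lin V 1 ∈ T V := by
    have h6 : lin V 1 + lin V 1 = (lin V 1 + lin V 1 + lin V 1 + lq V δ) -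
        (lin V 1 + lin V (qc.comp δ)) := by
      change _ = (lin V 1 + lin V 1 + lin V 1 + lin V (qc.comp δ)) - _
      abel
    rw [h6]
    exact sub_mem h3 h4
  refine ⟨fun ε hε => ?_, h5⟩
  have h6 : lq V ε - lin V 1 = (lin V 1 + lin V 1 + lin V 1 + lq V ε) - (lin V 1 + lin V 1) -
      (lin V 1 + lin V 1) := by abel
  rw [h6]
  exact sub_mem (sub_mem (hmain ε hε) h5) h5

end Pool.Agent.N770.SK
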