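import Pool.Agent.N770.SK.Step

/-!
# Twice a linear character of 2-power order
-/

set_option autoImplicit false
set_option linter.unusedSectionVars false

namespace Pool.Agent.N770.SK

variable {G : Type} [Group G] [TopologicalSpace G] [IsTopologicalGroup G] [CompactSpace G]
variable {X : Set G} {U : Subgroup G} {T : Subgroup G → AddSubgroup (G → ℂ)}

/-- a tower of totally even extensions -/
theorem IC.tower (hX : RealSet X) (h : IC X U T) (lam : U →* ℂˣ) (hlam : OpenKer lam)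
    (heven : ∀ c ∈ X, ∀ hc : c ∈ U, lam ⟨c, hc⟩ = 1)
    (hbase : ∀ V : Subgroup G, IsOpen (V : Set G) → ∀ hVU : V ≤ U,
      (∀ v (hv : v ∈ V), lam ⟨v, hVU hv⟩ = 1) → QQ T V) (k : ℕ) :
    ∀ V : Subgroup G, IsOpen (V : Set G) → ∀ hVU : V ≤ U,
      (∀ v (hv : v ∈ V), lam ⟨v, hVU hv⟩ ^ 2 ^ k = 1) → QQ T V := by
  induction k with
  | zero =>
    intro V hV hVU h1
    exact hbase V hV hVU fun v hv => by simpa using h1 v hv
  | succ k ih =>
    intro V hV hVU h1
    let ψ : U →* ℂˣ := (powMonoidHom (2 ^ k)).comp lam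
    have hψ : OpenKer ψ := hlam.comp _
    let V₁ : Subgroup G := V ⊓ ψ.ker.map U.subtype
    have hV₁ : IsOpen (V₁ : Set G) := by
      change IsOpen ((V ⊓ ψ.ker.map U.subtype : Subgroup G) : Set G)
      rw [Subgroup.coe_inf]
      exact hV.inter hψ
    have h1V : V₁ ≤ V := inf_le_left
    have hm : ∀ v (hv : v ∈ V), (v ∈ V₁ ↔ lam ⟨v, hVU hv⟩ ^ 2 ^ k = 1) := by
      intro v hv
      constructor
      · intro h2
        obtain ⟨h3, h4⟩ := (mem_kerMap ψ v).1 h2.2
        exact h4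
      · intro h2
        exact ⟨hv, (mem_kerMap ψ v).2 ⟨hVU hv, h2⟩⟩
    have hQ : QQ T V₁ := ih V₁ hV₁ (h1V.trans hVU) fun v hv => (hm v (h1V hv)).1 hv
    by_cases hall : ∀ v ∈ V, v ∈ V₁
    · have h2 : V₁ = V := le_antisymm h1V hall
      rwa [h2] at hQ
    · push Not at hall
      obtain ⟨τ, hτ, hτ₁⟩ := hall
      have hsq : ∀ v (hv : v ∈ V), v ∉ V₁ → lam ⟨v, hVU hv⟩ ^ 2 ^ k = -1 := by
        intro v hv hv₁
        have h2 := h1 v hv
        rw [pow_succ, pow_mul] at h2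
        have h3 : ((lam ⟨v, hVU hv⟩ ^ 2 ^ k : ℂˣ) : ℂ) ^ 2 = 1 := by
          rw [← Units.val_pow_eq_pow_val, h2, Units.val_one]
        rcases sq_eq_one_iff.1 h3 with h4 | h4
        · exact absurd ((hm v hv).2 (Units.ext h4)) hv₁
        · exact Units.ext (by rw [h4]; simp)
      refine h.step hX hV hVU hV₁ h1V hτ hτ₁ ?_ ?_ hQ
      · intro u hu
        by_cases hu₁ : u ∈ V₁
        · exact Or.inl hu₁
        · right
          have h2 : τ⁻¹ * u ∈ V := V.mul_mem (V.inv_mem hτ) hu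
          refine (hm _ h2).2 ?_
          have h3 : (⟨τ⁻¹ * u, hVU h2⟩ : U) = ⟨τ, hVU hτ⟩⁻¹ * ⟨u, hVU hu⟩ := rfl
          rw [h3, map_mul, map_inv, mul_pow, inv_pow, hsq τ hτ hτ₁, hsq u hu hu₁]
          simp
      · intro c hc hcV
        refine (hm c hcV).2 ?_
        rw [heven c hc (hVU hcV), one_pow]

/-- classes of functions on all open subgroups -/
structure TC (X : Set G) (T : Subgroup G → AddSubgroup (G → ℂ)) : Prop where
  ind : ∀ V W : Subgroup G, IsOpen (V : Set G) → IsOpen (W : Set G) → W ≤ V →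
    ∀ f, Cl W f → f ∈ T W → Ind V W f ∈ T V
  quad : ∀ V : Subgroup G, ∀ ε : V →* ℤˣ, OpenKer ε → lq V ε ∈ T V
  cpx : ∀ W : Subgroup G, IsOpen (W : Set G) → (∀ c ∈ X, c ∉ W) → ∀ ψ : W →* ℂˣ,
    OpenKer ψ → lin W ψ ∈ T W

/-- multiplication by a function -/
def mulHom (F : G → ℂ) : (G → ℂ) →+ (G → ℂ) := AddMonoidHom.mk' (fun f => f * F) fun a b => add_mul a b F

omit [Group G] [TopologicalSpace G] [IsTopologicalGroup G] [CompactSpace G] in
lemma mulHom_apply (F f : G → ℂ) : mulHom F f = f * F := rfl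

/-- **Linear characters of 2-power order:** twists by quadratic characters, and multiples by two. -/
theorem TC.two (hX : RealSet X) (h : TC X T) (chi : U →* ℂˣ) (hchi : OpenKer chi) (k : ℕ)
    (hk : ∀ u, chi u ^ 2 ^ k = 1) :
    (∀ η : U →* ℤˣ, OpenKer η → lin U (chi * qc.comp η) - lin U chi ∈ T U) ∧
    lin U chi + lin U chi ∈ T U := by
  classical
  have hU := hchi.isOpen
  -- a quadratic character with the same signs
  have hsgn : ∀ c ∈ X, ∀ hc : c ∈ U, chi ⟨c, hc⟩ = 1 ∨ chi ⟨c, hc⟩ = -1 := by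
    intro c hc hcU
    have h1 : (⟨c, hcU⟩ : U) * ⟨c, hcU⟩ = 1 := Subtype.ext (hX.sq c hc)
    have h2 : ((chi ⟨c, hcU⟩ : ℂˣ) : ℂ) ^ 2 = 1 := by
      rw [sq, ← Units.val_mul, ← map_mul, h1, map_one, Units.val_one]
    rcases sq_eq_one_iff.1 h2 with h3 | h3
    · exact Or.inl (Units.ext h3)
    · exact Or.inr (Units.ext (by rw [h3]; simp))
  obtain ⟨ε, hε, hεs⟩ := hX.sign U hU (fun c => ∃ hc : c ∈ U, chi ⟨c, hc⟩ = -1) (by
    rintro c hc hcU v hv ⟨_, h1⟩
    have h2 : v * c * v⁻¹ ∈ U := U.mul_mem (U.mul_mem hv hcU) (U.inv_mem hv)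
    refine ⟨h2, ?_⟩
    have h3 : (⟨v * c * v⁻¹, h2⟩ : U) = ⟨v, hv⟩ * ⟨c, hcU⟩ * ⟨v, hv⟩⁻¹ := rfl
    rw [h3, map_mul, map_mul, map_inv, mul_comm (chi ⟨v, hv⟩), mul_inv_cancel_right, h1])
  have hqq : ∀ x : ℤˣ, qc x * qc x = 1 := by
    intro x
    rw [← map_mul]
    rcases Int.units_eq_one_or x with h1 | h1 <;> rw [h1] <;> simp
  let lam : U →* ℂˣ := chi * qc.comp ε
  have hlam : OpenKer lam := hchi.mul (hε.comp qc)
  have heven : ∀ c ∈ X, ∀ hc : c ∈ U, lam ⟨c, hc⟩ = 1 := by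
    intro c hc hcU
    change chi ⟨c, hcU⟩ * qc (ε ⟨c, hcU⟩) = 1
    rcases hsgn c hc hcU with h1 | h1
    · have h2 : ε ⟨c, hcU⟩ = 1 := by
        refine (Int.units_eq_one_or _).resolve_right fun h3 => ?_
        obtain ⟨_, h4⟩ := (hεs c hc hcU).1 h3
        rw [h1] at h4
        have h5 := congrArg Units.val h4
        norm_num at h5
      rw [h1, h2, map_one, one_mul]
    · have h2 : ε ⟨c, hcU⟩ = -1 := (hεs c hc hcU).2 ⟨hcU, h1⟩
      rw [h1, h2]
      apply Units.ext
      simp [qc]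
  let F : G → ℂ := lin U chi - lq U ε
  have hF : Cl U F := (lin_cl U _).sub (lin_cl U _)
  let T' : Subgroup G → AddSubgroup (G → ℂ) := fun V => (T V).comap (mulHom F)
  have hT' : IC X U T' := by
    refine ⟨fun V W hV hVU hW hWV f hf hfT => ?_, fun W hW hWU hWX ψ hψ => ?_⟩
    · have hfin : Finite (V ⧸ W.subgroupOf V) := finite_quot hW
      change Ind V W f * F ∈ T V
      rw [← Ind_mul V W f (fun u hu g => hF.conj u (hVU hu) g)]
      exact h.ind V W hV hW hWV _ (hf.mul fun v hv g => hF.conj v (hVU (hWV hv)) g) hfT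
    · change lin W ψ * F ∈ T W
      have h1 : lin W ψ * F = lin W (ψ * res hWU chi) - lin W (ψ * res hWU (qc.comp ε)) := by
        change lin W ψ * (lin U chi - lin U (qc.comp ε)) = _
        rw [mul_sub, lin_mul, lin_mul, lin_res_mul hWU _ (lin_cl W ψ), lin_res_mul hWU _ (lin_cl W ψ)]
      rw [h1]
      exact sub_mem (h.cpx W hW hWX _ (hψ.mul (hchi.res hWU hW)))
        (h.cpx W hW hWX _ (hψ.mul ((hε.comp qc).res hWU hW)))
  have hQ : QQ T' U := by
    refine hT'.tower hX lam hlam heven ?_ (k + 1) U hU le_rfl ?_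
    · intro V hV hVU h1
      have h2 : ∀ f : G → ℂ, Cl V f → f ∈ T' V := by
        intro f hf
        change f * F ∈ T V
        have h3 : f * F = 0 := by
          funext g
          rw [Pi.mul_apply]
          by_cases hg : g ∈ V
          · have h4 : F g = 0 := by
              change lin U chi g - lin U (qc.comp ε) g = 0
              rw [lin_mem _ (hVU hg), lin_mem _ (hVU hg), sub_eq_zero]
              congr 1
              have h5 : chi ⟨g, hVU hg⟩ * qc (ε ⟨g, hVU hg⟩) = 1 := h1 g hg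
              have h6 := hqq (ε ⟨g, hVU hg⟩)
              change _ = qc (ε ⟨g, hVU hg⟩)
              exact mul_right_cancel (h5.trans h6.symm)
            rw [h4, mul_zero]
            rfl
          · rw [hf.supp g hg, zero_mul]
            rfl
        rw [h3]
        exact zero_mem _
      refine ⟨fun ε' _ => h2 _ ((lin_cl V _).sub (lin_cl V _)), h2 _ ((lin_cl V _).add (lin_cl V _))⟩
    · intro v hv
      change (chi ⟨v, hv⟩ * qc (ε ⟨v, hv⟩)) ^ 2 ^ (k + 1) = 1
      rw [mul_pow, pow_succ, pow_mul, hk, one_pow, one_mul, mul_comm (2 ^ k) 2, pow_mul, sq, hqq,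
        one_pow]
  have h1 : (lin U 1 + lin U 1) * F ∈ T U := hQ.2
  have h2 : lin U (1 : U →* ℂˣ) * F = F := by
    funext g
    rw [Pi.mul_apply]
    by_cases hg : g ∈ U
    · rw [lin_mem _ hg]
      simp
    · rw [hF.supp g hg, mul_zero]
  rw [add_mul, h2] at h1
  have h3 := h.quad U ε hε
  refine ⟨fun η hη => ?_, ?_⟩
  · have h5 : (lq U η - lin U 1) * F ∈ T U := hQ.1 η hη
    rw [sub_mul, h2] at h5
    have h6 : lq U η * F = lin U (chi * qc.comp η) - lq U (ε * η) := by
      change lin U (qc.comp η) * (lin U chi - lin U (qc.comp ε)) = _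
      rw [mul_sub, ← lin_mul, ← lin_mul, mul_comm (qc.comp η) chi, mul_comm (qc.comp η) (qc.comp ε)]
      have h8 : qc.comp ε * qc.comp η = qc.comp (ε * η) := by
        ext v
        simp
      rw [h8]
      rfl
    rw [h6] at h5
    have h7 : lin U (chi * qc.comp η) - lin U chi =
        (lin U (chi * qc.comp η) - lq U (ε * η) - F) + (lq U (ε * η) - lq U ε) := by
      change _ = (lin U (chi * qc.comp η) - lq U (ε * η) - (lin U chi - lq U ε)) + _
      abel
    rw [h7]
    exact add_mem h5 (sub_mem (h.quad U _ (hε.mul hη)) h3)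
  · have h4 : lin U chi + lin U chi = (F + F) + (lq U ε + lq U ε) := by
      change _ = (lin U chi - lq U ε + (lin U chi - lq U ε)) + _
      abel
    rw [h4]
    exact add_mem h1 (add_mem h3 h3)

end Pool.Agent.N770.SK
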