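import Pool.Agent.N770.SK.Chars

/-!
# Virtual characters and induction
-/

set_option autoImplicit false
set_option linter.unusedSectionVars false

namespace Pool.Agent.N770.SK

variable {G : Type} [Group G] [TopologicalSpace G]

variable [IsTopologicalGroup G]

lemma HasTrace.cl {U : Subgroup G} {n : ℕ} {ρ : U →* GL (Fin n) ℂ} {f : G → ℂ} (h : HasTrace ρ f) :
    Cl U f := by
  refine ⟨h.2, fun v hv g => ?_⟩
  by_cases hg : g ∈ U
  · have h1 : v⁻¹ * g * v ∈ U := U.mul_mem (U.mul_mem (U.inv_mem hv) hg) hv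
    rw [h.1 _ h1, h.1 _ hg]
    have h2 : (⟨v⁻¹ * g * v, h1⟩ : U) = ⟨v, hv⟩⁻¹ * ⟨g, hg⟩ * ⟨v, hv⟩ := rfl
    rw [h2, map_mul, Units.val_mul, Matrix.trace_mul_comm, ← Units.val_mul, ← map_mul]
    congr 3
    group
  · have h1 : v⁻¹ * g * v ∉ U := fun h => hg (by
      have h2 := U.mul_mem (U.mul_mem hv h) (U.inv_mem hv)
      have h3 : v * (v⁻¹ * g * v) * v⁻¹ = g := by group
      rwa [h3] at h2)
    rw [h.2 _ hg, h.2 _ h1]

lemma VC.cl {U : Subgroup G} {f : G → ℂ} (h : f ∈ VC U) : Cl U f := by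
  induction h using AddSubgroup.closure_induction with
  | mem f hf =>
    obtain ⟨n, ρ, _, h⟩ := hf
    exact h.cl
  | zero => exact ⟨fun _ _ => rfl, fun _ _ _ => rfl⟩
  | add a b _ _ ha hb => exact ha.add hb
  | neg a _ ha => exact ha.neg

/-- linear characters as matrices -/
noncomputable def linMat {U : Subgroup G} (χ : U →* ℂˣ) : U →* GL (Fin 1) ℂ :=
  (Units.map (Matrix.scalar (Fin 1) : ℂ →+* Matrix (Fin 1) (Fin 1) ℂ).toMonoidHom).comp χ

lemma lin_vc {U : Subgroup G} {χ : U →* ℂˣ} (hχ : OpenKer χ) : lin U χ ∈ VC U := by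
  refine AddSubgroup.subset_closure ⟨1, linMat χ, hχ.comp _, fun g hg => ?_, fun g hg => lin_not χ hg⟩
  rw [lin_mem χ hg]
  change _ = Matrix.trace (Matrix.scalar (Fin 1) ((χ ⟨g, hg⟩ : ℂˣ) : ℂ))
  simp [Matrix.trace]

variable [CompactSpace G]

/-- the matrices of the induced representation -/
noncomputable def indMat {V W : Subgroup G} {n : ℕ} (ρ : W →* GL (Fin n) ℂ) (g : V) :
    Matrix ((V ⧸ W.subgroupOf V) × Fin n) ((V ⧸ W.subgroupOf V) × Fin n) ℂ :=
  fun p p' => open Classical in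
    if h : ((p.1.out : V) : G)⁻¹ * g * ((p'.1.out : V) : G) ∈ W then
      (ρ ⟨((p.1.out : V) : G)⁻¹ * g * ((p'.1.out : V) : G), h⟩ : Matrix (Fin n) (Fin n) ℂ) p.2 p'.2
    else 0

lemma out_mem_iff {V W : Subgroup G} (q q' : V ⧸ W.subgroupOf V) :
    ((q.out : V) : G)⁻¹ * ((q'.out : V) : G) ∈ W ↔ q = q' := by
  have h1 : ((q.out : V) : G)⁻¹ * ((q'.out : V) : G) ∈ W ↔ (q.out : V)⁻¹ * (q'.out : V) ∈ W.subgroupOf V :=
    Iff.rfl
  rw [h1, ← QuotientGroup.eq, QuotientGroup.out_eq', QuotientGroup.out_eq']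

lemma indMat_one {V W : Subgroup G} {n : ℕ} [DecidableEq ((V ⧸ W.subgroupOf V) × Fin n)]
    (ρ : W →* GL (Fin n) ℂ) (g : V)
    (hg : ∀ q : V ⧸ W.subgroupOf V, ∃ h : ((q.out : V) : G)⁻¹ * g * ((q.out : V) : G) ∈ W,
      ρ ⟨((q.out : V) : G)⁻¹ * g * ((q.out : V) : G), h⟩ = 1) : indMat ρ g = 1 := by
  ext p p'
  rw [indMat, Matrix.one_apply]
  by_cases hq : p.1 = p'.1
  · obtain ⟨h1, h2⟩ := hg p.1
    have h3 : ((p.1.out : V) : G)⁻¹ * g * ((p'.1.out : V) : G) ∈ W := by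
      rw [← hq]
      exact h1
    rw [dif_pos h3]
    have h4 : (⟨((p.1.out : V) : G)⁻¹ * g * ((p'.1.out : V) : G), h3⟩ : W) =
        ⟨((p.1.out : V) : G)⁻¹ * g * ((p.1.out : V) : G), h1⟩ := by
      apply Subtype.ext
      change ((p.1.out : V) : G)⁻¹ * g * ((p'.1.out : V) : G) = ((p.1.out : V) : G)⁻¹ * g * ((p.1.out : V) : G)
      rw [hq]
    rw [h4, h2, Units.val_one, Matrix.one_apply]
    by_cases h5 : p.2 = p'.2
    · rw [if_pos h5, if_pos (Prod.ext hq h5)]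
    · rw [if_neg h5, if_neg fun h6 => h5 (congrArg Prod.snd h6)]
  · obtain ⟨h1, _⟩ := hg p.1
    have h3 : ((p.1.out : V) : G)⁻¹ * g * ((p'.1.out : V) : G) ∉ W := by
      intro h4
      apply hq
      rw [← out_mem_iff]
      have h5 := W.mul_mem (W.inv_mem h1) h4
      have h6 : (((p.1.out : V) : G)⁻¹ * g * ((p.1.out : V) : G))⁻¹ *
          (((p.1.out : V) : G)⁻¹ * g * ((p'.1.out : V) : G)) =
          ((p.1.out : V) : G)⁻¹ * ((p'.1.out : V) : G) := by group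
      rwa [h6] at h5
    rw [dif_neg h3, if_neg fun h6 => hq (congrArg Prod.fst h6)]

lemma indMat_mul {V W : Subgroup G} [Fintype (V ⧸ W.subgroupOf V)] {n : ℕ} (ρ : W →* GL (Fin n) ℂ)
    (g h : V) : indMat ρ (g * h) = indMat ρ g * indMat ρ h := by
  classical
  ext p p'
  rw [Matrix.mul_apply, Fintype.sum_prod_type]
  -- the only coset which contributes
  let q₀ : V ⧸ W.subgroupOf V := QuotientGroup.mk (h * p'.1.out)
  have hq₀ : ∀ q : V ⧸ W.subgroupOf V,
      ((q.out : V) : G)⁻¹ * h * ((p'.1.out : V) : G) ∈ W ↔ q = q₀ := by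
    intro q
    have h1 : ((q.out : V) : G)⁻¹ * h * ((p'.1.out : V) : G) ∈ W ↔
        (q.out : V)⁻¹ * (h * (p'.1.out : V)) ∈ W.subgroupOf V := by
      rw [Subgroup.mem_subgroupOf]
      push_cast
      rw [mul_assoc]
    rw [h1, ← QuotientGroup.eq, QuotientGroup.out_eq']
  rw [Finset.sum_eq_single q₀ (fun q _ hq => by
    refine Finset.sum_eq_zero fun j _ => ?_
    have h1 : indMat ρ h (q, j) p' = 0 := by
      rw [indMat, dif_neg]
      intro h2
      exact hq ((hq₀ q).1 h2)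
    rw [h1, mul_zero]) (fun h1 => absurd (Finset.mem_univ _) h1)]
  have hm : ((q₀.out : V) : G)⁻¹ * h * ((p'.1.out : V) : G) ∈ W := (hq₀ q₀).2 rfl
  have hprod : (((p.1.out : V) : G)⁻¹ * g * ((q₀.out : V) : G)) * (((q₀.out : V) : G)⁻¹ * h * ((p'.1.out : V) : G)) =
      ((p.1.out : V) : G)⁻¹ * ((g * h : V) : G) * ((p'.1.out : V) : G) := by
    push_cast
    group
  by_cases h1 : ((p.1.out : V) : G)⁻¹ * g * ((q₀.out : V) : G) ∈ W
  · have h2 : ((p.1.out : V) : G)⁻¹ * ((g * h : V) : G) * ((p'.1.out : V) : G) ∈ W := by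
      rw [← hprod]
      exact W.mul_mem h1 hm
    have h3 : (⟨((p.1.out : V) : G)⁻¹ * ((g * h : V) : G) * ((p'.1.out : V) : G), h2⟩ : W) =
        ⟨((p.1.out : V) : G)⁻¹ * g * ((q₀.out : V) : G), h1⟩ *
        ⟨((q₀.out : V) : G)⁻¹ * h * ((p'.1.out : V) : G), hm⟩ := Subtype.ext hprod.symm
    rw [indMat, dif_pos h2, h3, map_mul, Units.val_mul, Matrix.mul_apply]
    refine Finset.sum_congr rfl fun j _ => ?_
    rw [indMat, indMat, dif_pos h1, dif_pos hm]
  · have h2 : ((p.1.out : V) : G)⁻¹ * ((g * h : V) : G) * ((p'.1.out : V) : G) ∉ W := by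
      intro h3
      apply h1
      rw [← hprod] at h3
      have h4 := W.mul_mem h3 (W.inv_mem hm)
      rwa [mul_inv_cancel_right] at h4
    rw [indMat, dif_neg h2]
    symm
    refine Finset.sum_eq_zero fun j _ => ?_
    rw [indMat, dif_neg h1, zero_mul]

/-- induced characters are characters -/
lemma HasTrace.ind {V W : Subgroup G} (hV : IsOpen (V : Set G)) (hWV : W ≤ V) {n : ℕ}
    {ρ : W →* GL (Fin n) ℂ} (hρ : OpenKer ρ) {f : G → ℂ} (hf : HasTrace ρ f) :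
    ∃ (m : ℕ) (σ : V →* GL (Fin m) ℂ), OpenKer σ ∧ HasTrace σ (Ind V W f) := by
  classical
  have hW := hρ.isOpen
  have hfin : Finite (V ⧸ W.subgroupOf V) := finite_quot hW
  let _ : Fintype (V ⧸ W.subgroupOf V) := Fintype.ofFinite _
  let m := Fintype.card ((V ⧸ W.subgroupOf V) × Fin n)
  let e : ((V ⧸ W.subgroupOf V) × Fin n) ≃ Fin m := Fintype.equivFin _
  let β : V →* Matrix ((V ⧸ W.subgroupOf V) × Fin n) ((V ⧸ W.subgroupOf V) × Fin n) ℂ :=
    { toFun := indMat ρ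
      map_one' := by
        refine indMat_one ρ 1 fun q => ?_
        have h1 : ((q.out : V) : G)⁻¹ * ((1 : V) : G) * ((q.out : V) : G) = 1 := by simp
        refine ⟨h1 ▸ W.one_mem, ?_⟩
        have h2 : (⟨((q.out : V) : G)⁻¹ * ((1 : V) : G) * ((q.out : V) : G), h1 ▸ W.one_mem⟩ : W) = 1 :=
          Subtype.ext h1
        rw [h2, map_one]
      map_mul' := indMat_mul ρ }
  let r : Matrix ((V ⧸ W.subgroupOf V) × Fin n) ((V ⧸ W.subgroupOf V) × Fin n) ℂ →*
      Matrix (Fin m) (Fin m) ℂ := (Matrix.reindexAlgEquiv ℂ ℂ e : _ →* _)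
  let σ : V →* GL (Fin m) ℂ := (r.comp β).toHomUnits
  refine ⟨m, σ, ?_, ?_, ?_⟩
  · -- the kernel is open
    let A : (V ⧸ W.subgroupOf V) → Subgroup G := fun q =>
      (ρ.ker.map W.subtype).comap (MulAut.conj ((q.out : V) : G)⁻¹).toMonoidHom
    have hA : ∀ q g, g ∈ A q ↔ ∃ h : ((q.out : V) : G)⁻¹ * g * ((q.out : V) : G) ∈ W,
        ρ ⟨((q.out : V) : G)⁻¹ * g * ((q.out : V) : G), h⟩ = 1 := by
      intro q g
      have h1 : g ∈ A q ↔ ((q.out : V) : G)⁻¹ * g * (((q.out : V) : G)⁻¹)⁻¹ ∈ ρ.ker.map W.subtype := Iff.rfl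
      rw [h1, inv_inv, mem_kerMap]
    have hAo : ∀ q, IsOpen (A q : Set G) := by
      intro q
      have h1 : (A q : Set G) = (fun g => ((q.out : V) : G)⁻¹ * g * (((q.out : V) : G)⁻¹)⁻¹) ⁻¹'
          ((ρ.ker.map W.subtype : Subgroup G) : Set G) := rfl
      rw [h1]
      exact hρ.preimage (by fun_prop)
    let B : Subgroup G := V ⊓ ⨅ q, A q
    have hB : IsOpen (B : Set G) := by
      change IsOpen ((V ⊓ ⨅ q, A q : Subgroup G) : Set G)
      rw [Subgroup.coe_inf, Subgroup.coe_iInf]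
      exact hV.inter (isOpen_iInter_of_finite hAo)
    refine openKer_of σ hB ?_
    intro g hg
    refine ⟨hg.1, ?_⟩
    apply Units.ext
    change r (β ⟨g, hg.1⟩) = 1
    have h1 : β ⟨g, hg.1⟩ = 1 := by
      refine indMat_one ρ _ fun q => ?_
      exact (hA q g).1 ((Subgroup.mem_iInf.1 hg.2) q)
    rw [h1, map_one]
  · intro g hg
    change _ = Matrix.trace (Matrix.reindex e e (indMat ρ ⟨g, hg⟩))
    have h0 : Matrix.trace (Matrix.reindex e e (indMat ρ ⟨g, hg⟩)) = Matrix.trace (indMat ρ ⟨g, hg⟩) := by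
      rw [Matrix.trace, Matrix.trace]
      exact Fintype.sum_equiv e.symm _ _ fun x => rfl
    rw [h0, Ind, finsum_eq_sum_of_fintype, Matrix.trace, Fintype.sum_prod_type]
    refine Finset.sum_congr rfl fun q _ => ?_
    by_cases h1 : ((q.out : V) : G)⁻¹ * g * ((q.out : V) : G) ∈ W
    · rw [hf.1 _ h1, Matrix.trace]
      refine Finset.sum_congr rfl fun j _ => ?_
      rw [Matrix.diag_apply, Matrix.diag_apply, indMat, dif_pos h1]
    · rw [hf.2 _ h1]
      symm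
      refine Finset.sum_eq_zero fun j _ => ?_
      rw [Matrix.diag_apply, indMat, dif_neg h1]
  · intro g hg
    exact Ind_supp hWV hf.cl hg

/-- induction as an additive map on the virtual characters -/
theorem VC.ind {V W : Subgroup G} (hV : IsOpen (V : Set G)) (hW : IsOpen (W : Set G)) (hWV : W ≤ V)
    {f : G → ℂ} (hf : f ∈ VC W) : Ind V W f ∈ VC V := by
  have hfin : Finite (V ⧸ W.subgroupOf V) := finite_quot hW
  let M : (G → ℂ) →+ (G → ℂ) := AddMonoidHom.mk' (Ind V W) (Ind_add V W)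
  have h1 : VC W ≤ (VC V).comap M := by
    rw [VC, AddSubgroup.closure_le]
    rintro f ⟨n, ρ, hρ, h⟩
    obtain ⟨m, σ, hσ, h2⟩ := h.ind hV hWV hρ
    exact AddSubgroup.subset_closure ⟨m, σ, hσ, h2⟩
  exact h1 hf

end Pool.Agent.N770.SK
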