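import Pool.Agent.N770.SK.Gal
import Pool.Agent.N770.SK.VC

/-!
# Transitivity of induction, and the smallest class
-/

set_option autoImplicit false
set_option linter.unusedSectionVars false

namespace Pool.Agent.N770.SK

open IntermediateField

section trans

variable {G : Type} [Group G]

lemma Ind_self (W : Subgroup G) {f : G → ℂ} (hf : Cl W f) : Ind W W f = f := by
  classical
  funext g
  have h1 : W.subgroupOf W = ⊤ := Subgroup.subgroupOf_self W
  have hsub : ∀ q q' : W ⧸ W.subgroupOf W, q = q' := by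
    intro q q'
    obtain ⟨x, rfl⟩ := QuotientGroup.mk_surjective q
    obtain ⟨y, rfl⟩ := QuotientGroup.mk_surjective q'
    rw [QuotientGroup.eq, h1]
    trivial
  rw [Ind, finsum_eq_single _ (QuotientGroup.mk (1 : W) : W ⧸ W.subgroupOf W)
    (fun q hq => absurd (hsub _ _) hq), hf.out]
  simp

/-- transitivity -/
theorem Ind_Ind {U V W : Subgroup G} (hVU : V ≤ U) (hWV : W ≤ V) [Finite (U ⧸ V.subgroupOf U)]
    [Finite (V ⧸ W.subgroupOf V)] [Finite (U ⧸ W.subgroupOf U)] {f : G → ℂ} (hf : Cl W f) :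
    Ind U V (Ind V W f) = Ind U W f := by
  classical
  let _ : Fintype (U ⧸ V.subgroupOf U) := Fintype.ofFinite _
  let _ : Fintype (V ⧸ W.subgroupOf V) := Fintype.ofFinite _
  let _ : Fintype (U ⧸ W.subgroupOf U) := Fintype.ofFinite _
  funext g
  rw [Ind, Ind, finsum_eq_sum_of_fintype, finsum_eq_sum_of_fintype]
  have h1 : ∀ q : U ⧸ V.subgroupOf U, Ind V W f (((q.out : U) : G)⁻¹ * g * ((q.out : U) : G)) =
      ∑ r : V ⧸ W.subgroupOf V, f (((r.out : V) : G)⁻¹ * (((q.out : U) : G)⁻¹ * g * ((q.out : U) : G)) *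
        ((r.out : V) : G)) := fun q => by rw [Ind, finsum_eq_sum_of_fintype]
  rw [Finset.sum_congr rfl fun q _ => h1 q, ← Fintype.sum_prod_type'
    (f := fun (q : U ⧸ V.subgroupOf U) (r : V ⧸ W.subgroupOf V) =>
      f (((r.out : V) : G)⁻¹ * (((q.out : U) : G)⁻¹ * g * ((q.out : U) : G)) * ((r.out : V) : G)))]
  let F : (U ⧸ V.subgroupOf U) × (V ⧸ W.subgroupOf V) → U ⧸ W.subgroupOf U := fun p =>
    QuotientGroup.mk ((p.1.out : U) * Subgroup.inclusion hVU (p.2.out : V))
  have hF : Function.Bijective F := by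
    constructor
    · rintro ⟨q, r⟩ ⟨q', r'⟩ h
      have h2 := QuotientGroup.eq.1 h
      rw [Subgroup.mem_subgroupOf] at h2
      have h3 : (((q.out : U) * Subgroup.inclusion hVU (r.out : V))⁻¹ *
          ((q'.out : U) * Subgroup.inclusion hVU (r'.out : V)) : U) =
          (Subgroup.inclusion hVU (r.out : V))⁻¹ * ((q.out : U)⁻¹ * (q'.out : U)) *
            Subgroup.inclusion hVU (r'.out : V) := by group
      rw [h3] at h2
      have h4 : ((q.out : U)⁻¹ * (q'.out : U)) ∈ V.subgroupOf U := by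
        rw [Subgroup.mem_subgroupOf]
        have h5 := V.mul_mem (V.mul_mem (r.out : V).2 (hWV h2)) (V.inv_mem (r'.out : V).2)
        have h6 : ((r.out : V) : G) * (((Subgroup.inclusion hVU (r.out : V))⁻¹ * ((q.out : U)⁻¹ * (q'.out : U)) *
            Subgroup.inclusion hVU (r'.out : V) : U) : G) * ((r'.out : V) : G)⁻¹ =
            (((q.out : U)⁻¹ * (q'.out : U) : U) : G) := by
          push_cast
          change ((r.out : V) : G) * (((r.out : V) : G)⁻¹ * (((q.out : U) : G)⁻¹ * ((q'.out : U) : G)) * ((r'.out : V) : G)) * ((r'.out : V) : G)⁻¹ = _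
          group
        rwa [h6] at h5
      have h5 : q = q' := by
        rw [← QuotientGroup.out_eq' q, ← QuotientGroup.out_eq' q']
        exact QuotientGroup.eq.2 h4
      subst h5
      have h6 : r = r' := by
        rw [← QuotientGroup.out_eq' r, ← QuotientGroup.out_eq' r']
        refine QuotientGroup.eq.2 ?_
        rw [Subgroup.mem_subgroupOf]
        have h7 : (((Subgroup.inclusion hVU (r.out : V))⁻¹ * ((q.out : U)⁻¹ * (q.out : U)) *
            Subgroup.inclusion hVU (r'.out : V) : U) : G) = (((r.out : V)⁻¹ * (r'.out : V) : V) : G) := by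
          rw [inv_mul_cancel, mul_one]
          rfl
        rwa [h7] at h2
      rw [h6]
    · intro s
      obtain ⟨x, rfl⟩ := QuotientGroup.mk_surjective s
      have h2 : (QuotientGroup.mk x : U ⧸ V.subgroupOf U).out⁻¹ * x ∈ V.subgroupOf U := by
        rw [← QuotientGroup.eq, QuotientGroup.out_eq']
      let v : V := ⟨((QuotientGroup.mk x : U ⧸ V.subgroupOf U).out⁻¹ * x : U), Subgroup.mem_subgroupOf.1 h2⟩
      refine ⟨(QuotientGroup.mk x, QuotientGroup.mk v), ?_⟩
      refine QuotientGroup.eq.2 ?_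
      rw [Subgroup.mem_subgroupOf]
      have h3 : ((QuotientGroup.mk v : V ⧸ W.subgroupOf V).out)⁻¹ * v ∈ W.subgroupOf V := by
        rw [← QuotientGroup.eq, QuotientGroup.out_eq']
      rw [Subgroup.mem_subgroupOf] at h3
      have h4 : (((((QuotientGroup.mk x : U ⧸ V.subgroupOf U).out : U) *
          Subgroup.inclusion hVU ((QuotientGroup.mk v : V ⧸ W.subgroupOf V).out : V))⁻¹ * x : U) : G) =
          ((((QuotientGroup.mk v : V ⧸ W.subgroupOf V).out)⁻¹ * v : V) : G) := by
        have h5 : (v : G) = (((QuotientGroup.mk x : U ⧸ V.subgroupOf U).out⁻¹ * x : U) : G) := rfl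
        push_cast
        rw [h5]
        push_cast
        rw [mul_inv_rev]
        change (((QuotientGroup.mk v : V ⧸ W.subgroupOf V).out : V) : G)⁻¹ * _ * _ = _
        group
      exact h4 ▸ h3
  let e := Equiv.ofBijective F hF
  refine Fintype.sum_equiv e _ _ ?_
  rintro ⟨q, r⟩
  have h2 : e (q, r) = QuotientGroup.mk ((q.out : U) * Subgroup.inclusion hVU (r.out : V)) := rfl
  rw [h2, hf.out]
  congr 1
  push_cast
  change _ = (((q.out : U) : G) * ((r.out : V) : G))⁻¹ * g * (((q.out : U) : G) * ((r.out : V) : G))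
  group

end trans

/-- the group generated by the basic characters -/
def Gen (K : Sub) : AddSubgroup (GQ → ℂ) := AddSubgroup.closure {f | Basic K f}

lemma fixed_mono {V W : Subgroup GQ} (hV : IsOpen (V : Set GQ)) (hWV : W ≤ V) : fixedField V ≤ fixedField W := by
  rw [IntermediateField.le_iff_le]
  exact hWV.trans (fixing_fixed hV).ge

/-- quadratic characters -/
lemma isQuadratic_of {K : Sub} {χ : GK K →* ℂˣ} (hχ : OpenKer χ) (h : ∀ u, χ u ^ 2 = 1) :
    IsQuadratic K (lin (GK K) χ) := by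
  refine ⟨⟨χ, hχ, rfl⟩, fun g hg => ?_⟩
  rw [lin_mem χ hg, ← Units.val_pow_eq_pow_val, h, Units.val_one]

lemma qc_sq (x : ℤˣ) : qc x ^ 2 = 1 := by
  rw [← map_pow]
  rcases Int.units_eq_one_or x with h1 | h1 <;> rw [h1] <;> simp

/-- one-dimensional characters of open subgroups as basic characters -/
lemma basic_of {V : Subgroup GQ} (hV : IsOpen (V : Set GQ)) {ψ : V →* ℂˣ} (hψ : OpenKer ψ)
    (h : (∀ c ∈ CC, c ∉ V) ∨ ∀ u, ψ u ^ 2 = 1) : Basic (fixedField V) (lin V ψ) := by
  have h3 : GK (fixedField V) = V := fixing_fixed hV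
  have h4 : ∀ (W : Subgroup GQ), W = V → ∃ χ : W →* ℂˣ, OpenKer χ ∧ lin V ψ = Ind W W (lin W χ) ∧
      ((∀ u, ψ u ^ 2 = 1) → ∀ u, χ u ^ 2 = 1) := by
    rintro W rfl
    exact ⟨ψ, hψ, (Ind_self W (lin_cl W ψ)).symm, fun h => h⟩
  obtain ⟨χ, hχ, h5, h6⟩ := h4 _ h3
  refine ⟨fixedField V, le_rfl, finite_fixed hV, _, ⟨χ, hχ, rfl⟩, ?_, h5⟩
  rcases h with h | h
  · left
    refine ⟨fun u => ?_⟩
    obtain ⟨c, hc1, hc2⟩ := cc_of_real u
    have hc3 : c ∈ GK (fixedField V) := hc2
    rw [h3] at hc3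
    exact h c hc1 hc3
  · right
    exact isQuadratic_of hχ (h6 h)

/-- **The smallest class.** -/
theorem Gen_TC : TC CC (fun V => Gen (fixedField V)) := by
  refine ⟨?_, ?_, ?_⟩
  · intro V W hV hW hWV f _ hf
    have hfq : Finite (V ⧸ W.subgroupOf V) := finite_quot hW
    let M : (GQ → ℂ) →+ (GQ → ℂ) := AddMonoidHom.mk' (Ind V W) (Ind_add V W)
    have h1 : Gen (fixedField W) ≤ (Gen (fixedField V)).comap M := by
      rw [Gen, AddSubgroup.closure_le]
      rintro f ⟨K', hK, hK', _, ⟨χ, hχ, rfl⟩, hKc, rfl⟩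
      rw [SetLike.mem_coe, AddSubgroup.mem_comap]
      change Ind V W (Ind (GK (fixedField W)) (GK K') (lin (GK K') χ)) ∈ _
      have h2 : GK (fixedField W) = W := fixing_fixed hW
      have h3 : GK (fixedField V) = V := fixing_fixed hV
      have hK'f : FiniteDimensional ℚ K' := hK'
      have h4 : IsOpen (GK K' : Set GQ) := K'.fixingSubgroup_isOpen
      have h5 : GK K' ≤ W := by
        rw [← h2]
        exact IntermediateField.fixingSubgroup_le hK
      have _ : Finite (W ⧸ (GK K').subgroupOf W) := finite_quot h4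
      have _ : Finite (V ⧸ (GK K').subgroupOf V) := finite_quot h4
      rw [h2, Ind_Ind hWV h5 (lin_cl _ _)]
      refine AddSubgroup.subset_closure ⟨K', (fixed_mono hV hWV).trans hK, hK', _, ⟨χ, hχ, rfl⟩,
        hKc, ?_⟩
      change _ = Ind (GK (fixedField V)) _ _
      rw [h3]
    exact h1 hf
  · intro V ε hε
    exact AddSubgroup.subset_closure (basic_of hε.isOpen (hε.comp qc) (Or.inr fun u => qc_sq _))
  · intro W hW hWX ψ hψ
    exact AddSubgroup.subset_closure (basic_of hW hψ (Or.inl hWX))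

end Pool.Agent.N770.SK
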