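import Pool.Agent.N770.SK.Perm

/-!
# Tensor induction of a quadratic character from a subgroup of index two
-/

set_option autoImplicit false

namespace Pool.Agent.N770.SK

section two

variable {Γ : Type} [Group Γ] (Λ : Subgroup Γ) (α : Λ →* ℤˣ)

/-- the functions with values `±1` in the induced module -/
@[ext]
structure Yf where
  val : Γ → ℤˣ
  prop : ∀ (u : Λ) (x : Γ), val (u * x) = α u * val x

instance : MulAction Γ (Yf Λ α) where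
  smul g f := ⟨fun x => f.1 (x * g), fun u x => by rw [mul_assoc]; exact f.2 u (x * g)⟩
  one_smul f := Yf.ext (funext fun x => by
    change f.1 (x * 1) = f.1 x
    rw [mul_one])
  mul_smul g h f := Yf.ext (funext fun x => by
    change f.1 (x * (g * h)) = f.1 (x * g * h)
    rw [mul_assoc])

lemma smul_val (g : Γ) (f : Yf Λ α) (x : Γ) : (g • f).1 x = f.1 (x * g) := rfl

variable {Λ} {τ : Γ} (hτ : τ ∉ Λ) (h2 : ∀ x : Γ, x ∈ Λ ∨ τ⁻¹ * x ∈ Λ)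

include hτ h2

lemma mul_inv_mem {x : Γ} (hx : x ∉ Λ) : x * τ⁻¹ ∈ Λ := by
  rcases h2 (x * τ⁻¹) with h | h
  · exact h
  · exfalso
    -- `τ⁻¹ x τ⁻¹ ∈ Λ`
    have h3 := (h2 x).resolve_left hx
    have h4 := Λ.mul_mem (Λ.inv_mem h3) h
    have h5 : (τ⁻¹ * x)⁻¹ * (τ⁻¹ * (x * τ⁻¹)) = τ⁻¹ := by group
    rw [h5] at h4
    exact hτ (by simpa using Λ.inv_mem h4)

lemma sq_mem : τ * τ ∈ Λ := by
  rcases h2 (τ * τ) with h | h
  · exact h
  · exact absurd (by simpa using h) hτ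

lemma conj_mem {x : Γ} (hx : x ∈ Λ) : τ * x * τ⁻¹ ∈ Λ := by
  by_cases h : τ * x ∈ Λ
  · exact absurd (by simpa using Λ.mul_mem h (Λ.inv_mem hx)) hτ
  · exact mul_inv_mem hτ h2 h

lemma mul_mem' {x : Γ} (hx : x ∉ Λ) : τ * x ∈ Λ := by
  have h3 := (h2 x).resolve_left hx
  have h4 := Λ.mul_mem (sq_mem hτ h2) h3
  have h5 : τ * τ * (τ⁻¹ * x) = τ * x := by group
  rwa [h5] at h4

/-- an element of `Yf` is determined by two values -/
lemma Yf_ext {f f' : Yf Λ α} (h1 : f.1 1 = f'.1 1) (ht : f.1 τ = f'.1 τ) : f = f' := by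
  apply Yf.ext
  funext x
  by_cases hx : x ∈ Λ
  · have h3 := f.2 ⟨x, hx⟩ 1
    have h4 := f'.2 ⟨x, hx⟩ 1
    simp only [mul_one] at h3 h4
    rw [h3, h4, h1]
  · have hm := mul_inv_mem hτ h2 hx
    have h3 := f.2 ⟨x * τ⁻¹, hm⟩ τ
    have h4 := f'.2 ⟨x * τ⁻¹, hm⟩ τ
    simp only [inv_mul_cancel_right] at h3 h4
    rw [h3, h4, ht]

open Classical in
/-- the element with given values -/
noncomputable def mkY (a b : ℤˣ) : Yf Λ α :=
  ⟨fun x => if hx : x ∈ Λ then α ⟨x, hx⟩ * a else α ⟨x * τ⁻¹, mul_inv_mem hτ h2 hx⟩ * b, by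
    intro u x

    by_cases hx : x ∈ Λ
    · have h3 : (u : Γ) * x ∈ Λ := Λ.mul_mem u.2 hx
      rw [dif_pos hx, dif_pos h3, ← mul_assoc, ← map_mul]
      rfl
    · have h3 : (u : Γ) * x ∉ Λ := fun h => hx (by
        have := Λ.mul_mem (Λ.inv_mem u.2) h
        simpa using this)
      rw [dif_neg hx, dif_neg h3, ← mul_assoc (α u), ← map_mul]
      congr 2
      apply Subtype.ext
      simp [mul_assoc]⟩

open Classical in
lemma mkY_one (a b : ℤˣ) : (mkY α hτ h2 a b).1 1 = a := by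
  change (if hx : (1 : Γ) ∈ Λ then α ⟨1, hx⟩ * a else _) = a
  rw [dif_pos Λ.one_mem]
  have : (⟨1, Λ.one_mem⟩ : Λ) = 1 := rfl
  rw [this, map_one, one_mul]

open Classical in
lemma mkY_tau (a b : ℤˣ) : (mkY α hτ h2 a b).1 τ = b := by
  change (if hx : τ ∈ Λ then α ⟨τ, hx⟩ * a else α ⟨τ * τ⁻¹, _⟩ * b) = b
  rw [dif_neg hτ]
  have : (⟨τ * τ⁻¹, mul_inv_mem hτ h2 hτ⟩ : Λ) = 1 := Subtype.ext (by simp)
  rw [this, map_one, one_mul]

/-- `Yf` has four elements -/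
noncomputable def YfEquiv : Yf Λ α ≃ ℤˣ × ℤˣ where
  toFun f := (f.1 1, f.1 τ)
  invFun z := mkY α hτ h2 z.1 z.2
  left_inv _ := Yf_ext α hτ h2 (mkY_one α hτ h2 _ _) (mkY_tau α hτ h2 _ _)
  right_inv _ := Prod.ext (mkY_one α hτ h2 _ _) (mkY_tau α hτ h2 _ _)

omit h2 hτ in
lemma val_mem {g : Γ} (hg : g ∈ Λ) (f : Yf Λ α) : f.1 g = α ⟨g, hg⟩ * f.1 1 := by
  have h3 := f.2 ⟨g, hg⟩ 1
  simpa using h3

lemma val_tau_mem {g : Γ} (hg : g ∈ Λ) (f : Yf Λ α) :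
    f.1 (τ * g) = α ⟨τ * g * τ⁻¹, conj_mem hτ h2 hg⟩ * f.1 τ := by
  have h3 := f.2 ⟨τ * g * τ⁻¹, conj_mem hτ h2 hg⟩ τ
  simpa using h3

lemma val_not {g : Γ} (hg : g ∉ Λ) (f : Yf Λ α) : f.1 g = α ⟨g * τ⁻¹, mul_inv_mem hτ h2 hg⟩ * f.1 τ := by
  have h3 := f.2 ⟨g * τ⁻¹, mul_inv_mem hτ h2 hg⟩ τ
  simpa using h3

lemma val_tau_not {g : Γ} (hg : g ∉ Λ) (f : Yf Λ α) :
    f.1 (τ * g) = α ⟨τ * g, mul_mem' hτ h2 hg⟩ * f.1 1 := by
  have h3 := f.2 ⟨τ * g, mul_mem' hτ h2 hg⟩ 1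
  simpa using h3

open Classical in
/-- the character on the product of the two values -/
noncomputable def betaFun (g : Γ) : ℤˣ :=
  if hg : g ∈ Λ then α ⟨g, hg⟩ * α ⟨τ * g * τ⁻¹, conj_mem hτ h2 hg⟩
  else α ⟨g * τ⁻¹, mul_inv_mem hτ h2 hg⟩ * α ⟨τ * g, mul_mem' hτ h2 hg⟩

lemma betaFun_spec (g : Γ) (f : Yf Λ α) :
    (g • f).1 1 * (g • f).1 τ = betaFun α hτ h2 g * (f.1 1 * f.1 τ) := by
  rw [smul_val, smul_val, one_mul, betaFun]
  by_cases hg : g ∈ Λ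
  · rw [dif_pos hg, val_mem α hg f, val_tau_mem α hτ h2 hg f, mul_mul_mul_comm]
  · rw [dif_neg hg, val_not α hτ h2 hg f, val_tau_not α hτ h2 hg f, mul_mul_mul_comm,
      mul_comm (f.1 τ)]

/-- tensor induction of `α` -/
noncomputable def beta : Γ →* ℤˣ :=
  MonoidHom.mk' (betaFun α hτ h2) (fun g h => by
    let f := mkY α hτ h2 1 1
    have h3 := betaFun_spec α hτ h2 (g * h) f
    have h4 := betaFun_spec α hτ h2 g (h • f)
    have h5 := betaFun_spec α hτ h2 h f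
    rw [mul_smul] at h3
    rw [h4, h5, ← mul_assoc] at h3
    exact (mul_right_cancel h3).symm)

lemma beta_mem {g : Γ} (hg : g ∈ Λ) :
    beta α hτ h2 g = α ⟨g, hg⟩ * α ⟨τ * g * τ⁻¹, conj_mem hτ h2 hg⟩ := by
  change betaFun α hτ h2 g = _
  rw [betaFun, dif_pos hg]

/-- the fixed points of `g` -/
lemma fix_iff_mem {g : Γ} (hg : g ∈ Λ) (f : Yf Λ α) :
    g • f = f ↔ α ⟨g, hg⟩ = 1 ∧ α ⟨τ * g * τ⁻¹, conj_mem hτ h2 hg⟩ = 1 := by
  constructor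
  · intro h
    have h3 : (g • f).1 1 = f.1 1 := by rw [h]
    have h4 : (g • f).1 τ = f.1 τ := by rw [h]
    rw [smul_val, one_mul, val_mem α hg f] at h3
    rw [smul_val, val_tau_mem α hτ h2 hg f] at h4
    exact ⟨mul_eq_right.1 h3, mul_eq_right.1 h4⟩
  · rintro ⟨h3, h4⟩
    refine Yf_ext α hτ h2 ?_ ?_
    · rw [smul_val, one_mul, val_mem α hg f, h3, one_mul]
    · rw [smul_val, val_tau_mem α hτ h2 hg f, h4, one_mul]

lemma fix_iff_not {g : Γ} (hg : g ∉ Λ) (f : Yf Λ α) :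
    g • f = f ↔ α ⟨g * τ⁻¹, mul_inv_mem hτ h2 hg⟩ * f.1 τ = f.1 1 ∧
      α ⟨τ * g, mul_mem' hτ h2 hg⟩ * f.1 1 = f.1 τ := by
  constructor
  · intro h
    have h3 : (g • f).1 1 = f.1 1 := by rw [h]
    have h4 : (g • f).1 τ = f.1 τ := by rw [h]
    rw [smul_val, one_mul, val_not α hτ h2 hg f] at h3
    rw [smul_val, val_tau_not α hτ h2 hg f] at h4
    exact ⟨h3, h4⟩
  · rintro ⟨h3, h4⟩
    refine Yf_ext α hτ h2 ?_ ?_
    · rw [smul_val, one_mul, val_not α hτ h2 hg f, h3]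
    · rw [smul_val, val_tau_not α hτ h2 hg f, h4]

/-- the number of fixed points -/
lemma card_fix (g : Γ) : (Nat.card {f : Yf Λ α // g • f = f} : ℤ) =
    1 + (beta α hτ h2 g : ℤ) + (open Classical in if hg : g ∈ Λ then
      ((α ⟨g, hg⟩ : ℤ) + (α ⟨τ * g * τ⁻¹, conj_mem hτ h2 hg⟩ : ℤ)) else 0) := by
  classical
  by_cases hg : g ∈ Λ
  · rw [dif_pos hg, beta_mem α hτ h2 hg]
    have h3 : Nat.card {f : Yf Λ α // g • f = f} =
        Nat.card {z : ℤˣ × ℤˣ // α ⟨g, hg⟩ = 1 ∧ α ⟨τ * g * τ⁻¹, conj_mem hτ h2 hg⟩ = 1} := by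
      refine Nat.card_congr ((YfEquiv α hτ h2).subtypeEquiv fun f => ?_)
      exact fix_iff_mem α hτ h2 hg f
    rw [h3, Nat.card_eq_fintype_card]
    generalize α ⟨g, hg⟩ = x
    generalize α ⟨τ * g * τ⁻¹, conj_mem hτ h2 hg⟩ = y
    rcases Int.units_eq_one_or x with rfl | rfl <;> rcases Int.units_eq_one_or y with rfl | rfl <;>
      rfl
  · rw [dif_neg hg]
    have hb : beta α hτ h2 g = α ⟨g * τ⁻¹, mul_inv_mem hτ h2 hg⟩ * α ⟨τ * g, mul_mem' hτ h2 hg⟩ := by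
      change betaFun α hτ h2 g = _
      rw [betaFun, dif_neg hg]
    rw [hb]
    have h3 : Nat.card {f : Yf Λ α // g • f = f} =
        Nat.card {z : ℤˣ × ℤˣ // α ⟨g * τ⁻¹, mul_inv_mem hτ h2 hg⟩ * z.2 = z.1 ∧
          α ⟨τ * g, mul_mem' hτ h2 hg⟩ * z.1 = z.2} := by
      refine Nat.card_congr ((YfEquiv α hτ h2).subtypeEquiv fun f => ?_)
      exact fix_iff_not α hτ h2 hg f
    rw [h3, Nat.card_eq_fintype_card]
    generalize α ⟨g * τ⁻¹, mul_inv_mem hτ h2 hg⟩ = x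
    generalize α ⟨τ * g, mul_mem' hτ h2 hg⟩ = y
    rcases Int.units_eq_one_or x with rfl | rfl <;> rcases Int.units_eq_one_or y with rfl | rfl <;>
      rfl

lemma finite_Yf : Finite (Yf Λ α) := Finite.of_equiv _ (YfEquiv α hτ h2).symm

end two

end Pool.Agent.N770.SK
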